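import Mathlib

/-!
The discrete Hammersley process with sources and sinks: stationarity.
-/

open Finset

namespace Pool.Agent.Work.MP_465a95_pr

/-- Bernoulli expectation. -/
noncomputable def EB (a : ℝ) (f : Bool → ℝ) : ℝ := a * f true + (1 - a) * f false

/-- Prepend a value to a sequence. -/
def sc {α : Type*} (b : α) (f : ℕ → α) : ℕ → α
  | 0 => b
  | n + 1 => f n

/-- Expectation over the first `k` coordinates (independent Bernoulli), the others being
`false`. -/
noncomputable def EF (a : ℝ) : ℕ → ((ℕ → Bool) → ℝ) → ℝ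
  | 0, F => F (fun _ => false)
  | k + 1, F => EB a (fun b => EF a k (fun f => F (sc b f)))

/-- Expectation over `m` columns of length `k`. -/
noncomputable def EF2 (a : ℝ) (k : ℕ) : ℕ → ((ℕ → ℕ → Bool) → ℝ) → ℝ
  | 0, F => F (fun _ _ => false)
  | m + 1, F => EF a k (fun w0 => EF2 a k m (fun w => F (sc w0 w)))

lemma EB_add (a : ℝ) (f g : Bool → ℝ) : EB a (fun b => f b + g b) = EB a f + EB a g := by
  unfold EB; ring

lemma EB_mul (a c : ℝ) (f : Bool → ℝ) : EB a (fun b => c * f b) = c * EB a f := by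
  unfold EB; ring

lemma EB_const (a c : ℝ) : EB a (fun _ => c) = c := by
  unfold EB; ring

lemma EB_comm (a b : ℝ) (F : Bool → Bool → ℝ) :
    EB a (fun x => EB b (fun y => F x y)) = EB b (fun y => EB a (fun x => F x y)) := by
  unfold EB; ring

lemma EB_mono {a : ℝ} (h0 : 0 ≤ a) (h1 : a ≤ 1) {f g : Bool → ℝ} (h : ∀ b, f b ≤ g b) :
    EB a f ≤ EB a g := by
  unfold EB
  have h2 : 0 ≤ 1 - a := by linarith
  have := mul_le_mul_of_nonneg_left (h true) h0
  have := mul_le_mul_of_nonneg_left (h false) h2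
  linarith

lemma EF_add (a : ℝ) (k : ℕ) (F G : (ℕ → Bool) → ℝ) :
    EF a k (fun f => F f + G f) = EF a k F + EF a k G := by
  induction k generalizing F G with
  | zero => rfl
  | succ k ih => simp only [EF]; rw [← EB_add]; congr 1; funext b; exact ih _ _

lemma EF_mul (a : ℝ) (k : ℕ) (c : ℝ) (F : (ℕ → Bool) → ℝ) :
    EF a k (fun f => c * F f) = c * EF a k F := by
  induction k generalizing F with
  | zero => rfl
  | succ k ih => simp only [EF]; rw [← EB_mul]; congr 1; funext b; exact ih _

lemma EF_const (a : ℝ) (k : ℕ) (c : ℝ) : EF a k (fun _ => c) = c := by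
  induction k with
  | zero => rfl
  | succ k ih => simp only [EF]; rw [ih, EB_const]

lemma EF_mono {a : ℝ} (h0 : 0 ≤ a) (h1 : a ≤ 1) (k : ℕ) {F G : (ℕ → Bool) → ℝ}
    (h : ∀ f, F f ≤ G f) : EF a k F ≤ EF a k G := by
  induction k generalizing F G with
  | zero => exact h _
  | succ k ih => exact EB_mono h0 h1 (fun b => ih (fun f => h _))

lemma EF_EB_comm (a b : ℝ) (k : ℕ) (G : (ℕ → Bool) → Bool → ℝ) :
    EF a k (fun f => EB b (fun x => G f x)) = EB b (fun x => EF a k (fun f => G f x)) := by
  induction k generalizing G with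
  | zero => rfl
  | succ k ih =>
    simp only [EF]
    rw [EB_comm]
    congr 1; funext y
    exact ih _

lemma EF_comm (a b : ℝ) (k m : ℕ) (G : (ℕ → Bool) → (ℕ → Bool) → ℝ) :
    EF a k (fun f => EF b m (fun g => G f g)) = EF b m (fun g => EF a k (fun f => G f g)) := by
  induction m generalizing G with
  | zero => rfl
  | succ m ih =>
    simp only [EF]
    rw [EF_EB_comm]
    congr 1; funext y
    exact ih _

lemma EF2_add (a : ℝ) (k m : ℕ) (F G : (ℕ → ℕ → Bool) → ℝ) :
    EF2 a k m (fun f => F f + G f) = EF2 a k m F + EF2 a k m G := by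
  induction m generalizing F G with
  | zero => rfl
  | succ m ih => simp only [EF2]; rw [← EF_add]; congr 1; funext b; exact ih _ _

lemma EF2_mul (a : ℝ) (k m : ℕ) (c : ℝ) (F : (ℕ → ℕ → Bool) → ℝ) :
    EF2 a k m (fun f => c * F f) = c * EF2 a k m F := by
  induction m generalizing F with
  | zero => rfl
  | succ m ih => simp only [EF2]; rw [← EF_mul]; congr 1; funext b; exact ih _

lemma EF2_const (a : ℝ) (k m : ℕ) (c : ℝ) : EF2 a k m (fun _ => c) = c := by
  induction m with
  | zero => rfl
  | succ m ih => simp only [EF2]; rw [ih, EF_const]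

lemma EF2_mono {a : ℝ} (h0 : 0 ≤ a) (h1 : a ≤ 1) (k m : ℕ) {F G : (ℕ → ℕ → Bool) → ℝ}
    (h : ∀ f, F f ≤ G f) : EF2 a k m F ≤ EF2 a k m G := by
  induction m generalizing F G with
  | zero => exact h _
  | succ m ih => exact EF_mono h0 h1 k (fun b => ih (fun f => h _))

lemma EF_EF2_comm (a b : ℝ) (l k m : ℕ) (G : (ℕ → Bool) → (ℕ → ℕ → Bool) → ℝ) :
    EF a l (fun f => EF2 b k m (fun g => G f g)) =
      EF2 b k m (fun g => EF a l (fun f => G f g)) := by
  induction m generalizing G with
  | zero => rfl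
  | succ m ih =>
    simp only [EF2]
    rw [EF_comm]
    congr 1; funext y
    exact ih _

/-- The local rule: bottom increment, left increment, mark ↦ top increment, right increment. -/
def cell (i j w : Bool) : Bool × Bool :=
  if i = j then (if i then (false, false) else (w, w)) else (i, j)

lemma cell_law {α β q : ℝ} (h : α * β = (1 - α) * (1 - β) * q) (F : Bool → Bool → ℝ) :
    EB α (fun i => EB β (fun j => EB q (fun w => F (cell i j w).1 (cell i j w).2))) =
      EB α (fun i => EB β (fun j => F i j)) := by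
  unfold EB cell
  simp
  linear_combination (F false false - F true true) * h

/-- Horizontal increments along a column. -/
def cI (i0 : Bool) (J w : ℕ → Bool) : ℕ → Bool
  | 0 => i0
  | j + 1 => (cell (cI i0 J w j) (J j) (w j)).1

/-- Vertical increments after a column. -/
def cJ (i0 : Bool) (J w : ℕ → Bool) (j : ℕ) : Bool := (cell (cI i0 J w j) (J j) (w j)).2

lemma cI_cons (i0 b w0 : Bool) (J w : ℕ → Bool) (j : ℕ) :
    cI i0 (sc b J) (sc w0 w) (j + 1) = cI (cell i0 b w0).1 J w j := by
  induction j with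
  | zero => rfl
  | succ j ih => rw [cI, ih]; rfl

lemma cJ_cons (i0 b w0 : Bool) (J w : ℕ → Bool) :
    cJ i0 (sc b J) (sc w0 w) = sc (cell i0 b w0).2 (cJ (cell i0 b w0).1 J w) := by
  funext j
  cases j with
  | zero => rfl
  | succ j => rw [cJ, cI_cons]; rfl

lemma cI_false (i0 : Bool) (j : ℕ) : cI i0 (fun _ => false) (fun _ => false) j = i0 := by
  induction j with
  | zero => rfl
  | succ j ih => rw [cI, ih]; cases i0 <;> rfl

lemma cJ_false (i0 : Bool) : cJ i0 (fun _ => false) (fun _ => false) = fun _ => false := by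
  funext j
  rw [cJ, cI_false]; cases i0 <;> rfl

/-- Stationarity of one column. -/
lemma column_law {α β q : ℝ} (h : α * β = (1 - α) * (1 - β) * q) (k : ℕ)
    (F : Bool → (ℕ → Bool) → ℝ) :
    EB α (fun i => EF β k (fun J => EF q k (fun w => F (cI i J w k) (cJ i J w)))) =
      EB α (fun i => EF β k (fun J => F i J)) := by
  induction k generalizing F with
  | zero =>
    simp only [EF, cI]
    simp only [cJ_false]
  | succ k ih =>
    simp only [EF]
    have e1 : ∀ i b : Bool, EF β k (fun J => EB q (fun w0 => EF q k (fun w =>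
        F (cI i (sc b J) (sc w0 w) (k + 1)) (cJ i (sc b J) (sc w0 w))))) =
        EB q (fun w0 => EF β k (fun J => EF q k (fun w =>
          F (cI (cell i b w0).1 J w k) (sc (cell i b w0).2 (cJ (cell i b w0).1 J w))))) := by
      intro i b
      rw [EF_EB_comm]
      simp only [cI_cons, cJ_cons]
    simp only [e1]
    rw [cell_law h (fun i b => EF β k (fun J => EF q k (fun w => F (cI i J w k) (sc b (cJ i J w)))))]
    rw [EB_comm, EB_comm]
    have e2 : ∀ b : Bool, EB α (fun i => EF β k (fun J => EF q k (fun w =>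
        F (cI i J w k) (sc b (cJ i J w))))) = EB α (fun i => EF β k (fun J => F i (sc b J))) :=
      fun b => ih (fun i J => F i (sc b J))
    rw [EB_comm]
    simp only [e2]
    rw [EB_comm]

/-- Vertical increments after `m` columns. -/
def JJ (I J : ℕ → Bool) (w : ℕ → ℕ → Bool) : ℕ → ℕ → Bool
  | 0 => J
  | i + 1 => cJ (I i) (JJ I J w i) (w i)

lemma JJ_cons (i0 : Bool) (I J w0 : ℕ → Bool) (w : ℕ → ℕ → Bool) (m : ℕ) :
    JJ (sc i0 I) J (sc w0 w) (m + 1) = JJ I (cJ i0 J w0) w m := by
  induction m with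
  | zero => rfl
  | succ m ih => rw [JJ, ih]; rfl

/-- Stationarity after `m` columns. -/
lemma right_law {α β q : ℝ} (h : α * β = (1 - α) * (1 - β) * q) (k m : ℕ)
    (F : (ℕ → Bool) → ℝ) :
    EF α m (fun I => EF β k (fun J => EF2 q k m (fun w => F (JJ I J w m)))) = EF β k F := by
  induction m with
  | zero => simp only [EF, EF2, JJ]
  | succ m ih =>
    simp only [EF, EF2, JJ_cons]
    have e1 : ∀ i0 : Bool, EF α m (fun I => EF β k (fun J => EF q k (fun w0 =>
        EF2 q k m (fun w => F (JJ I (cJ i0 J w0) w m))))) =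
        EF β k (fun J => EF q k (fun w0 =>
          (fun _ J' => EF α m (fun I => EF2 q k m (fun w => F (JJ I J' w m))))
            (cI i0 J w0 k) (cJ i0 J w0))) := by
      intro i0
      rw [EF_comm]
      congr 1; funext J
      rw [EF_comm]
    simp only [e1]
    have := column_law h k (fun _ J' => EF α m (fun I => EF2 q k m (fun w => F (JJ I J' w m))))
    rw [this, EB_const, ← EF_comm]
    exact ih

/-- Height function. -/
def gh (I J : ℕ → Bool) (w : ℕ → ℕ → Bool) (i j : ℕ) : ℕ :=
  ∑ i' ∈ range i, (I i').toNat + ∑ j' ∈ range j, (JJ I J w i j').toNat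

variable (I J : ℕ → Bool) (w : ℕ → ℕ → Bool)

lemma cell_conserve (i j w : Bool) :
    i.toNat + (cell i j w).2.toNat = j.toNat + (cell i j w).1.toNat := by
  revert i j w; decide

lemma gh_zero_right (i : ℕ) : gh I J w i 0 = ∑ i' ∈ range i, (I i').toNat := by
  simp [gh]

lemma gh_zero_left (j : ℕ) : gh I J w 0 j = ∑ j' ∈ range j, (J j').toNat := by
  simp [gh, JJ]

lemma gh_succ_right (i j : ℕ) : gh I J w i (j + 1) = gh I J w i j + (JJ I J w i j).toNat := by
  simp only [gh]; rw [sum_range_succ]; ring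

lemma gh_succ_left (i j : ℕ) :
    gh I J w (i + 1) j = gh I J w i j + (cI (I i) (JJ I J w i) (w i) j).toNat := by
  induction j with
  | zero => rw [gh_zero_right, gh_zero_right, sum_range_succ]; rfl
  | succ j ih =>
    rw [gh_succ_right, ih, gh_succ_right]
    have h1 : JJ I J w (i + 1) j = (cell (cI (I i) (JJ I J w i) (w i) j) (JJ I J w i j) (w i j)).2 :=
      rfl
    have h2 : cI (I i) (JJ I J w i) (w i) (j + 1) =
        (cell (cI (I i) (JJ I J w i) (w i) j) (JJ I J w i j) (w i j)).1 := rfl
    rw [h1, h2]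
    have := cell_conserve (cI (I i) (JJ I J w i) (w i) j) (JJ I J w i j) (w i j)
    omega

lemma gh_mono {i i' j j' : ℕ} (hi : i ≤ i') (hj : j ≤ j') : gh I J w i j ≤ gh I J w i' j' := by
  have h1 : gh I J w i j ≤ gh I J w i j' := by
    induction j', hj using Nat.le_induction with
    | base => exact le_rfl
    | succ n _ ih => rw [gh_succ_right]; omega
  refine h1.trans ?_
  clear h1 hj
  induction i', hi using Nat.le_induction with
  | base => exact le_rfl
  | succ n _ ih => rw [gh_succ_left]; omega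

lemma gh_diag (i j : ℕ) : gh I J w i j + (w i j).toNat ≤ gh I J w (i + 1) (j + 1) := by
  rw [gh_succ_right, gh_succ_left]
  have h1 : JJ I J w (i + 1) j = (cell (cI (I i) (JJ I J w i) (w i) j) (JJ I J w i j) (w i j)).2 :=
    rfl
  rw [h1]
  have : ∀ a b c : Bool, c.toNat ≤ a.toNat + (cell a b c).2.toNat := by decide
  have := this (cI (I i) (JJ I J w i) (w i) j) (JJ I J w i j) (w i j)
  omega

lemma gh_upper (i j : ℕ) : gh I J w (i + 1) (j + 1) = gh I J w (i + 1) j ∨
    gh I J w (i + 1) (j + 1) = gh I J w i (j + 1) ∨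
    (w i j = true ∧ gh I J w (i + 1) (j + 1) = gh I J w i j + 1) := by
  have h1 : JJ I J w (i + 1) j = (cell (cI (I i) (JJ I J w i) (w i) j) (JJ I J w i j) (w i j)).2 :=
    rfl
  have h2 : cI (I i) (JJ I J w i) (w i) (j + 1) =
        (cell (cI (I i) (JJ I J w i) (w i) j) (JJ I J w i j) (w i j)).1 := rfl
  have e1 := gh_succ_right I J w (i + 1) j
  have e2 := gh_succ_left I J w i (j + 1)
  have e3 := gh_succ_left I J w i j
  rw [h1] at e1
  rw [h2] at e2
  have key : ∀ a b c : Bool, (cell a b c).2.toNat = 0 ∨ (cell a b c).1.toNat = 0 ∨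
      (c = true ∧ a.toNat = 0 ∧ (cell a b c).2.toNat = 1) := by decide
  rcases key (cI (I i) (JJ I J w i) (w i) j) (JJ I J w i j) (w i j) with h | h | ⟨h, h', h''⟩
  · left; omega
  · right; left; omega
  · right; right
    refine ⟨h, ?_⟩
    omega

end Pool.Agent.Work.MP_465a95_pr
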