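import Mathlib

/-!
Longest strictly increasing chains.
-/

open Finset

set_option linter.unusedSectionVars false

namespace Pool.Agent.Work.MP_465a95_pr

/-- Strict order in both coordinates. -/
def lt2 (a b : ℕ × ℕ) : Prop := a.1 < b.1 ∧ a.2 < b.2

/-- Weak order in both coordinates. -/
def le2 (a b : ℕ × ℕ) : Prop := a.1 ≤ b.1 ∧ a.2 ≤ b.2

instance (a b : ℕ × ℕ) : Decidable (lt2 a b) := by unfold lt2; infer_instance

instance (a b : ℕ × ℕ) : Decidable (le2 a b) := by unfold le2; infer_instance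

lemma lt2.trans {a b c : ℕ × ℕ} (h1 : lt2 a b) (h2 : lt2 b c) : lt2 a c :=
  ⟨h1.1.trans h2.1, h1.2.trans h2.2⟩

lemma lt2.le2 {a b : ℕ × ℕ} (h : lt2 a b) : le2 a b := ⟨h.1.le, h.2.le⟩

lemma lt2_irrefl (a : ℕ × ℕ) : ¬ lt2 a a := fun h => lt_irrefl _ h.1

lemma le2_refl (a : ℕ × ℕ) : le2 a a := ⟨le_rfl, le_rfl⟩

lemma lt2_of_le2_of_lt2 {a b c : ℕ × ℕ} (h1 : le2 a b) (h2 : lt2 b c) : lt2 a c :=
  ⟨h1.1.trans_lt h2.1, h1.2.trans_lt h2.2⟩

lemma lt2_of_lt2_of_le2 {a b c : ℕ × ℕ} (h1 : lt2 a b) (h2 : le2 b c) : lt2 a c :=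
  ⟨h1.1.trans_le h2.1, h1.2.trans_le h2.2⟩

lemma le2.trans {a b c : ℕ × ℕ} (h1 : le2 a b) (h2 : le2 b c) : le2 a c :=
  ⟨h1.1.trans h2.1, h1.2.trans h2.2⟩

/-- Componentwise maximum. -/
def jn (a b : ℕ × ℕ) : ℕ × ℕ := (max a.1 b.1, max a.2 b.2)

lemma le2_jn_left (a b : ℕ × ℕ) : le2 a (jn a b) := ⟨le_max_left _ _, le_max_left _ _⟩

lemma le2_jn_right (a b : ℕ × ℕ) : le2 b (jn a b) := ⟨le_max_right _ _, le_max_right _ _⟩

variable {E : Type*} [DecidableEq E] (pos : E → ℕ × ℕ)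

/-- Strictly increasing chains. -/
def IsCh (K : Finset E) : Prop :=
  ∀ e ∈ K, ∀ f ∈ K, e ≠ f → lt2 (pos e) (pos f) ∨ lt2 (pos f) (pos e)

open Classical in
/-- Longest strictly increasing chain of elements of `D` strictly between `a` and `b`. -/
noncomputable def L (D : Finset E) (a b : ℕ × ℕ) : ℕ :=
  (D.powerset.filter
    (fun K => (∀ e ∈ K, lt2 a (pos e) ∧ lt2 (pos e) b) ∧ IsCh pos K)).sup Finset.card

variable {pos}

lemma le_L {D K : Finset E} {a b : ℕ × ℕ} (hK : K ⊆ D)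
    (h1 : ∀ e ∈ K, lt2 a (pos e) ∧ lt2 (pos e) b) (h2 : IsCh pos K) : K.card ≤ L pos D a b := by
  classical
  unfold L
  apply le_sup (f := Finset.card)
  rw [mem_filter, mem_powerset]
  exact ⟨hK, h1, h2⟩

lemma exists_L (D : Finset E) (a b : ℕ × ℕ) : ∃ K ⊆ D,
    (∀ e ∈ K, lt2 a (pos e) ∧ lt2 (pos e) b) ∧ IsCh pos K ∧ K.card = L pos D a b := by
  classical
  have hne : (D.powerset.filter
    (fun K => (∀ e ∈ K, lt2 a (pos e) ∧ lt2 (pos e) b) ∧ IsCh pos K)).Nonempty := by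
    refine ⟨∅, ?_⟩
    rw [mem_filter]
    refine ⟨by simp, by simp, ?_⟩
    intro e he
    simp at he
  obtain ⟨K, hK, hK2⟩ := exists_mem_eq_sup _ hne Finset.card
  rw [mem_filter, mem_powerset] at hK
  exact ⟨K, hK.1, hK.2.1, hK.2.2, hK2.symm⟩

lemma L_mono {D D' : Finset E} {a a' b b' : ℕ × ℕ} (hD : D ⊆ D') (ha : le2 a' a) (hb : le2 b b') :
    L pos D a b ≤ L pos D' a' b' := by
  obtain ⟨K, hK, h1, h2, h3⟩ := exists_L (pos := pos) D a b
  rw [← h3]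
  exact le_L (hK.trans hD) (fun e he => ⟨lt2_of_le2_of_lt2 ha (h1 e he).1,
    lt2_of_lt2_of_le2 (h1 e he).2 hb⟩) h2

lemma L_insert_left {D : Finset E} {a b : ℕ × ℕ} {e : E} (h1 : lt2 a (pos e))
    (h2 : lt2 (pos e) b) : L pos D (pos e) b + 1 ≤ L pos (insert e D) a b := by
  obtain ⟨K, hK, k1, k2, k3⟩ := exists_L (pos := pos) D (pos e) b
  have heK : e ∉ K := fun h => lt2_irrefl _ (k1 e h).1
  rw [← k3, ← card_insert_of_notMem heK]
  apply le_L (insert_subset_insert e hK)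
  · intro f hf
    rcases mem_insert.1 hf with rfl | hf
    · exact ⟨h1, h2⟩
    · exact ⟨h1.trans (k1 f hf).1, (k1 f hf).2⟩
  · intro f hf g hg hfg
    rcases mem_insert.1 hf with hfe | hf' <;> rcases mem_insert.1 hg with hge | hg'
    · exact absurd (hfe.trans hge.symm) hfg
    · rw [hfe]; exact Or.inl (k1 g hg').1
    · rw [hge]; exact Or.inr (k1 f hf').1
    · exact k2 f hf' g hg' hfg

lemma L_insert_right {D : Finset E} {a b : ℕ × ℕ} {e : E} (h1 : lt2 a (pos e))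
    (h2 : lt2 (pos e) b) : L pos D a (pos e) + 1 ≤ L pos (insert e D) a b := by
  obtain ⟨K, hK, k1, k2, k3⟩ := exists_L (pos := pos) D a (pos e)
  have heK : e ∉ K := fun h => lt2_irrefl _ (k1 e h).2
  rw [← k3, ← card_insert_of_notMem heK]
  apply le_L (insert_subset_insert e hK)
  · intro f hf
    rcases mem_insert.1 hf with rfl | hf
    · exact ⟨h1, h2⟩
    · exact ⟨(k1 f hf).1, (k1 f hf).2.trans h2⟩
  · intro f hf g hg hfg
    rcases mem_insert.1 hf with hfe | hf' <;> rcases mem_insert.1 hg with hge | hg'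
    · exact absurd (hfe.trans hge.symm) hfg
    · rw [hfe]; exact Or.inr (k1 g hg').2
    · rw [hge]; exact Or.inl (k1 f hf').2
    · exact k2 f hf' g hg' hfg

lemma L_filter (D : Finset E) (a b : ℕ × ℕ) (P : E → Prop) [DecidablePred P]
    (hP : ∀ e, lt2 a (pos e) → lt2 (pos e) b → P e) :
    L pos (D.filter P) a b = L pos D a b := by
  apply le_antisymm
  · exact L_mono (filter_subset _ _) (le2_refl _) (le2_refl _)
  · obtain ⟨K, hK, k1, k2, k3⟩ := exists_L (pos := pos) D a b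
    rw [← k3]
    apply le_L _ k1 k2
    intro e he
    rw [mem_filter]
    exact ⟨hK he, hP e (k1 e he).1 (k1 e he).2⟩

lemma L_eq_zero {D : Finset E} {a b : ℕ × ℕ} (h : b.1 ≤ a.1 + 1 ∨ b.2 ≤ a.2 + 1) :
    L pos D a b = 0 := by
  obtain ⟨K, hK, k1, k2, k3⟩ := exists_L (pos := pos) D a b
  rw [← k3, card_eq_zero, eq_empty_iff_forall_notMem]
  intro e he
  obtain ⟨⟨h1, h2⟩, ⟨h3, h4⟩⟩ := k1 e he
  omega

end Pool.Agent.Work.MP_465a95_pr
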