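import Mathlib

/-!
Definitions for the problem on the maximal flow in oriented bond percolation.
-/

open Filter Topology

namespace Pool.Agent.Work.MP_465a95_pr

/-- An oriented edge of the square lattice: `(x, y, false)` is the edge from `(x, y)` to
`(x + 1, y)` and `(x, y, true)` is the edge from `(x, y)` to `(x, y + 1)`. -/
abbrev Edge : Type := ℕ × ℕ × Bool

/-- Starting vertex of an edge. -/
def src (e : Edge) : ℕ × ℕ := (e.1, e.2.1)

/-- End vertex of an edge. -/
def tgt (e : Edge) : ℕ × ℕ := if e.2.2 then (e.1, e.2.1 + 1) else (e.1 + 1, e.2.1)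

/-- The edges with both endpoints in `{0, ..., n-1}²`. -/
def edges (n : ℕ) : Finset Edge :=
  (Finset.range n ×ˢ Finset.range n ×ˢ (Finset.univ : Finset Bool)).filter
    fun e => (tgt e).1 < n ∧ (tgt e).2 < n

/-- The set `S = {(0,0), ..., (0,n-2)} ∪ {(1,0), ..., (n-2,0)}`. -/
def InS (n : ℕ) (v : ℕ × ℕ) : Prop :=
  (v.1 = 0 ∧ v.2 ≤ n - 2) ∨ (v.2 = 0 ∧ 1 ≤ v.1 ∧ v.1 ≤ n - 2)

/-- The set `T = {(0,n-1), ..., (n-1,n-1)} ∪ {(n-1,n-2), ..., (n-1,0)}`. -/
def InT (n : ℕ) (v : ℕ × ℕ) : Prop :=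
  (v.2 = n - 1 ∧ v.1 ≤ n - 1) ∨ (v.1 = n - 1 ∧ v.2 ≤ n - 2)

/-- `l` is (the list of edges of) an oriented path in `{0, ..., n-1}²` that avoids the set `C` of
closed edges, begins at a vertex of `S` and ends at a vertex of `T`. -/
def IsOpenPath (n : ℕ) (C : Finset Edge) (l : List Edge) : Prop :=
  (∀ e ∈ l, e ∈ edges n ∧ e ∉ C) ∧ l.IsChain (fun e f => tgt e = src f) ∧
    (∃ e, l.head? = some e ∧ InS n (src e)) ∧ (∃ e, l.getLast? = some e ∧ InT n (tgt e))

/-- `V(n, p)` as a function of the set `C` of closed edges: the largest number of pairwise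
edge-disjoint open oriented paths from `S` to `T`. -/
noncomputable def V (n : ℕ) (C : Finset Edge) : ℕ :=
  sSup {k : ℕ | ∃ P : Fin k → List Edge, (∀ i, IsOpenPath n C (P i)) ∧
    ∀ i j, i ≠ j → (P i).Disjoint (P j)}

/-- Expectation of a function of the set `C` of closed edges, when each edge of `{0, ..., n-1}²`
is independently open with probability `p` and closed with probability `1 - p`. -/
noncomputable def expect (n : ℕ) (p : ℝ) (F : Finset Edge → ℝ) : ℝ :=
  ∑ C ∈ (edges n).powerset, (1 - p) ^ C.card * p ^ (edges n \ C).card * F C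

/-- `v` is the flow constant: `V(n, p) / (2n) → v(p)` in `L¹` for every `0 < p < 1`. -/
def IsFlowConstant (v : ℝ → ℝ) : Prop :=
  ∀ p : ℝ, 0 < p → p < 1 →
    Tendsto (fun n : ℕ => expect n p (fun C => |(V n C : ℝ) / (2 * n) - v p|)) atTop (𝓝 0)

end Pool.Agent.Work.MP_465a95_pr
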