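import Mathlib

/-!
Expectation over a random subset of a finite set in which every element is included
independently with the same probability.
-/

open Finset

namespace Pool.Agent.Work.MP_465a95_pr

variable {E : Type*} [DecidableEq E]

/-- Expectation over a random subset `C` of `U`, each element being included independently with
probability `ε`. -/
noncomputable def Ex (ε : ℝ) (U : Finset E) (F : Finset E → ℝ) : ℝ :=
  ∑ C ∈ U.powerset, ε ^ C.card * (1 - ε) ^ (U \ C).card * F C

lemma Ex_empty (ε : ℝ) (F : Finset E → ℝ) : Ex ε ∅ F = F ∅ := by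
  simp [Ex]

lemma Ex_insert (ε : ℝ) {U : Finset E} {e : E} (he : e ∉ U) (F : Finset E → ℝ) :
    Ex ε (insert e U) F = ε * Ex ε U (fun C => F (insert e C)) + (1 - ε) * Ex ε U F := by
  unfold Ex
  rw [sum_powerset_insert he, add_comm, mul_sum, mul_sum]
  congr 1
  · apply sum_congr rfl
    intro C hC
    rw [mem_powerset] at hC
    have h1 : e ∉ C := fun h => he (hC h)
    have h2 : insert e U \ insert e C = U \ C := by
      ext x
      simp only [mem_sdiff, mem_insert, not_or]
      constructor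
      · rintro ⟨h3 | h3, h4, h5⟩
        · exact absurd h3 h4
        · exact ⟨h3, h5⟩
      · rintro ⟨h3, h4⟩
        exact ⟨Or.inr h3, fun h => he (h ▸ h3), h4⟩
    rw [card_insert_of_notMem h1, h2, pow_succ]
    ring
  · apply sum_congr rfl
    intro C hC
    rw [mem_powerset] at hC
    have h1 : e ∉ C := fun h => he (hC h)
    have h2 : insert e U \ C = insert e (U \ C) := by
      rw [insert_sdiff_of_notMem _ h1]
    have h3 : e ∉ U \ C := fun h => he (mem_sdiff.1 h).1
    rw [h2, card_insert_of_notMem h3, pow_succ]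
    ring

lemma Ex_congr {ε : ℝ} {U : Finset E} {F G : Finset E → ℝ} (h : ∀ C ⊆ U, F C = G C) :
    Ex ε U F = Ex ε U G := by
  unfold Ex
  apply sum_congr rfl
  intro C hC
  rw [h C (mem_powerset.1 hC)]

lemma Ex_add (ε : ℝ) (U : Finset E) (F G : Finset E → ℝ) :
    Ex ε U (fun C => F C + G C) = Ex ε U F + Ex ε U G := by
  unfold Ex
  rw [← sum_add_distrib]
  apply sum_congr rfl
  intro C _
  ring

lemma Ex_mul_left (ε : ℝ) (U : Finset E) (F : Finset E → ℝ) (c : ℝ) :
    Ex ε U (fun C => c * F C) = c * Ex ε U F := by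
  unfold Ex
  rw [mul_sum]
  apply sum_congr rfl
  intro C _
  ring

lemma Ex_mul_right (ε : ℝ) (U : Finset E) (F : Finset E → ℝ) (c : ℝ) :
    Ex ε U (fun C => F C * c) = Ex ε U F * c := by
  unfold Ex
  rw [sum_mul]
  apply sum_congr rfl
  intro C _
  ring

lemma Ex_sum {ι : Type*} (ε : ℝ) (U : Finset E) (s : Finset ι) (F : ι → Finset E → ℝ) :
    Ex ε U (fun C => ∑ i ∈ s, F i C) = ∑ i ∈ s, Ex ε U (F i) := by
  unfold Ex
  rw [sum_comm]
  apply sum_congr rfl
  intro C _
  rw [mul_sum]

lemma Ex_const (ε : ℝ) (U : Finset E) (c : ℝ) : Ex ε U (fun _ => c) = c := by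
  induction U using Finset.induction_on with
  | empty => exact Ex_empty _ _
  | insert e U he ih => rw [Ex_insert ε he, ih]; ring

lemma Ex_mono {ε : ℝ} (h0 : 0 ≤ ε) (h1 : ε ≤ 1) {U : Finset E} {F G : Finset E → ℝ}
    (h : ∀ C ⊆ U, F C ≤ G C) : Ex ε U F ≤ Ex ε U G := by
  unfold Ex
  apply sum_le_sum
  intro C hC
  have h2 : 0 ≤ 1 - ε := by linarith
  exact mul_le_mul_of_nonneg_left (h C (mem_powerset.1 hC)) (by positivity)

lemma Ex_nonneg {ε : ℝ} (h0 : 0 ≤ ε) (h1 : ε ≤ 1) {U : Finset E} {F : Finset E → ℝ}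
    (h : ∀ C ⊆ U, 0 ≤ F C) : 0 ≤ Ex ε U F := by
  have := Ex_mono h0 h1 (F := fun _ => (0 : ℝ)) (G := F) h
  rwa [Ex_const] at this

/-- Fubini. -/
lemma Ex_union (ε : ℝ) {A B : Finset E} (hAB : Disjoint A B) (F : Finset E → ℝ) :
    Ex ε (A ∪ B) F = Ex ε A (fun C1 => Ex ε B (fun C2 => F (C1 ∪ C2))) := by
  induction A using Finset.induction_on generalizing F with
  | empty => rw [Ex_empty]; simp
  | insert e A he ih =>
    rw [disjoint_insert_left] at hAB
    have h1 : e ∉ A ∪ B := by
      rw [mem_union, not_or]; exact ⟨he, hAB.1⟩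
    rw [insert_union, Ex_insert ε h1, Ex_insert ε he, ih hAB.2, ih hAB.2]
    congr 2
    apply Ex_congr
    intro C1 _
    apply Ex_congr
    intro C2 _
    rw [insert_union]

lemma Ex_comm {E' : Type*} [DecidableEq E'] (ε ε' : ℝ) (A : Finset E) (B : Finset E')
    (F : Finset E → Finset E' → ℝ) :
    Ex ε A (fun C1 => Ex ε' B (fun C2 => F C1 C2)) =
      Ex ε' B (fun C2 => Ex ε A (fun C1 => F C1 C2)) := by
  unfold Ex
  simp_rw [mul_sum]
  rw [sum_comm]
  apply sum_congr rfl
  intro C2 _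
  apply sum_congr rfl
  intro C1 _
  ring

/-- A function of the part of the random set satisfying `P`. -/
lemma Ex_filter (ε : ℝ) (U : Finset E) (P : E → Prop) [DecidablePred P] (F : Finset E → ℝ) :
    Ex ε U (fun C => F (C.filter P)) = Ex ε (U.filter P) F := by
  have hU : U = U.filter P ∪ U.filter (fun e => ¬ P e) := (filter_union_filter_not_eq P U).symm
  have hd : Disjoint (U.filter P) (U.filter (fun e => ¬ P e)) := disjoint_filter_filter_not _ _ _
  conv_lhs => rw [hU]
  rw [Ex_union ε hd]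
  apply Ex_congr
  intro C1 hC1
  have : ∀ C2 ⊆ U.filter (fun e => ¬ P e), F ((C1 ∪ C2).filter P) = F C1 := by
    intro C2 hC2
    congr 1
    ext x
    simp only [mem_filter, mem_union]
    constructor
    · rintro ⟨h | h, hP⟩
      · exact h
      · exact absurd hP (mem_filter.1 (hC2 h)).2
    · intro h
      exact ⟨Or.inl h, (mem_filter.1 (hC1 h)).2⟩
  rw [Ex_congr this, Ex_const]

/-- Independence. -/
lemma Ex_indep (ε : ℝ) (U : Finset E) (P Q : E → Prop) [DecidablePred P] [DecidablePred Q]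
    (hPQ : ∀ e, P e → ¬ Q e) (F G : Finset E → ℝ) :
    Ex ε U (fun C => F (C.filter P) * G (C.filter Q)) =
      Ex ε U (fun C => F (C.filter P)) * Ex ε U (fun C => G (C.filter Q)) := by
  have hU : U = U.filter P ∪ U.filter (fun e => ¬ P e) := (filter_union_filter_not_eq P U).symm
  have hd : Disjoint (U.filter P) (U.filter (fun e => ¬ P e)) := disjoint_filter_filter_not _ _ _
  have e1 : ∀ C1 ⊆ U.filter P, ∀ C2 ⊆ U.filter (fun e => ¬ P e), (C1 ∪ C2).filter P = C1 := by
    intro C1 hC1 C2 hC2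
    ext x
    simp only [mem_filter, mem_union]
    constructor
    · rintro ⟨h | h, hP⟩
      · exact h
      · exact absurd hP (mem_filter.1 (hC2 h)).2
    · intro h
      exact ⟨Or.inl h, (mem_filter.1 (hC1 h)).2⟩
  have e2 : ∀ C1 ⊆ U.filter P, ∀ C2 : Finset E, (C1 ∪ C2).filter Q = C2.filter Q := by
    intro C1 hC1 C2
    ext x
    simp only [mem_filter, mem_union]
    constructor
    · rintro ⟨h | h, hQ⟩
      · exact absurd hQ (hPQ x (mem_filter.1 (hC1 h)).2)
      · exact ⟨h, hQ⟩
    · rintro ⟨h, hQ⟩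
      exact ⟨Or.inr h, hQ⟩
  have l1 : Ex ε U (fun C => F (C.filter P) * G (C.filter Q)) =
      Ex ε (U.filter P) F * Ex ε (U.filter (fun e => ¬ P e)) (fun C => G (C.filter Q)) := by
    conv_lhs => rw [hU]
    rw [Ex_union ε hd, ← Ex_mul_right]
    apply Ex_congr
    intro C1 hC1
    rw [← Ex_mul_left]
    apply Ex_congr
    intro C2 hC2
    rw [e1 C1 hC1 C2 hC2, e2 C1 hC1]
  have l2 : Ex ε U (fun C => G (C.filter Q)) =
      Ex ε (U.filter (fun e => ¬ P e)) (fun C => G (C.filter Q)) := by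
    conv_lhs => rw [hU]
    rw [Ex_union ε hd]
    have : ∀ C1 ⊆ U.filter P, Ex ε (U.filter (fun e => ¬ P e)) (fun C2 => G ((C1 ∪ C2).filter Q)) =
        Ex ε (U.filter (fun e => ¬ P e)) (fun C => G (C.filter Q)) := by
      intro C1 hC1
      apply Ex_congr
      intro C2 _
      rw [e2 C1 hC1]
    rw [Ex_congr this, Ex_const]
  rw [l1, Ex_filter ε U P F, l2]

/-- Monotone functions have larger expectation on larger sets. -/
lemma Ex_subset_le {ε : ℝ} (h0 : 0 ≤ ε) (h1 : ε ≤ 1) {U U' : Finset E} (hU : U ⊆ U')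
    {F : Finset E → ℝ} (hF : ∀ C1 C2, C1 ⊆ C2 → F C1 ≤ F C2) : Ex ε U F ≤ Ex ε U' F := by
  have hU' : U' = U ∪ (U' \ U) := (union_sdiff_of_subset hU).symm
  rw [hU', Ex_union ε disjoint_sdiff]
  apply Ex_mono h0 h1
  intro C1 _
  have := Ex_mono h0 h1 (U := U' \ U) (F := fun _ => F C1) (G := fun C2 => F (C1 ∪ C2))
    (fun C2 _ => hF _ _ subset_union_left)
  rwa [Ex_const] at this

/-- Explicit elements. -/
lemma Ex_explicit (ε : ℝ) {U Z : Finset E} (hZ : Z ⊆ U) (F : Finset E → ℝ) :
    Ex ε U (fun C => if Z ⊆ C then F (C \ Z) else 0) = ε ^ Z.card * Ex ε (U \ Z) F := by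
  have hU : U = Z ∪ (U \ Z) := (union_sdiff_of_subset hZ).symm
  conv_lhs => rw [hU]
  rw [Ex_union ε disjoint_sdiff]
  conv_lhs => unfold Ex
  rw [sum_eq_single Z]
  · rw [sdiff_self, bot_eq_empty, card_empty, pow_zero, mul_one]
    congr 1
    change Ex ε (U \ Z) _ = _
    apply Ex_congr
    intro C2 hC2
    rw [if_pos subset_union_left]
    congr 1
    rw [union_sdiff_left]
    apply sdiff_eq_self_of_disjoint
    exact (disjoint_of_subset_left hC2 sdiff_disjoint)
  · intro C1 hC1 hne
    rw [mem_powerset] at hC1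
    have h2 : ∑ C ∈ (U \ Z).powerset, ε ^ C.card * (1 - ε) ^ ((U \ Z) \ C).card *
        (if Z ⊆ C1 ∪ C then F ((C1 ∪ C) \ Z) else 0) = 0 := by
      apply sum_eq_zero
      intro C2 hC2
      rw [mem_powerset] at hC2
      rw [if_neg, mul_zero]
      intro h
      apply hne
      apply subset_antisymm hC1
      intro x hx
      rcases mem_union.1 (h hx) with h3 | h3
      · exact h3
      · exact absurd hx (mem_sdiff.1 (hC2 h3)).2
    beta_reduce
    rw [h2, mul_zero]
  · intro h
    exact absurd (mem_powerset_self Z) h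

/-- Change of variables along an injective map. -/
lemma Ex_image {E' : Type*} [DecidableEq E'] (ε : ℝ) {U : Finset E} (φ : E → E')
    (hφ : Set.InjOn φ U) (F : Finset E' → ℝ) :
    Ex ε (U.image φ) F = Ex ε U (fun C => F (C.image φ)) := by
  induction U using Finset.induction_on generalizing F with
  | empty => simp [Ex_empty]
  | insert e U he ih =>
    have h1 : φ e ∉ U.image φ := by
      rw [mem_image]
      rintro ⟨x, hx, hxe⟩
      have : x = e := hφ (mem_coe.2 (mem_insert_of_mem hx)) (mem_coe.2 (mem_insert_self e U)) hxe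
      exact he (this ▸ hx)
    have h2 : Set.InjOn φ U := hφ.mono (by simp)
    rw [image_insert, Ex_insert ε h1, Ex_insert ε he, ih h2, ih h2]
    simp only [image_insert]

end Pool.Agent.Work.MP_465a95_pr
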