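import Mathlib
import Pool.Agent.Work.MP_465a95_pr.Defs
import Pool.Agent.Work.MP_465a95_pr.Ex
import Pool.Agent.Work.MP_465a95_pr.Chain
import Pool.Agent.Work.MP_465a95_pr.Burke

/-!
From random sets of edges to the discrete Hammersley process.
-/

open Finset

namespace Pool.Agent.Work.MP_465a95_pr

/-- The mark of a vertex: at least one of its two outgoing edges is in `C`. -/
def mk (C : Finset Edge) (x y : ℕ) : Bool := decide ((x, y, false) ∈ C ∨ (x, y, true) ∈ C)

lemma mk_union (C1 C2 : Finset Edge) (x y : ℕ) : mk (C1 ∪ C2) x y = (mk C1 x y || mk C2 x y) := by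
  unfold mk
  simp only [mem_union, ← Bool.decide_or]
  congr 1
  apply propext
  tauto

/-- The box of all edges with starting point in `[x0, x0 + m) × [y0, y0 + k)`. -/
def box (x0 y0 m k : ℕ) : Finset Edge :=
  Ico x0 (x0 + m) ×ˢ Ico y0 (y0 + k) ×ˢ (univ : Finset Bool)

lemma mem_box {x0 y0 m k : ℕ} {e : Edge} : e ∈ box x0 y0 m k ↔
    (x0 ≤ e.1 ∧ e.1 < x0 + m) ∧ (y0 ≤ e.2.1 ∧ e.2.1 < y0 + k) := by
  simp [box]

lemma mk_eq_false {C : Finset Edge} {x y x0 y0 m k : ℕ} (hC : C ⊆ box x0 y0 m k)
    (h : ¬ ((x0 ≤ x ∧ x < x0 + m) ∧ (y0 ≤ y ∧ y < y0 + k))) : mk C x y = false := by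
  unfold mk
  rw [decide_eq_false_iff_not]
  rintro (h1 | h1)
  · exact h (mem_box.1 (hC h1))
  · exact h (mem_box.1 (hC h1))

lemma cell_link (ε : ℝ) (x y : ℕ) (G : Bool → ℝ) :
    Ex ε (box x y 1 1) (fun C => G (mk C x y)) = EB (2 * ε - ε ^ 2) G := by
  have hb : box x y 1 1 = insert (x, y, false) (insert (x, y, true) ∅) := by
    ext ⟨a, b, c⟩
    rw [mem_box]
    simp only [mem_insert, Prod.mk.injEq, notMem_empty, or_false]
    cases c <;> simp <;> omega
  rw [hb, Ex_insert, Ex_insert, Ex_insert, Ex_empty, Ex_empty, Ex_empty, Ex_empty]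
  · unfold EB mk
    simp
    ring
  · simp
  · simp
  · simp

lemma col_link (ε : ℝ) (x : ℕ) (k : ℕ) : ∀ (y0 : ℕ) (F : (ℕ → Bool) → ℝ),
    Ex ε (box x y0 1 k) (fun C => F (fun j => mk C x (y0 + j))) = EF (2 * ε - ε ^ 2) k F := by
  induction k with
  | zero =>
    intro y0 F
    have hb : box x y0 1 0 = ∅ := by
      ext e; rw [mem_box]; simp
    rw [hb, Ex_empty]
    simp only [EF]
    congr 1
  | succ k ih =>
    intro y0 F
    have hb : box x y0 1 (k + 1) = box x y0 1 1 ∪ box x (y0 + 1) 1 k := by
      ext e; rw [mem_union, mem_box, mem_box, mem_box]; omega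
    have hd : Disjoint (box x y0 1 1) (box x (y0 + 1) 1 k) := by
      rw [disjoint_left]
      intro e h1 h2
      rw [mem_box] at h1 h2
      omega
    rw [hb, Ex_union ε hd]
    simp only [EF]
    rw [← cell_link ε x y0]
    apply Ex_congr
    intro C1 hC1
    rw [← ih (y0 + 1)]
    apply Ex_congr
    intro C2 hC2
    congr 1
    funext j
    rw [mk_union]
    cases j with
    | zero =>
      rw [mk_eq_false hC2 (by omega), Bool.or_false]; rfl
    | succ j =>
      rw [mk_eq_false hC1 (by omega), Bool.false_or]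
      simp only [sc]
      congr 1
      omega

lemma box_link (ε : ℝ) (y0 k : ℕ) (m : ℕ) : ∀ (x0 : ℕ) (F : (ℕ → ℕ → Bool) → ℝ),
    Ex ε (box x0 y0 m k) (fun C => F (fun i j => mk C (x0 + i) (y0 + j))) =
      EF2 (2 * ε - ε ^ 2) k m F := by
  induction m with
  | zero =>
    intro x0 F
    have hb : box x0 y0 0 k = ∅ := by
      ext e; rw [mem_box]; simp
    rw [hb, Ex_empty]
    simp only [EF2]
    congr 1
  | succ m ih =>
    intro x0 F
    have hb : box x0 y0 (m + 1) k = box x0 y0 1 k ∪ box (x0 + 1) y0 m k := by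
      ext e; rw [mem_union, mem_box, mem_box, mem_box]; omega
    have hd : Disjoint (box x0 y0 1 k) (box (x0 + 1) y0 m k) := by
      rw [disjoint_left]
      intro e h1 h2
      rw [mem_box] at h1 h2
      omega
    rw [hb, Ex_union ε hd]
    simp only [EF2]
    rw [← col_link ε x0 k y0]
    apply Ex_congr
    intro C1 hC1
    rw [← ih (x0 + 1)]
    apply Ex_congr
    intro C2 hC2
    congr 1
    funext i j
    rw [mk_union]
    cases i with
    | zero =>
      rw [mk_eq_false hC2 (by omega), Bool.or_false]; rfl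
    | succ i =>
      rw [mk_eq_false hC1 (by omega), Bool.false_or]
      simp only [sc]
      congr 1
      omega

/-- The longest chain is dominated by the height function. -/
lemma L_le_gh (C : Finset Edge) (x0 y0 : ℕ) (I J : ℕ → Bool) (i : ℕ) : ∀ j : ℕ,
    L src C (x0, y0) (x0 + 1 + i, y0 + 1 + j) ≤
      gh I J (fun i j => mk C (x0 + 1 + i) (y0 + 1 + j)) i j := by
  induction i using Nat.strong_induction_on with
  | _ i ih =>
    intro j
    set w : ℕ → ℕ → Bool := fun i j => mk C (x0 + 1 + i) (y0 + 1 + j) with hw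
    obtain ⟨K, hK, k1, k2, k3⟩ := exists_L (pos := src) C (x0, y0) (x0 + 1 + i, y0 + 1 + j)
    rw [← k3]
    rcases K.eq_empty_or_nonempty with rfl | hne
    · simp
    obtain ⟨e, he, hmax⟩ := exists_max_image K (fun e => (src e).1) hne
    have hlt : ∀ f ∈ K.erase e, lt2 (src f) (src e) := by
      intro f hf
      rw [mem_erase] at hf
      rcases k2 f hf.2 e he hf.1 with h | h
      · exact h
      · exact absurd h.1 (not_lt.2 (hmax f hf.2))
    obtain ⟨⟨a1, a2⟩, ⟨a3, a4⟩⟩ := k1 e he
    simp only at a1 a2 a3 a4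
    obtain ⟨i', hi'⟩ : ∃ i', (src e).1 = x0 + 1 + i' := ⟨(src e).1 - (x0 + 1), by omega⟩
    obtain ⟨j', hj'⟩ : ∃ j', (src e).2 = y0 + 1 + j' := ⟨(src e).2 - (y0 + 1), by omega⟩
    have hii : i' < i := by omega
    have hjj : j' < j := by omega
    have h1 : (K.erase e).card ≤ L src C (x0, y0) (x0 + 1 + i', y0 + 1 + j') := by
      apply le_L ((erase_subset _ _).trans hK)
      · intro f hf
        refine ⟨(k1 f (mem_of_mem_erase hf)).1, ?_⟩
        have := hlt f hf
        unfold lt2 at this ⊢
        rw [hi', hj'] at this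
        exact this
      · intro f hf g hg hfg
        exact k2 f (mem_of_mem_erase hf) g (mem_of_mem_erase hg) hfg
    have h2 := ih i' hii j'
    have hmark : w i' j' = true := by
      simp only [hw, mk, decide_eq_true_eq]
      have heC := hK he
      obtain ⟨a, b, c⟩ := e
      simp only [src] at hi' hj'
      subst hi' hj'
      cases c
      · exact Or.inl heC
      · exact Or.inr heC
    have h3 := gh_diag I J w i' j'
    rw [hmark] at h3
    have h4 : gh I J w (i' + 1) (j' + 1) ≤ gh I J w i j := gh_mono I J w hii hjj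
    have h5 : K.card = (K.erase e).card + 1 := (card_erase_add_one he).symm
    simp only [Bool.toNat_true] at h3
    omega

/-- Exit point decomposition. -/
lemma gh_exit (C : Finset Edge) (x0 y0 : ℕ) (I J : ℕ → Bool) (N : ℕ) : ∀ i j : ℕ, i + j ≤ N →
    (∃ k ≤ i, gh I J (fun i j => mk C (x0 + 1 + i) (y0 + 1 + j)) i j ≤
      ∑ i' ∈ range k, (I i').toNat + L src C (x0 + k, y0) (x0 + 1 + i, y0 + 1 + j)) ∨
    (∃ l ≤ j, gh I J (fun i j => mk C (x0 + 1 + i) (y0 + 1 + j)) i j ≤
      ∑ j' ∈ range l, (J j').toNat + L src C (x0, y0 + l) (x0 + 1 + i, y0 + 1 + j)) := by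
  set w : ℕ → ℕ → Bool := fun i j => mk C (x0 + 1 + i) (y0 + 1 + j) with hw
  induction N with
  | zero =>
    intro i j hij
    have hi : i = 0 := by omega
    have hj : j = 0 := by omega
    subst hi hj
    left
    refine ⟨0, le_rfl, ?_⟩
    rw [gh_zero_right]
    omega
  | succ N ih =>
    intro i j hij
    cases i with
    | zero =>
      right
      refine ⟨j, le_rfl, ?_⟩
      rw [gh_zero_left]
      omega
    | succ i =>
      cases j with
      | zero =>
        left
        refine ⟨i + 1, le_rfl, ?_⟩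
        rw [gh_zero_right]
        omega
      | succ j =>
        have hm1 : ∀ a : ℕ × ℕ, L src C a (x0 + 1 + (i + 1), y0 + 1 + j) ≤
            L src C a (x0 + 1 + (i + 1), y0 + 1 + (j + 1)) := fun a =>
          L_mono subset_rfl (le2_refl _) ⟨le_rfl, by simp⟩
        have hm2 : ∀ a : ℕ × ℕ, L src C a (x0 + 1 + i, y0 + 1 + (j + 1)) ≤
            L src C a (x0 + 1 + (i + 1), y0 + 1 + (j + 1)) := fun a =>
          L_mono subset_rfl (le2_refl _) ⟨by simp, le_rfl⟩
        rcases gh_upper I J w i j with h | h | ⟨hmark, h⟩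
        · rcases ih (i + 1) j (by omega) with ⟨k, hk, hk2⟩ | ⟨l, hl, hl2⟩
          · left
            refine ⟨k, hk, ?_⟩
            have := hm1 (x0 + k, y0)
            omega
          · right
            refine ⟨l, by omega, ?_⟩
            have := hm1 (x0, y0 + l)
            omega
        · rcases ih i (j + 1) (by omega) with ⟨k, hk, hk2⟩ | ⟨l, hl, hl2⟩
          · left
            refine ⟨k, by omega, ?_⟩
            have := hm2 (x0 + k, y0)
            omega
          · right
            refine ⟨l, hl, ?_⟩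
            have := hm2 (x0, y0 + l)
            omega
        · -- a marked vertex
          obtain ⟨e, heC, hes⟩ : ∃ e ∈ C, src e = (x0 + 1 + i, y0 + 1 + j) := by
            simp only [hw, mk, decide_eq_true_eq] at hmark
            rcases hmark with h1 | h1
            · exact ⟨_, h1, rfl⟩
            · exact ⟨_, h1, rfl⟩
          have hB : lt2 (src e) (x0 + 1 + (i + 1), y0 + 1 + (j + 1)) := by
            rw [hes]; exact ⟨by simp, by simp⟩
          rcases ih i j (by omega) with ⟨k, hk, hk2⟩ | ⟨l, hl, hl2⟩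
          · left
            refine ⟨k, by omega, ?_⟩
            have h1 : lt2 (x0 + k, y0) (src e) := by
              rw [hes]; constructor <;> simp <;> omega
            have h2 := L_insert_right (D := C) h1 hB
            rw [insert_eq_of_mem heC, hes] at h2
            omega
          · right
            refine ⟨l, by omega, ?_⟩
            have h1 : lt2 (x0, y0 + l) (src e) := by
              rw [hes]; constructor <;> simp <;> omega
            have h2 := L_insert_right (D := C) h1 hB
            rw [insert_eq_of_mem heC, hes] at h2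
            omega

end Pool.Agent.Work.MP_465a95_pr
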