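import Mathlib
import Pool.Agent.Work.MP_465a95_pr.Link

/-!
Exponential moments of longest chains.
-/

open Finset

namespace Pool.Agent.Work.MP_465a95_pr

lemma sum_sc_toNat (b : Bool) (f : ℕ → Bool) (k : ℕ) :
    ∑ i ∈ range (k + 1), (sc b f i).toNat = b.toNat + ∑ i ∈ range k, (f i).toNat := by
  rw [sum_range_succ', add_comm]
  rfl

lemma EF_exp (a t : ℝ) (k : ℕ) :
    EF a k (fun f => Real.exp (t * ((∑ i ∈ range k, (f i).toNat : ℕ) : ℝ))) =
      (1 + a * (Real.exp t - 1)) ^ k := by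
  induction k with
  | zero => simp [EF]
  | succ k ih =>
    simp only [EF]
    have e1 : ∀ b : Bool, EF a k (fun f => Real.exp (t * ((∑ i ∈ range (k + 1),
        (sc b f i).toNat : ℕ) : ℝ))) =
        Real.exp (t * (b.toNat : ℝ)) * (1 + a * (Real.exp t - 1)) ^ k := by
      intro b
      rw [← ih, ← EF_mul]
      congr 1
      funext f
      rw [sum_sc_toNat, ← Real.exp_add]
      congr 1
      push_cast
      ring
    simp only [e1]
    unfold EB
    simp
    ring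

lemma EF_exp_le {a t : ℝ} (h0 : 0 ≤ a) (ht : 0 ≤ t) (k : ℕ) :
    EF a k (fun f => Real.exp (t * ((∑ i ∈ range k, (f i).toNat : ℕ) : ℝ))) ≤
      Real.exp (a * (Real.exp t - 1) * k) := by
  rw [EF_exp]
  have h1 : 1 ≤ Real.exp t := Real.one_le_exp ht
  have h2 : 0 ≤ a * (Real.exp t - 1) := mul_nonneg h0 (by linarith)
  have h3 : 1 + a * (Real.exp t - 1) ≤ Real.exp (a * (Real.exp t - 1)) := by
    linarith [Real.add_one_le_exp (a * (Real.exp t - 1))]
  calc (1 + a * (Real.exp t - 1)) ^ k ≤ Real.exp (a * (Real.exp t - 1)) ^ k :=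
        pow_le_pow_left₀ (by linarith) h3 k
    _ = _ := by rw [← Real.exp_nat_mul]; congr 1; ring

/-- Exponential moment of the stationary height function. -/
lemma stat_moment {α β q θ : ℝ} (hα0 : 0 ≤ α) (hα1 : α ≤ 1) (hβ0 : 0 ≤ β) (hβ1 : β ≤ 1)
    (hq0 : 0 ≤ q) (hq1 : q ≤ 1) (h : α * β = (1 - α) * (1 - β) * q) (hθ : 0 ≤ θ) (m k : ℕ) :
    EF α m (fun I => EF β k (fun J => EF2 q k m (fun w =>
      Real.exp (θ * gh I J w m k)))) ≤
      Real.exp ((Real.exp (2 * θ) - 1) / 2 * (α * m + β * k)) := by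
  set x : ℝ := Real.exp (2 * θ) - 1 with hx
  set c : ℝ := Real.exp ((β * k - α * m) * x / 2) with hc
  have hcpos : 0 < c := Real.exp_pos _
  have hpt : ∀ I J w, Real.exp (θ * gh I J w m k) ≤
      c / 2 * Real.exp (2 * θ * ((∑ i ∈ range m, (I i).toNat : ℕ) : ℝ)) +
      c⁻¹ / 2 * Real.exp (2 * θ * ((∑ j ∈ range k, (JJ I J w m j).toNat : ℕ) : ℝ)) := by
    intro I J w
    set X := Real.exp (θ * ((∑ i ∈ range m, (I i).toNat : ℕ) : ℝ)) with hX
    set Y := Real.exp (θ * ((∑ j ∈ range k, (JJ I J w m j).toNat : ℕ) : ℝ)) with hY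
    have e1 : Real.exp (θ * gh I J w m k) = X * Y := by
      rw [hX, hY, ← Real.exp_add]
      congr 1
      unfold gh
      push_cast
      ring
    have e2 : Real.exp (2 * θ * ((∑ i ∈ range m, (I i).toNat : ℕ) : ℝ)) = X ^ 2 := by
      rw [hX, ← Real.exp_nat_mul]; congr 1; push_cast; ring
    have e3 : Real.exp (2 * θ * ((∑ j ∈ range k, (JJ I J w m j).toNat : ℕ) : ℝ)) = Y ^ 2 := by
      rw [hY, ← Real.exp_nat_mul]; congr 1; push_cast; ring
    rw [e1, e2, e3]
    have h1 : 0 ≤ (c * X - Y) ^ 2 := sq_nonneg _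
    have h2 : c / 2 * X ^ 2 + c⁻¹ / 2 * Y ^ 2 - X * Y = (c * X - Y) ^ 2 / (2 * c) := by
      field_simp; ring
    have h3 : 0 ≤ (c * X - Y) ^ 2 / (2 * c) := by positivity
    linarith
  have step : EF α m (fun I => EF β k (fun J => EF2 q k m (fun w =>
      Real.exp (θ * gh I J w m k)))) ≤
      EF α m (fun I => EF β k (fun J => EF2 q k m (fun w =>
      c / 2 * Real.exp (2 * θ * ((∑ i ∈ range m, (I i).toNat : ℕ) : ℝ)) +
      c⁻¹ / 2 * Real.exp (2 * θ * ((∑ j ∈ range k, (JJ I J w m j).toNat : ℕ) : ℝ))))) :=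
    EF_mono hα0 hα1 m (fun I => EF_mono hβ0 hβ1 k (fun J => EF2_mono hq0 hq1 k m (hpt I J)))
  refine step.trans ?_
  simp only [EF2_add, EF_add, EF2_const, EF_const, EF2_mul, EF_mul]
  have r1 := right_law h k m (fun J =>
    Real.exp (2 * θ * ((∑ j ∈ range k, (J j).toNat : ℕ) : ℝ)))
  rw [r1]
  have b1 := EF_exp_le (t := 2 * θ) hα0 (by linarith) m
  have b2 := EF_exp_le (t := 2 * θ) hβ0 (by linarith) k
  rw [← hx] at b1 b2
  have e1 : c / 2 * Real.exp (α * x * m) = 1 / 2 * Real.exp (x / 2 * (α * m + β * k)) := by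
    have : Real.exp (x / 2 * (α * m + β * k)) = c * Real.exp (α * x * m) := by
      rw [hc, ← Real.exp_add]; congr 1; ring
    rw [this]; ring
  have e2 : c⁻¹ / 2 * Real.exp (β * x * k) = 1 / 2 * Real.exp (x / 2 * (α * m + β * k)) := by
    have : Real.exp (x / 2 * (α * m + β * k)) = c⁻¹ * Real.exp (β * x * k) := by
      rw [hc, ← Real.exp_neg, ← Real.exp_add]; congr 1; ring
    rw [this]; ring
  calc _ ≤ c / 2 * Real.exp (α * x * m) + c⁻¹ / 2 * Real.exp (β * x * k) := by gcongr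
    _ = _ := by rw [e1, e2]; ring

/-- Exponential moment of the longest chain. -/
theorem exp_moment {ε α β θ : ℝ} (hε0 : 0 ≤ ε) (hε1 : ε ≤ 1) (hα0 : 0 ≤ α) (hα1 : α ≤ 1)
    (hβ0 : 0 ≤ β) (hβ1 : β ≤ 1) (h : α * β = (1 - α) * (1 - β) * (2 * ε - ε ^ 2)) (hθ : 0 ≤ θ)
    (U : Finset Edge) (a b : ℕ × ℕ) :
    Ex ε U (fun C => Real.exp (θ * L src C a b)) ≤
      Real.exp ((Real.exp (2 * θ) - 1) / 2 *
        (α * ((b.1 - a.1 : ℕ) : ℝ) + β * ((b.2 - a.2 : ℕ) : ℝ))) := by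
  have hx : 0 ≤ (Real.exp (2 * θ) - 1) / 2 := by
    have := Real.one_le_exp (show 0 ≤ 2 * θ by linarith)
    linarith
  by_cases hdeg : b.1 ≤ a.1 + 1 ∨ b.2 ≤ a.2 + 1
  · have : ∀ C : Finset Edge, Real.exp (θ * L src C a b) = 1 := by
      intro C
      rw [L_eq_zero hdeg]; simp
    simp only [this]
    rw [Ex_const]
    apply Real.one_le_exp
    positivity
  · push Not at hdeg
    obtain ⟨m, hm⟩ : ∃ m, b.1 = a.1 + 1 + m := ⟨b.1 - (a.1 + 1), by omega⟩
    obtain ⟨k, hk⟩ : ∃ k, b.2 = a.2 + 1 + k := ⟨b.2 - (a.2 + 1), by omega⟩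
    have hq0 : 0 ≤ 2 * ε - ε ^ 2 := by nlinarith
    have hq1 : 2 * ε - ε ^ 2 ≤ 1 := by nlinarith [sq_nonneg (1 - ε)]
    have hab : b = (a.1 + 1 + m, a.2 + 1 + k) := Prod.ext hm hk
    have haa : a = (a.1, a.2) := rfl
    set f : Finset Edge → ℝ := fun C => Real.exp (θ * L src C a b) with hf
    have hfm : ∀ C1 C2, C1 ⊆ C2 → f C1 ≤ f C2 := by
      intro C1 C2 hC
      simp only [hf]
      have : L src C1 a b ≤ L src C2 a b := L_mono hC (le2_refl _) (le2_refl _)
      have h2 : (L src C1 a b : ℝ) ≤ L src C2 a b := by exact_mod_cast this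
      gcongr
    have e1 : Ex ε U f = Ex ε (U.filter (fun e => lt2 a (src e) ∧ lt2 (src e) b)) f := by
      rw [← Ex_filter]
      apply Ex_congr
      intro C _
      simp only [hf]
      rw [L_filter]
      exact fun e h1 h2 => ⟨h1, h2⟩
    have hsub : U.filter (fun e => lt2 a (src e) ∧ lt2 (src e) b) ⊆
        box (a.1 + 1) (a.2 + 1) m k := by
      intro e he
      rw [mem_filter] at he
      obtain ⟨_, ⟨h1, h2⟩, ⟨h3, h4⟩⟩ := he
      rw [mem_box]
      simp only [src] at h1 h2 h3 h4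
      omega
    rw [e1]
    refine (Ex_subset_le hε0 hε1 hsub hfm).trans ?_
    have hIJ : ∀ I J : ℕ → Bool, Ex ε (box (a.1 + 1) (a.2 + 1) m k) f ≤
        EF2 (2 * ε - ε ^ 2) k m (fun w => Real.exp (θ * gh I J w m k)) := by
      intro I J
      rw [← box_link]
      apply Ex_mono hε0 hε1
      intro C _
      simp only [hf]
      have h1 := L_le_gh C a.1 a.2 I J m k
      rw [← hab] at h1
      have h2 : (L src C a b : ℝ) ≤ gh I J (fun i j => mk C (a.1 + 1 + i) (a.2 + 1 + j)) m k := by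
        exact_mod_cast h1
      gcongr
    have havg : Ex ε (box (a.1 + 1) (a.2 + 1) m k) f ≤
        EF α m (fun I => EF β k (fun J => EF2 (2 * ε - ε ^ 2) k m
          (fun w => Real.exp (θ * gh I J w m k)))) := by
      have h3 := EF_mono hα0 hα1 m (F := fun _ => Ex ε (box (a.1 + 1) (a.2 + 1) m k) f)
        (G := fun I => EF β k (fun J => EF2 (2 * ε - ε ^ 2) k m
          (fun w => Real.exp (θ * gh I J w m k)))) (fun I => by
            have h4 := EF_mono hβ0 hβ1 k (F := fun _ => Ex ε (box (a.1 + 1) (a.2 + 1) m k) f)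
              (G := fun J => EF2 (2 * ε - ε ^ 2) k m
                (fun w => Real.exp (θ * gh I J w m k))) (fun J => hIJ I J)
            rwa [EF_const] at h4)
      rwa [EF_const] at h3
    refine havg.trans ((stat_moment hα0 hα1 hβ0 hβ1 hq0 hq1 h hθ m k).trans ?_)
    apply Real.exp_le_exp.2
    apply mul_le_mul_of_nonneg_left _ hx
    have c1 : (m : ℝ) ≤ ((b.1 - a.1 : ℕ) : ℝ) := by
      have : m ≤ b.1 - a.1 := by omega
      exact_mod_cast this
    have c2 : (k : ℝ) ≤ ((b.2 - a.2 : ℕ) : ℝ) := by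
      have : k ≤ b.2 - a.2 := by omega
      exact_mod_cast this
    gcongr

end Pool.Agent.Work.MP_465a95_pr
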