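import Mathlib
import Pool.Agent.Work.MP_465a95_pr.Moment

/-!
Lower bound for the expected longest chain by the exit point argument.
-/

open Finset Filter Topology

namespace Pool.Agent.Work.MP_465a95_pr

lemma EF_sum (a : ℝ) (N : ℕ) : ∀ K ≤ N,
    EF a N (fun f => ((∑ i ∈ range K, (f i).toNat : ℕ) : ℝ)) = a * K := by
  induction N with
  | zero =>
    intro K hK
    have : K = 0 := by omega
    subst this
    simp [EF]
  | succ N ih =>
    intro K hK
    cases K with
    | zero => simp [EF_const]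
    | succ K =>
      simp only [EF]
      have e1 : ∀ b : Bool, EF a N (fun f => ((∑ i ∈ range (K + 1), (sc b f i).toNat : ℕ) : ℝ)) =
          (b.toNat : ℝ) + a * K := by
        intro b
        rw [← ih K (by omega), ← EF_const a N (b.toNat : ℝ), ← EF_add]
        congr 1
        funext f
        rw [sum_sc_toNat]
        push_cast
        ring
      simp only [e1]
      unfold EB
      simp
      ring

lemma EF_exp_part (a t : ℝ) (N : ℕ) : ∀ K ≤ N,
    EF a N (fun f => Real.exp (t * ((∑ i ∈ range K, (f i).toNat : ℕ) : ℝ))) =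
      (1 + a * (Real.exp t - 1)) ^ K := by
  induction N with
  | zero =>
    intro K hK
    have : K = 0 := by omega
    subst this
    simp [EF]
  | succ N ih =>
    intro K hK
    cases K with
    | zero => simp [EF_const]
    | succ K =>
      simp only [EF]
      have e1 : ∀ b : Bool, EF a N (fun f => Real.exp (t * ((∑ i ∈ range (K + 1),
          (sc b f i).toNat : ℕ) : ℝ))) =
          Real.exp (t * (b.toNat : ℝ)) * (1 + a * (Real.exp t - 1)) ^ K := by
        intro b
        rw [← ih K (by omega), ← EF_mul]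
        congr 1
        funext f
        rw [sum_sc_toNat, ← Real.exp_add]
        congr 1
        push_cast
        ring
      simp only [e1]
      unfold EB
      simp
      ring

lemma EF_var (a : ℝ) (N : ℕ) :
    EF a N (fun f => (((∑ i ∈ range N, (f i).toNat : ℕ) : ℝ) - a * N) ^ 2) =
      N * (a * (1 - a)) := by
  induction N with
  | zero => simp [EF]
  | succ N ih =>
    simp only [EF]
    have e1 : ∀ b : Bool, EF a N (fun f => (((∑ i ∈ range (N + 1), (sc b f i).toNat : ℕ) : ℝ) -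
        a * ((N + 1 : ℕ) : ℝ)) ^ 2) = ((b.toNat : ℝ) - a) ^ 2 + N * (a * (1 - a)) := by
      intro b
      have h1 : EF a N (fun f => 2 * ((b.toNat : ℝ) - a) *
          ((∑ i ∈ range N, (f i).toNat : ℕ) : ℝ) + -(2 * ((b.toNat : ℝ) - a) * (a * N))) = 0 := by
        rw [EF_add, EF_mul, EF_sum a N N le_rfl, EF_const]
        ring
      have h2 : (fun f : ℕ → Bool => (((∑ i ∈ range (N + 1), (sc b f i).toNat : ℕ) : ℝ) -
        a * ((N + 1 : ℕ) : ℝ)) ^ 2) = fun f => ((((b.toNat : ℝ) - a) ^ 2) +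
          (2 * ((b.toNat : ℝ) - a) *
          ((∑ i ∈ range N, (f i).toNat : ℕ) : ℝ) + -(2 * ((b.toNat : ℝ) - a) * (a * N)))) +
          (((∑ i ∈ range N, (f i).toNat : ℕ) : ℝ) - a * N) ^ 2 := by
        funext f
        rw [sum_sc_toNat]
        push_cast
        ring
      rw [h2, EF_add, EF_add, h1, ih, EF_const]
      ring
    simp only [e1]
    unfold EB
    simp
    ring

/-- Joint expectation over sources, sinks and the bulk. -/
noncomputable def TT (α ε : ℝ) (N : ℕ) (F : (ℕ → Bool) → (ℕ → Bool) → Finset Edge → ℝ) : ℝ :=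
  EF α N (fun I => EF α N (fun J => Ex ε (box 2 2 N N) (fun C => F I J C)))

section TT

variable {α ε : ℝ} {N : ℕ}

lemma TT_add (F G : (ℕ → Bool) → (ℕ → Bool) → Finset Edge → ℝ) :
    TT α ε N (fun I J C => F I J C + G I J C) = TT α ε N F + TT α ε N G := by
  unfold TT
  simp only [Ex_add, EF_add]

lemma TT_mul (c : ℝ) (F : (ℕ → Bool) → (ℕ → Bool) → Finset Edge → ℝ) :
    TT α ε N (fun I J C => c * F I J C) = c * TT α ε N F := by
  unfold TT
  simp only [Ex_mul_left, EF_mul]

lemma TT_mono (hα0 : 0 ≤ α) (hα1 : α ≤ 1) (hε0 : 0 ≤ ε) (hε1 : ε ≤ 1)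
    {F G : (ℕ → Bool) → (ℕ → Bool) → Finset Edge → ℝ} (h : ∀ I J C, F I J C ≤ G I J C) :
    TT α ε N F ≤ TT α ε N G :=
  EF_mono hα0 hα1 N (fun I => EF_mono hα0 hα1 N (fun J => Ex_mono hε0 hε1 (fun C _ => h I J C)))

lemma TT_I (F : (ℕ → Bool) → ℝ) : TT α ε N (fun I _ _ => F I) = EF α N F := by
  unfold TT
  simp only [Ex_const, EF_const]

lemma TT_J (F : (ℕ → Bool) → ℝ) : TT α ε N (fun _ J _ => F J) = EF α N F := by
  unfold TT
  simp only [Ex_const, EF_const]

lemma TT_C (F : Finset Edge → ℝ) : TT α ε N (fun _ _ C => F C) = Ex ε (box 2 2 N N) F := by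
  unfold TT
  simp only [EF_const]

lemma TT_IC (F : (ℕ → Bool) → ℝ) (G : Finset Edge → ℝ) :
    TT α ε N (fun I _ C => F I * G C) = EF α N F * Ex ε (box 2 2 N N) G := by
  unfold TT
  simp only [Ex_mul_left, EF_const]
  rw [mul_comm, ← EF_mul]
  congr 1
  funext I
  ring

lemma TT_JC (F : (ℕ → Bool) → ℝ) (G : Finset Edge → ℝ) :
    TT α ε N (fun _ J C => F J * G C) = EF α N F * Ex ε (box 2 2 N N) G := by
  unfold TT
  simp only [Ex_mul_left, EF_const]
  rw [mul_comm, ← EF_mul]
  congr 1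
  funext I
  ring

/-- The marks seen from the corner `(1, 1)`. -/
def wC (C : Finset Edge) : ℕ → ℕ → Bool := fun i j => mk C (1 + 1 + i) (1 + 1 + j)

lemma TT_right (h : α * α = (1 - α) * (1 - α) * (2 * ε - ε ^ 2)) (F : (ℕ → Bool) → ℝ) :
    TT α ε N (fun I J C => F (JJ I J (wC C) N)) = EF α N F := by
  unfold TT
  rw [← right_law h N N F]
  congr 1; funext I
  congr 1; funext J
  rw [← box_link]
  rfl

end TT

/-- The key inequality for the expected longest chain. -/
lemma lower_key {ε α α' β' θ : ℝ} (hε0 : 0 ≤ ε) (hε1 : ε ≤ 1) (hα0 : 0 ≤ α) (hα1 : α ≤ 1)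
    (h : α * α = (1 - α) * (1 - α) * (2 * ε - ε ^ 2))
    (hα'1 : α' ≤ 1) (hβ'0 : 0 ≤ β') (hβ'1 : β' ≤ 1)
    (h' : α' * β' = (1 - α') * (1 - β') * (2 * ε - ε ^ 2)) (hαα' : α ≤ α') (hθ : 0 < θ)
    {κ : ℝ} (hκ : 0 < κ) (N K : ℕ) (hN : 0 < N) :
    2 * α * N ≤ Ex ε (box 2 2 N N) (fun C => (L src C (1, 1) (1 + 1 + N, 1 + 1 + N) : ℝ)) +
      2 * (α * K) + 2 / κ ^ 2 + 4 * N ^ 2 * Real.exp (-(θ * ((2 * α - κ) * N)) +
        (Real.exp (2 * θ) - 1) / 2 * ((α' + β') * (N + 1) - (α' - α) * K)) := by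
  have hNr : (0 : ℝ) < N := by exact_mod_cast hN
  have hα'0 : 0 ≤ α' := hα0.trans hαα'
  set x : ℝ := (Real.exp (2 * θ) - 1) / 2 with hx
  have hx0 : 0 < x := by
    have := Real.one_lt_exp_iff.2 (show 0 < 2 * θ by linarith)
    rw [hx]; linarith
  have hxθ : Real.exp θ - 1 ≤ x := by
    have h1 : Real.exp (2 * θ) = Real.exp θ ^ 2 := by rw [← Real.exp_nat_mul]; norm_num
    have h2 : 1 ≤ Real.exp θ := Real.one_le_exp hθ.le
    rw [hx, h1]
    nlinarith
  set y : ℝ := (2 * α - κ) * N with hy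
  set B : ℕ × ℕ := (1 + 1 + N, 1 + 1 + N) with hB
  -- degenerate case
  by_cases hKN : K ≤ N
  swap
  · push Not at hKN
    have hKr : (N : ℝ) ≤ K := by exact_mod_cast hKN.le
    have hE : 0 ≤ Ex ε (box 2 2 N N) (fun C => (L src C (1, 1) B : ℝ)) :=
      Ex_nonneg hε0 hε1 (fun C _ => Nat.cast_nonneg _)
    have h1 : α * N ≤ α * K := by gcongr
    have h2 : 0 ≤ 2 / κ ^ 2 := by positivity
    have h3 : 0 ≤ 4 * (N : ℝ) ^ 2 * Real.exp (-(θ * y) + x * ((α' + β') * (N + 1) - (α' - α) * K)) := by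
      positivity
    linarith
  -- abbreviations
  set S : (ℕ → Bool) → ℕ → ℝ := fun I k => ((∑ i ∈ range k, (I i).toNat : ℕ) : ℝ) with hS
  set X : ℝ := Real.exp (-(θ * y) + x * ((α' + β') * (N + 1) - (α' - α) * K)) with hX
  set G : (ℕ → Bool) → (ℕ → Bool) → Finset Edge → ℝ := fun I J C => (gh I J (wC C) N N : ℝ) with hG
  have hGle : ∀ I J C, G I J C ≤ 2 * N := by
    intro I J C
    simp only [hG, gh]
    have h1 : ∑ i ∈ range N, (I i).toNat ≤ N := by
      calc _ ≤ ∑ i ∈ range N, 1 := sum_le_sum (fun i _ => Bool.toNat_le _)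
        _ = N := by simp
    have h2 : ∑ j ∈ range N, (JJ I J (wC C) N j).toNat ≤ N := by
      calc _ ≤ ∑ i ∈ range N, 1 := sum_le_sum (fun i _ => Bool.toNat_le _)
        _ = N := by simp
    have h3 : (∑ i ∈ range N, (I i).toNat) + ∑ j ∈ range N, (JJ I J (wC C) N j).toNat ≤ 2 * N := by
      omega
    exact_mod_cast h3
  have hSmono : ∀ I : ℕ → Bool, ∀ k k' : ℕ, k ≤ k' → S I k ≤ S I k' := by
    intro I k k' hk
    simp only [hS]
    have : ∑ i ∈ range k, (I i).toNat ≤ ∑ i ∈ range k', (I i).toNat :=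
      sum_le_sum_of_subset (range_mono hk)
    exact_mod_cast this
  have hS0 : ∀ I : ℕ → Bool, ∀ k, 0 ≤ S I k := fun I k => Nat.cast_nonneg _
  -- pointwise inequality
  have hpt : ∀ I J C, G I J C ≤ ((L src C (1, 1) B : ℝ) + S I K) + (S J K +
      (2 * N * (((κ * N) ^ 2)⁻¹ * (G I J C - 2 * α * N) ^ 2) +
      (2 * N * ∑ k ∈ Ioc K N, Real.exp (-(θ * y)) * (Real.exp (θ * S I k) *
        Real.exp (θ * L src C (1 + k, 1) B)) +
      2 * N * ∑ k ∈ Ioc K N, Real.exp (-(θ * y)) * (Real.exp (θ * S J k) *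
        Real.exp (θ * L src C (1, 1 + k) B))))) := by
    intro I J C
    have hL0 : (0 : ℝ) ≤ L src C (1, 1) B := Nat.cast_nonneg _
    have t1 : 0 ≤ 2 * N * (((κ * N) ^ 2)⁻¹ * (G I J C - 2 * α * N) ^ 2) := by positivity
    have t2 : 0 ≤ 2 * (N : ℝ) * ∑ k ∈ Ioc K N, Real.exp (-(θ * y)) * (Real.exp (θ * S I k) *
        Real.exp (θ * L src C (1 + k, 1) B)) := by positivity
    have t3 : 0 ≤ 2 * (N : ℝ) * ∑ k ∈ Ioc K N, Real.exp (-(θ * y)) * (Real.exp (θ * S J k) *
        Real.exp (θ * L src C (1, 1 + k) B)) := by positivity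
    have hsmall : G I J C < y → 1 ≤ ((κ * N) ^ 2)⁻¹ * (G I J C - 2 * α * N) ^ 2 := by
      intro hlt
      have h1 : κ * N ≤ 2 * α * N - G I J C := by rw [hy] at hlt; linarith
      have h2 : (κ * N) ^ 2 ≤ (G I J C - 2 * α * N) ^ 2 := by
        have : 0 < κ * N := by positivity
        nlinarith
      rw [inv_mul_eq_div, le_div_iff₀ (by positivity)]
      linarith
    have hexit := gh_exit C 1 1 I J (N + N) N N le_rfl
    rcases hexit with ⟨k, hk, hk2⟩ | ⟨k, hk, hk2⟩
    · have hG1 : G I J C ≤ S I k + L src C (1 + k, 1) B := by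
        have : ((gh I J (wC C) N N : ℕ) : ℝ) ≤ ((∑ i' ∈ range k, (I i').toNat +
          L src C (1 + k, 1) B : ℕ) : ℝ) := by exact_mod_cast hk2
        rw [Nat.cast_add] at this
        exact this
      by_cases hkK : k ≤ K
      · have h1 := hSmono I k K hkK
        have h2 : (L src C (1 + k, 1) B : ℝ) ≤ L src C (1, 1) B := by
          have : L src C (1 + k, 1) B ≤ L src C (1, 1) B :=
            L_mono subset_rfl ⟨by simp, le_rfl⟩ (le2_refl _)
          exact_mod_cast this
        have h3 := hS0 J K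
        linarith
      · push Not at hkK
        by_cases hlt : G I J C < y
        · have h1 := hsmall hlt
          have h2 := hGle I J C
          have h3 : 2 * (N : ℝ) ≤ 2 * N * (((κ * N) ^ 2)⁻¹ * (G I J C - 2 * α * N) ^ 2) := by
            nlinarith
          have h4 := hS0 J K
          have h5 := hS0 I K
          linarith
        · push Not at hlt
          have h1 : 1 ≤ Real.exp (-(θ * y)) * (Real.exp (θ * S I k) *
              Real.exp (θ * L src C (1 + k, 1) B)) := by
            rw [← Real.exp_add, ← Real.exp_add]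
            apply Real.one_le_exp
            nlinarith
          have h2 : 1 ≤ ∑ k ∈ Ioc K N, Real.exp (-(θ * y)) * (Real.exp (θ * S I k) *
              Real.exp (θ * L src C (1 + k, 1) B)) :=
            h1.trans (single_le_sum (f := fun k => Real.exp (-(θ * y)) * (Real.exp (θ * S I k) *
              Real.exp (θ * L src C (1 + k, 1) B))) (fun i _ => by positivity)
              (mem_Ioc.2 ⟨hkK, hk⟩))
          have h3 := hGle I J C
          have h4 : 2 * (N : ℝ) ≤ 2 * N * ∑ k ∈ Ioc K N, Real.exp (-(θ * y)) *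
              (Real.exp (θ * S I k) * Real.exp (θ * L src C (1 + k, 1) B)) := by
            nlinarith
          have h5 := hS0 J K
          have h6 := hS0 I K
          linarith
    · have hG1 : G I J C ≤ S J k + L src C (1, 1 + k) B := by
        have : ((gh I J (wC C) N N : ℕ) : ℝ) ≤ ((∑ i' ∈ range k, (J i').toNat +
          L src C (1, 1 + k) B : ℕ) : ℝ) := by exact_mod_cast hk2
        rw [Nat.cast_add] at this
        exact this
      by_cases hkK : k ≤ K
      · have h1 := hSmono J k K hkK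
        have h2 : (L src C (1, 1 + k) B : ℝ) ≤ L src C (1, 1) B := by
          have : L src C (1, 1 + k) B ≤ L src C (1, 1) B :=
            L_mono subset_rfl ⟨le_rfl, by simp⟩ (le2_refl _)
          exact_mod_cast this
        have h3 := hS0 I K
        linarith
      · push Not at hkK
        by_cases hlt : G I J C < y
        · have h1 := hsmall hlt
          have h2 := hGle I J C
          have h3 : 2 * (N : ℝ) ≤ 2 * N * (((κ * N) ^ 2)⁻¹ * (G I J C - 2 * α * N) ^ 2) := by
            nlinarith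
          have h4 := hS0 J K
          have h5 := hS0 I K
          linarith
        · push Not at hlt
          have h1 : 1 ≤ Real.exp (-(θ * y)) * (Real.exp (θ * S J k) *
              Real.exp (θ * L src C (1, 1 + k) B)) := by
            rw [← Real.exp_add, ← Real.exp_add]
            apply Real.one_le_exp
            nlinarith
          have h2 : 1 ≤ ∑ k ∈ Ioc K N, Real.exp (-(θ * y)) * (Real.exp (θ * S J k) *
              Real.exp (θ * L src C (1, 1 + k) B)) :=
            h1.trans (single_le_sum (f := fun k => Real.exp (-(θ * y)) * (Real.exp (θ * S J k) *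
              Real.exp (θ * L src C (1, 1 + k) B))) (fun i _ => by positivity)
              (mem_Ioc.2 ⟨hkK, hk⟩))
          have h3 := hGle I J C
          have h4 : 2 * (N : ℝ) ≤ 2 * N * ∑ k ∈ Ioc K N, Real.exp (-(θ * y)) *
              (Real.exp (θ * S J k) * Real.exp (θ * L src C (1, 1 + k) B)) := by
            nlinarith
          have h5 := hS0 J K
          have h6 := hS0 I K
          linarith
  -- take expectations
  have hint := TT_mono (N := N) hα0 hα1 hε0 hε1 hpt
  -- expectation of G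
  have hEG : TT α ε N G = 2 * α * N := by
    have : G = fun I J C => S I N + S (JJ I J (wC C) N) N := by
      funext I J C
      simp only [hG, hS, gh]
      push_cast
      rfl
    rw [this, TT_add, TT_I, TT_right h (fun J => S J N)]
    simp only [hS]
    rw [EF_sum α N N le_rfl]
    ring
  have hEV : TT α ε N (fun I J C => (G I J C - 2 * α * N) ^ 2) ≤ N := by
    have h1 : ∀ I J C, (G I J C - 2 * α * N) ^ 2 ≤ 2 * (S I N - α * N) ^ 2 +
        2 * (S (JJ I J (wC C) N) N - α * N) ^ 2 := by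
      intro I J C
      have : G I J C = S I N + S (JJ I J (wC C) N) N := by
        simp only [hG, hS, gh]
        push_cast
        rfl
      rw [this]
      nlinarith [sq_nonneg ((S I N - α * N) - (S (JJ I J (wC C) N) N - α * N))]
    refine (TT_mono (N := N) hα0 hα1 hε0 hε1 h1).trans ?_
    rw [TT_add, TT_I (fun I => 2 * (S I N - α * N) ^ 2),
      TT_right h (fun J => 2 * (S J N - α * N) ^ 2), EF_mul]
    have h2 : EF α N (fun f => (S f N - α * N) ^ 2) = N * (α * (1 - α)) := EF_var α N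
    rw [h2]
    nlinarith [sq_nonneg (1 - 2 * α), hNr]
  have hES : ∀ k ≤ N, EF α N (fun f => Real.exp (θ * S f k)) ≤ Real.exp (x * (α * k)) := by
    intro k hk
    have h1 := EF_exp_part α θ N k hk
    simp only [hS]
    rw [h1]
    have h2 : 1 ≤ Real.exp θ := Real.one_le_exp hθ.le
    have h3 : 1 + α * (Real.exp θ - 1) ≤ Real.exp (α * x) := by
      have h4 : α * (Real.exp θ - 1) ≤ α * x := by gcongr
      linarith [Real.add_one_le_exp (α * x)]
    have h5 : 0 ≤ 1 + α * (Real.exp θ - 1) := by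
      have : 0 ≤ α * (Real.exp θ - 1) := mul_nonneg hα0 (by linarith)
      linarith
    calc (1 + α * (Real.exp θ - 1)) ^ k ≤ Real.exp (α * x) ^ k := pow_le_pow_left₀ h5 h3 k
      _ = _ := by rw [← Real.exp_nat_mul]; congr 1; ring
  have hterm : ∀ k ∈ Ioc K N, Real.exp (-(θ * y)) * (Real.exp (x * (α * k)) *
      Real.exp (x * (α' * ((N + 1 - k : ℕ) : ℝ) + β' * (N + 1)))) ≤ X := by
    intro k hk
    rw [mem_Ioc] at hk
    rw [hX, ← Real.exp_add, ← Real.exp_add]
    apply Real.exp_le_exp.2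
    have h1 : ((N + 1 - k : ℕ) : ℝ) = N + 1 - k := by
      rw [Nat.cast_sub (by omega)]; push_cast; ring
    rw [h1]
    have h2 : (K : ℝ) ≤ k := by exact_mod_cast hk.1.le
    have h3 : (α' - α) * K ≤ (α' - α) * k := by
      apply mul_le_mul_of_nonneg_left h2; linarith
    have h4 : x * (α * k) + x * (α' * (N + 1 - k) + β' * (N + 1)) ≤
        x * ((α' + β') * (N + 1) - (α' - α) * K) := by
      rw [← mul_add]
      apply mul_le_mul_of_nonneg_left _ hx0.le
      nlinarith
    linarith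
  have hcardle : (((Ioc K N).card : ℕ) : ℝ) ≤ N := by
    have : (Ioc K N).card ≤ N := by simp
    exact_mod_cast this
  have hE1 : TT α ε N (fun I _ C => 2 * N * ∑ k ∈ Ioc K N, Real.exp (-(θ * y)) *
      (Real.exp (θ * S I k) * Real.exp (θ * L src C (1 + k, 1) B))) ≤ 2 * N ^ 2 * X := by
    rw [TT_mul]
    have e1 : TT α ε N (fun I _ C => ∑ k ∈ Ioc K N, Real.exp (-(θ * y)) *
      (Real.exp (θ * S I k) * Real.exp (θ * L src C (1 + k, 1) B))) =
      ∑ k ∈ Ioc K N, Real.exp (-(θ * y)) * (EF α N (fun f => Real.exp (θ * S f k)) *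
        Ex ε (box 2 2 N N) (fun C => Real.exp (θ * L src C (1 + k, 1) B))) := by
      have : ∀ T : Finset ℕ, TT α ε N (fun I _ C => ∑ k ∈ T, Real.exp (-(θ * y)) *
        (Real.exp (θ * S I k) * Real.exp (θ * L src C (1 + k, 1) B))) =
        ∑ k ∈ T, Real.exp (-(θ * y)) * (EF α N (fun f => Real.exp (θ * S f k)) *
        Ex ε (box 2 2 N N) (fun C => Real.exp (θ * L src C (1 + k, 1) B))) := by
        intro T
        induction T using Finset.induction_on with
        | empty => simp only [sum_empty]; rw [TT_I (fun _ => (0 : ℝ)), EF_const]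
        | insert a T ha ih =>
          simp only [sum_insert ha]
          rw [TT_add, ih, TT_mul, TT_IC (fun I => Real.exp (θ * S I a))
            (fun C => Real.exp (θ * L src C (1 + a, 1) B))]
      exact this _
    rw [e1]
    have e2 : ∑ k ∈ Ioc K N, Real.exp (-(θ * y)) * (EF α N (fun f => Real.exp (θ * S f k)) *
        Ex ε (box 2 2 N N) (fun C => Real.exp (θ * L src C (1 + k, 1) B))) ≤
        ∑ k ∈ Ioc K N, X := by
      apply sum_le_sum
      intro k hk
      refine le_trans ?_ (hterm k hk)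
      have h1 := hES k (mem_Ioc.1 hk).2
      have h2 := exp_moment hε0 hε1 hα'0 hα'1 hβ'0 hβ'1 h' hθ.le (box 2 2 N N) (1 + k, 1) B
      simp only [hB] at h2
      rw [← hx] at h2
      have c1 : 1 + 1 + N - (1 + k) = N + 1 - k := by omega
      have c2 : 1 + 1 + N - 1 = N + 1 := by omega
      rw [c1, c2] at h2
      push_cast at h2 ⊢
      have h3 : 0 ≤ Ex ε (box 2 2 N N) (fun C => Real.exp (θ * L src C (1 + k, 1) B)) :=
        Ex_nonneg hε0 hε1 (fun C _ => (Real.exp_pos _).le)
      gcongr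
    have e3 : ∑ k ∈ Ioc K N, X = (((Ioc K N).card : ℕ) : ℝ) * X := by
      rw [sum_const, nsmul_eq_mul]
    have hXpos : 0 < X := Real.exp_pos _
    calc _ ≤ 2 * (N : ℝ) * ((((Ioc K N).card : ℕ) : ℝ) * X) := by
          rw [← e3]; gcongr
      _ ≤ 2 * (N : ℝ) * (N * X) := by gcongr
      _ = _ := by ring
  have hE2 : TT α ε N (fun _ J C => 2 * N * ∑ k ∈ Ioc K N, Real.exp (-(θ * y)) *
      (Real.exp (θ * S J k) * Real.exp (θ * L src C (1, 1 + k) B))) ≤ 2 * N ^ 2 * X := by
    rw [TT_mul]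
    have e1 : TT α ε N (fun _ J C => ∑ k ∈ Ioc K N, Real.exp (-(θ * y)) *
      (Real.exp (θ * S J k) * Real.exp (θ * L src C (1, 1 + k) B))) =
      ∑ k ∈ Ioc K N, Real.exp (-(θ * y)) * (EF α N (fun f => Real.exp (θ * S f k)) *
        Ex ε (box 2 2 N N) (fun C => Real.exp (θ * L src C (1, 1 + k) B))) := by
      have : ∀ T : Finset ℕ, TT α ε N (fun _ J C => ∑ k ∈ T, Real.exp (-(θ * y)) *
        (Real.exp (θ * S J k) * Real.exp (θ * L src C (1, 1 + k) B))) =
        ∑ k ∈ T, Real.exp (-(θ * y)) * (EF α N (fun f => Real.exp (θ * S f k)) *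
        Ex ε (box 2 2 N N) (fun C => Real.exp (θ * L src C (1, 1 + k) B))) := by
        intro T
        induction T using Finset.induction_on with
        | empty => simp only [sum_empty]; rw [TT_I (fun _ => (0 : ℝ)), EF_const]
        | insert a T ha ih =>
          simp only [sum_insert ha]
          rw [TT_add, ih, TT_mul, TT_JC (fun I => Real.exp (θ * S I a))
            (fun C => Real.exp (θ * L src C (1, 1 + a) B))]
      exact this _
    rw [e1]
    have e2 : ∑ k ∈ Ioc K N, Real.exp (-(θ * y)) * (EF α N (fun f => Real.exp (θ * S f k)) *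
        Ex ε (box 2 2 N N) (fun C => Real.exp (θ * L src C (1, 1 + k) B))) ≤
        ∑ k ∈ Ioc K N, X := by
      apply sum_le_sum
      intro k hk
      refine le_trans ?_ (hterm k hk)
      have h1 := hES k (mem_Ioc.1 hk).2
      have h'' : β' * α' = (1 - β') * (1 - α') * (2 * ε - ε ^ 2) := by linarith
      have h2 := exp_moment hε0 hε1 hβ'0 hβ'1 hα'0 hα'1 h'' hθ.le (box 2 2 N N) (1, 1 + k) B
      simp only [hB] at h2
      rw [← hx] at h2
      have c1 : 1 + 1 + N - (1 + k) = N + 1 - k := by omega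
      have c2 : 1 + 1 + N - 1 = N + 1 := by omega
      rw [c1, c2] at h2
      have h3 : 0 ≤ Ex ε (box 2 2 N N) (fun C => Real.exp (θ * L src C (1, 1 + k) B)) :=
        Ex_nonneg hε0 hε1 (fun C _ => (Real.exp_pos _).le)
      have h4 : Ex ε (box 2 2 N N) (fun C => Real.exp (θ * L src C (1, 1 + k) B)) ≤
          Real.exp (x * (α' * ((N + 1 - k : ℕ) : ℝ) + β' * (N + 1))) := by
        refine h2.trans (le_of_eq ?_)
        congr 2
        push_cast
        ring
      gcongr
    have e3 : ∑ k ∈ Ioc K N, X = (((Ioc K N).card : ℕ) : ℝ) * X := by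
      rw [sum_const, nsmul_eq_mul]
    have hXpos : 0 < X := Real.exp_pos _
    calc _ ≤ 2 * (N : ℝ) * ((((Ioc K N).card : ℕ) : ℝ) * X) := by
          rw [← e3]; gcongr
      _ ≤ 2 * (N : ℝ) * (N * X) := by gcongr
      _ = _ := by ring
  have hE3 : TT α ε N (fun I J C => 2 * N * (((κ * N) ^ 2)⁻¹ * (G I J C - 2 * α * N) ^ 2)) ≤
      2 / κ ^ 2 := by
    rw [TT_mul, TT_mul]
    have h1 : 0 ≤ ((κ * N) ^ 2)⁻¹ := by positivity
    calc 2 * (N : ℝ) * (((κ * N) ^ 2)⁻¹ * TT α ε N (fun I J C => (G I J C - 2 * α * N) ^ 2))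
        ≤ 2 * (N : ℝ) * (((κ * N) ^ 2)⁻¹ * N) := by gcongr
      _ = 2 / κ ^ 2 := by field_simp
  have hsplit : TT α ε N (fun I J C => ((L src C (1, 1) B : ℝ) + S I K) + (S J K +
      (2 * N * (((κ * N) ^ 2)⁻¹ * (G I J C - 2 * α * N) ^ 2) +
      (2 * N * ∑ k ∈ Ioc K N, Real.exp (-(θ * y)) * (Real.exp (θ * S I k) *
        Real.exp (θ * L src C (1 + k, 1) B)) +
      2 * N * ∑ k ∈ Ioc K N, Real.exp (-(θ * y)) * (Real.exp (θ * S J k) *
        Real.exp (θ * L src C (1, 1 + k) B)))))) =
      (Ex ε (box 2 2 N N) (fun C => (L src C (1, 1) B : ℝ)) + α * K) + (α * K +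
      (TT α ε N (fun I J C => 2 * N * (((κ * N) ^ 2)⁻¹ * (G I J C - 2 * α * N) ^ 2)) +
      (TT α ε N (fun I _ C => 2 * N * ∑ k ∈ Ioc K N, Real.exp (-(θ * y)) *
      (Real.exp (θ * S I k) * Real.exp (θ * L src C (1 + k, 1) B))) +
      TT α ε N (fun _ J C => 2 * N * ∑ k ∈ Ioc K N, Real.exp (-(θ * y)) *
      (Real.exp (θ * S J k) * Real.exp (θ * L src C (1, 1 + k) B)))))) := by
    rw [TT_add (fun I _ C => (L src C (1, 1) B : ℝ) + S I K), TT_add (fun _ _ C => (L src C (1, 1) B : ℝ)),
      TT_C (fun C => (L src C (1, 1) B : ℝ)), TT_I (fun I => S I K)]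
    rw [TT_add (fun _ J _ => S J K), TT_J (fun J => S J K), TT_add, TT_add]
    simp only [hS]
    rw [EF_sum α N K hKN]
  rw [hEG, hsplit] at hint
  linarith

end Pool.Agent.Work.MP_465a95_pr
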