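import Mathlib
import Pool.Agent.Work.MP_465a95_pr.Ex
import Pool.Agent.Work.MP_465a95_pr.Chain

/-!
Skeletons: decomposition of a sequence of closed edges into explicit elements and chains.
-/

open Finset

set_option linter.unusedSectionVars false

namespace Pool.Agent.Work.MP_465a95_pr

/-- Total backward displacement from `s` to `t`. -/
def dl (s t : ℕ × ℕ) : ℕ := (s.1 - t.1) + (s.2 - t.2)

variable {E : Type*} [DecidableEq E] (pos : E → ℕ × ℕ)

/-- Value of a sequence of elements, starting from the point `s`. -/
def sval (s : ℕ × ℕ) : List E → ℤ
  | [] => 0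
  | e :: l => 1 - (dl s (pos e) : ℤ) + sval (pos e) l

/-- Explicit elements of a skeleton. -/
def Zl : List (Option E × E) → List E
  | [] => []
  | (none, e) :: sk => e :: Zl sk
  | (some b, e) :: sk => b :: e :: Zl sk

/-- Random weight of a skeleton. -/
noncomputable def Rv (θ : ℝ) (D : Finset E) (B : ℕ × ℕ) : ℕ × ℕ → ℕ × ℕ → List (Option E × E) → ℝ
  | M, _, [] => Real.exp (θ * L pos D M B)
  | M, s, (none, e) :: sk =>
      if lt2 M (pos e) then 0 else
        Real.exp (θ * (1 - dl s (pos e))) * Rv θ D B (jn M (pos e)) (pos e) sk
  | M, _, (some b, e) :: sk =>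
      if lt2 M (pos b) ∧ ¬ lt2 (pos b) (pos e) then
        Real.exp (θ * (2 - dl (pos b) (pos e))) * Real.exp (θ * L pos D M (pos b)) *
          Rv θ D B (jn (pos b) (pos e)) (pos e) sk
      else 0

variable {pos}

lemma Rv_nonneg (θ : ℝ) (D : Finset E) (B : ℕ × ℕ) (sk : List (Option E × E)) :
    ∀ M s, 0 ≤ Rv pos θ D B M s sk := by
  induction sk with
  | nil => intro M s; exact (Real.exp_pos _).le
  | cons it sk ih =>
    intro M s
    obtain ⟨ob, e⟩ := it
    cases ob with
    | none =>
      simp only [Rv]
      split_ifs
      · exact le_rfl
      · exact mul_nonneg (Real.exp_pos _).le (ih _ _)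
    | some b =>
      simp only [Rv]
      split_ifs
      · exact mul_nonneg (mul_nonneg (Real.exp_pos _).le (Real.exp_pos _).le) (ih _ _)
      · exact le_rfl

lemma Rv_mono {θ : ℝ} (hθ : 0 ≤ θ) {D D' : Finset E} (hD : D ⊆ D') (B : ℕ × ℕ)
    (sk : List (Option E × E)) : ∀ M s, Rv pos θ D B M s sk ≤ Rv pos θ D' B M s sk := by
  induction sk with
  | nil =>
    intro M s
    simp only [Rv]
    have : L pos D M B ≤ L pos D' M B := L_mono hD (le2_refl _) (le2_refl _)
    have h2 : (L pos D M B : ℝ) ≤ L pos D' M B := by exact_mod_cast this
    gcongr
  | cons it sk ih =>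
    intro M s
    obtain ⟨ob, e⟩ := it
    cases ob with
    | none =>
      simp only [Rv]
      split_ifs
      · exact le_rfl
      · exact mul_le_mul_of_nonneg_left (ih _ _) (Real.exp_pos _).le
    | some b =>
      simp only [Rv]
      split_ifs
      · have : L pos D M (pos b) ≤ L pos D' M (pos b) := L_mono hD (le2_refl _) (le2_refl _)
        have h2 : (L pos D M (pos b) : ℝ) ≤ L pos D' M (pos b) := by exact_mod_cast this
        have h3 := ih (jn (pos b) (pos e)) (pos e)
        have h4 := Rv_nonneg (pos := pos) θ D B sk (jn (pos b) (pos e)) (pos e)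
        gcongr
      · exact le_rfl

/-- Every sequence of distinct elements is dominated by the weight of some skeleton. -/
lemma exists_skeleton {θ : ℝ} (hθ : 0 ≤ θ) (B : ℕ × ℕ) (l : List E) :
    l.Nodup → (∀ e ∈ l, lt2 (pos e) B) → ∀ M s, ∃ sk : List (Option E × E),
      (Zl sk).Nodup ∧ (∀ e ∈ Zl sk, e ∈ l) ∧
      Real.exp (θ * sval pos s l) ≤ Rv pos θ (l.toFinset \ (Zl sk).toFinset) B M s sk := by
  induction l with
  | nil =>
    intro _ _ M s
    refine ⟨[], by simp [Zl], by simp [Zl], ?_⟩
    simp only [sval, Rv]
    have : (0 : ℝ) ≤ L pos ((([] : List E)).toFinset \ (Zl ([] : List (Option E × E))).toFinset) M B :=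
      Nat.cast_nonneg _
    apply Real.exp_le_exp.2
    push_cast
    rw [mul_zero]
    positivity
  | cons e l ih =>
    intro hnd hB M s
    rw [List.nodup_cons] at hnd
    have heB : lt2 (pos e) B := hB e (by simp)
    have hB' : ∀ f ∈ l, lt2 (pos f) B := fun f hf => hB f (by simp [hf])
    -- the first element contributes at most one
    have hfirst : Real.exp (θ * sval pos s (e :: l)) ≤
        Real.exp (θ * (1 - dl s (pos e))) * Real.exp (θ * sval pos (pos e) l) := by
      rw [← Real.exp_add]
      apply Real.exp_le_exp.2
      simp only [sval]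
      push_cast
      linarith
    have hfirst' : Real.exp (θ * sval pos s (e :: l)) ≤
        Real.exp θ * Real.exp (θ * sval pos (pos e) l) := by
      refine hfirst.trans ?_
      gcongr
      have h0 : (0 : ℝ) ≤ dl s (pos e) := Nat.cast_nonneg _
      nlinarith
    by_cases hM : lt2 M (pos e)
    · -- fresh element
      obtain ⟨sk, h1, h2, h3⟩ := ih hnd.2 hB' (pos e) (pos e)
      have heZ : e ∉ (Zl sk).toFinset := by
        rw [List.mem_toFinset]
        exact fun h => hnd.1 (h2 e h)
      have hDe : (e :: l).toFinset \ (Zl sk).toFinset =
          insert e (l.toFinset \ (Zl sk).toFinset) := by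
        rw [List.toFinset_cons, insert_sdiff_of_notMem _ heZ]
      cases sk with
      | nil =>
        refine ⟨[], by simp [Zl], by simp [Zl], ?_⟩
        refine hfirst'.trans ?_
        rw [hDe]
        simp only [Rv] at h3 ⊢
        set D := l.toFinset \ (Zl ([] : List (Option E × E))).toFinset
        have h4 : L pos D (pos e) B + 1 ≤ L pos (insert e D) M B := L_insert_left hM heB
        have h5 : (L pos D (pos e) B : ℝ) + 1 ≤ L pos (insert e D) M B := by exact_mod_cast h4
        calc Real.exp θ * Real.exp (θ * sval pos (pos e) l)
            ≤ Real.exp θ * Real.exp (θ * L pos D (pos e) B) := by gcongr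
          _ = Real.exp (θ * (L pos D (pos e) B + 1)) := by rw [← Real.exp_add]; congr 1; ring
          _ ≤ _ := by gcongr
      | cons it sk =>
        obtain ⟨ob, e2⟩ := it
        cases ob with
        | none =>
          refine ⟨(some e, e2) :: sk, ?_, ?_, ?_⟩
          · simp only [Zl] at h1 h2 ⊢
            rw [List.nodup_cons]
            exact ⟨fun h => hnd.1 (h2 e h), h1⟩
          · simp only [Zl] at h2 ⊢
            intro f hf
            rcases List.mem_cons.1 hf with rfl | hf
            · simp
            · exact List.mem_cons_of_mem _ (h2 f hf)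
          · refine hfirst'.trans ?_
            simp only [Rv] at h3 ⊢
            by_cases hs : lt2 (pos e) (pos e2)
            · rw [if_pos hs] at h3
              exact absurd h3 (not_le.2 (Real.exp_pos _))
            · rw [if_neg hs] at h3
              rw [if_pos ⟨hM, hs⟩]
              have hDD : (e :: l).toFinset \ (Zl ((some e, e2) :: sk)).toFinset =
                  l.toFinset \ (Zl ((none, e2) :: sk)).toFinset := by
                ext x
                simp only [Zl, mem_sdiff, List.mem_toFinset, List.mem_cons, not_or]
                constructor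
                · rintro ⟨h | h, h4, h5⟩
                  · exact absurd h h4
                  · exact ⟨h, h5⟩
                · rintro ⟨h4, h5⟩
                  refine ⟨Or.inr h4, ?_, h5⟩
                  rintro rfl
                  exact hnd.1 h4
              rw [hDD]
              set D := l.toFinset \ (Zl ((none, e2) :: sk)).toFinset
              have h0 : (0 : ℝ) ≤ L pos D M (pos e) := Nat.cast_nonneg _
              have hR := Rv_nonneg (pos := pos) θ D B sk (jn (pos e) (pos e2)) (pos e2)
              calc Real.exp θ * Real.exp (θ * sval pos (pos e) l)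
                  ≤ Real.exp θ * (Real.exp (θ * (1 - dl (pos e) (pos e2))) *
                      Rv pos θ D B (jn (pos e) (pos e2)) (pos e2) sk) := by gcongr
                _ = Real.exp (θ * (2 - dl (pos e) (pos e2))) * 1 *
                      Rv pos θ D B (jn (pos e) (pos e2)) (pos e2) sk := by
                    rw [← mul_assoc, ← Real.exp_add, mul_one]; congr 2; ring
                _ ≤ _ := by
                    gcongr
                    exact Real.one_le_exp (by positivity)
        | some b =>
          refine ⟨(some b, e2) :: sk, h1, fun f hf => List.mem_cons_of_mem _ (h2 f hf), ?_⟩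
          refine hfirst'.trans ?_
          rw [hDe]
          simp only [Rv] at h3 ⊢
          by_cases hs : lt2 (pos e) (pos b) ∧ ¬ lt2 (pos b) (pos e2)
          · rw [if_pos hs] at h3
            rw [if_pos ⟨hM.trans hs.1, hs.2⟩]
            set D := l.toFinset \ (Zl ((some b, e2) :: sk)).toFinset
            have h4 : L pos D (pos e) (pos b) + 1 ≤ L pos (insert e D) M (pos b) :=
              L_insert_left hM hs.1
            have h5 : (L pos D (pos e) (pos b) : ℝ) + 1 ≤ L pos (insert e D) M (pos b) := by
              exact_mod_cast h4
            have h6 : Rv pos θ D B (jn (pos b) (pos e2)) (pos e2) sk ≤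
                Rv pos θ (insert e D) B (jn (pos b) (pos e2)) (pos e2) sk :=
              Rv_mono hθ (subset_insert _ _) B sk _ _
            have hR := Rv_nonneg (pos := pos) θ D B sk (jn (pos b) (pos e2)) (pos e2)
            calc Real.exp θ * Real.exp (θ * sval pos (pos e) l)
                ≤ Real.exp θ * (Real.exp (θ * (2 - dl (pos b) (pos e2))) *
                    Real.exp (θ * L pos D (pos e) (pos b)) *
                    Rv pos θ D B (jn (pos b) (pos e2)) (pos e2) sk) := by gcongr
              _ = Real.exp (θ * (2 - dl (pos b) (pos e2))) *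
                    Real.exp (θ * (L pos D (pos e) (pos b) + 1)) *
                    Rv pos θ D B (jn (pos b) (pos e2)) (pos e2) sk := by
                  have : Real.exp (θ * (L pos D (pos e) (pos b) + 1)) =
                      Real.exp θ * Real.exp (θ * L pos D (pos e) (pos b)) := by
                    rw [← Real.exp_add]; congr 1; ring
                  rw [this]; ring
              _ ≤ _ := by gcongr
          · rw [if_neg hs] at h3
            exact absurd h3 (not_le.2 (Real.exp_pos _))
    · -- stale element
      obtain ⟨sk, h1, h2, h3⟩ := ih hnd.2 hB' (jn M (pos e)) (pos e)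
      refine ⟨(none, e) :: sk, ?_, ?_, ?_⟩
      · simp only [Zl]
        rw [List.nodup_cons]
        exact ⟨fun h => hnd.1 (h2 e h), h1⟩
      · simp only [Zl]
        intro f hf
        rcases List.mem_cons.1 hf with rfl | hf
        · simp
        · exact List.mem_cons_of_mem _ (h2 f hf)
      · refine hfirst.trans ?_
        simp only [Rv]
        rw [if_neg hM]
        have hDD : (e :: l).toFinset \ (Zl ((none, e) :: sk)).toFinset =
            l.toFinset \ (Zl sk).toFinset := by
          ext x
          simp only [Zl, mem_sdiff, List.mem_toFinset, List.mem_cons, not_or]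
          constructor
          · rintro ⟨h | h, h4, h5⟩
            · exact absurd h h4
            · exact ⟨h, h5⟩
          · rintro ⟨h4, h5⟩
            refine ⟨Or.inr h4, ?_, h5⟩
            rintro rfl
            exact hnd.1 h4
        rw [hDD]
        gcongr

end Pool.Agent.Work.MP_465a95_pr
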