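import Mathlib
import Pool.Agent.Work.MP_465a95_pr.Skel

/-!
Expectation and sum over skeletons.
-/

open Finset

set_option linter.unusedSectionVars false

namespace Pool.Agent.Work.MP_465a95_pr

variable {E : Type*} [DecidableEq E] (pos : E → ℕ × ℕ)

/-- Deterministic weight of a skeleton. -/
noncomputable def Wt (ε θ : ℝ) (Fm : ℕ × ℕ → ℕ × ℕ → ℝ) (B : ℕ × ℕ) :
    ℕ × ℕ → ℕ × ℕ → List (Option E × E) → ℝ
  | M, _, [] => Fm M B
  | M, s, (none, e) :: sk =>
      if lt2 M (pos e) then 0 else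
        ε * Real.exp (θ * (1 - dl s (pos e))) * Wt ε θ Fm B (jn M (pos e)) (pos e) sk
  | M, _, (some b, e) :: sk =>
      if lt2 M (pos b) ∧ ¬ lt2 (pos b) (pos e) then
        ε ^ 2 * Real.exp (θ * (2 - dl (pos b) (pos e))) * Fm M (pos b) *
          Wt ε θ Fm B (jn (pos b) (pos e)) (pos e) sk
      else 0

variable {pos}

lemma Rv_filter (θ : ℝ) (D : Finset E) (B : ℕ × ℕ) (sk : List (Option E × E)) :
    ∀ M s M', le2 M' M →
      Rv pos θ (D.filter (fun e => lt2 M' (pos e))) B M s sk = Rv pos θ D B M s sk := by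
  induction sk with
  | nil =>
    intro M s M' hM
    simp only [Rv]
    rw [L_filter]
    intro e he _
    exact lt2_of_le2_of_lt2 hM he
  | cons it sk ih =>
    intro M s M' hM
    obtain ⟨ob, e⟩ := it
    cases ob with
    | none =>
      simp only [Rv]
      rw [ih _ _ _ (hM.trans (le2_jn_left _ _))]
    | some b =>
      simp only [Rv]
      by_cases hc : lt2 M (pos b) ∧ ¬ lt2 (pos b) (pos e)
      · rw [if_pos hc, if_pos hc, ih _ _ _ ((hM.trans hc.1.le2).trans (le2_jn_left _ _)), L_filter]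
        intro f hf _
        exact lt2_of_le2_of_lt2 hM hf
      · rw [if_neg hc, if_neg hc]

variable {ε θ : ℝ} {Fm : ℕ × ℕ → ℕ × ℕ → ℝ} {B : ℕ × ℕ} {U : Finset E}

lemma Wt_nonneg (h0 : 0 ≤ ε) (hFm : ∀ a b, 0 ≤ Fm a b) (sk : List (Option E × E)) :
    ∀ M s, 0 ≤ Wt pos ε θ Fm B M s sk := by
  induction sk with
  | nil => intro M s; exact hFm _ _
  | cons it sk ih =>
    intro M s
    obtain ⟨ob, e⟩ := it
    cases ob with
    | none =>
      simp only [Wt]
      split_ifs
      · exact le_rfl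
      · exact mul_nonneg (mul_nonneg h0 (Real.exp_pos _).le) (ih _ _)
    | some b =>
      simp only [Wt]
      split_ifs
      · exact mul_nonneg (mul_nonneg (mul_nonneg (by positivity) (Real.exp_pos _).le) (hFm _ _))
          (ih _ _)
      · exact le_rfl

lemma Ex_Rv (h0 : 0 ≤ ε) (h1 : ε ≤ 1) (hFm : ∀ a b, 0 ≤ Fm a b)
    (hF : ∀ a b, Ex ε U (fun C => Real.exp (θ * L pos C a b)) ≤ Fm a b)
    (sk : List (Option E × E)) : ∀ M s,
      ε ^ (Zl sk).length * Ex ε U (fun C => Rv pos θ C B M s sk) ≤ Wt pos ε θ Fm B M s sk := by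
  induction sk with
  | nil =>
    intro M s
    simp only [Zl, Rv, Wt, List.length_nil, pow_zero, one_mul]
    exact hF M B
  | cons it sk ih =>
    intro M s
    obtain ⟨ob, e⟩ := it
    cases ob with
    | none =>
      simp only [Zl, Rv, Wt, List.length_cons]
      by_cases hc : lt2 M (pos e)
      · simp only [if_pos hc]
        rw [Ex_const, mul_zero]
      · simp only [if_neg hc]
        rw [Ex_mul_left, pow_succ]
        have h2 := ih (jn M (pos e)) (pos e)
        have h3 : (0 : ℝ) ≤ ε * Real.exp (θ * (1 - dl s (pos e))) :=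
          mul_nonneg h0 (Real.exp_pos _).le
        calc _ = ε * Real.exp (θ * (1 - dl s (pos e))) *
              (ε ^ (Zl sk).length * Ex ε U (fun C => Rv pos θ C B (jn M (pos e)) (pos e) sk)) := by
              ring
          _ ≤ _ := mul_le_mul_of_nonneg_left h2 h3
    | some b =>
      simp only [Zl, Rv, Wt, List.length_cons]
      by_cases hc : lt2 M (pos b) ∧ ¬ lt2 (pos b) (pos e)
      · simp only [if_pos hc]
        set M' := jn (pos b) (pos e)
        have hfac : Ex ε U (fun C => Real.exp (θ * (2 - dl (pos b) (pos e))) *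
            Real.exp (θ * L pos C M (pos b)) * Rv pos θ C B M' (pos e) sk) =
            Real.exp (θ * (2 - dl (pos b) (pos e))) *
            (Ex ε U (fun C => Real.exp (θ * L pos C M (pos b))) *
              Ex ε U (fun C => Rv pos θ C B M' (pos e) sk)) := by
          have e1 : ∀ C : Finset E, Real.exp (θ * L pos C M (pos b)) =
              Real.exp (θ * L pos (C.filter (fun e => lt2 (pos e) (pos b))) M (pos b)) := by
            intro C
            rw [L_filter]
            exact fun e _ h => h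
          have e2 : ∀ C : Finset E, Rv pos θ C B M' (pos e) sk =
              Rv pos θ (C.filter (fun e => lt2 M' (pos e))) B M' (pos e) sk := by
            intro C
            rw [Rv_filter _ _ _ _ _ _ _ (le2_refl M')]
          have e3 := Ex_indep ε U (fun e => lt2 (pos e) (pos b)) (fun e => lt2 M' (pos e))
            (fun f h1 h2 => lt2_irrefl (pos b)
              (lt2_of_le2_of_lt2 (le2_jn_left (pos b) (pos e)) (h2.trans h1)))
            (fun C => Real.exp (θ * L pos C M (pos b))) (fun C => Rv pos θ C B M' (pos e) sk)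
          have e4 : (fun C : Finset E => Real.exp (θ * (2 - dl (pos b) (pos e))) *
            Real.exp (θ * L pos C M (pos b)) * Rv pos θ C B M' (pos e) sk) =
            (fun C => Real.exp (θ * (2 - dl (pos b) (pos e))) *
              (Real.exp (θ * L pos (C.filter (fun e => lt2 (pos e) (pos b))) M (pos b)) *
              Rv pos θ (C.filter (fun e => lt2 M' (pos e))) B M' (pos e) sk)) := by
            funext C
            rw [e1 C, e2 C, mul_assoc]
          rw [e4, Ex_mul_left, e3]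
          congr 2
          · apply Ex_congr
            intro C _
            exact (e1 C).symm
          · apply Ex_congr
            intro C _
            exact (e2 C).symm
        rw [hfac]
        have h2 := ih M' (pos e)
        have h3 := hF M (pos b)
        have h4 : 0 ≤ Ex ε U (fun C => Rv pos θ C B M' (pos e) sk) :=
          Ex_nonneg h0 h1 (fun C _ => Rv_nonneg _ _ _ _ _ _)
        have h5 := hFm M (pos b)
        calc ε ^ ((Zl sk).length + 1 + 1) * (Real.exp (θ * (2 - dl (pos b) (pos e))) *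
            (Ex ε U (fun C => Real.exp (θ * L pos C M (pos b))) *
              Ex ε U (fun C => Rv pos θ C B M' (pos e) sk)))
            ≤ ε ^ ((Zl sk).length + 1 + 1) * (Real.exp (θ * (2 - dl (pos b) (pos e))) *
            (Fm M (pos b) * Ex ε U (fun C => Rv pos θ C B M' (pos e) sk))) := by gcongr
          _ = (ε ^ 2 * Real.exp (θ * (2 - dl (pos b) (pos e))) * Fm M (pos b)) *
              (ε ^ (Zl sk).length * Ex ε U (fun C => Rv pos θ C B M' (pos e) sk)) := by ring
          _ ≤ _ := by gcongr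
      · simp only [if_neg hc]
        rw [Ex_const, mul_zero]

lemma Ex_explicit_Rv (h0 : 0 ≤ ε) (h1 : ε ≤ 1) (hθ : 0 ≤ θ) (hFm : ∀ a b, 0 ≤ Fm a b)
    (hF : ∀ a b, Ex ε U (fun C => Real.exp (θ * L pos C a b)) ≤ Fm a b)
    (sk : List (Option E × E)) (hnd : (Zl sk).Nodup) (hZ : (Zl sk).toFinset ⊆ U) (M s : ℕ × ℕ) :
    Ex ε U (fun C => if (Zl sk).toFinset ⊆ C then
      Rv pos θ (C \ (Zl sk).toFinset) B M s sk else 0) ≤ Wt pos ε θ Fm B M s sk := by
  rw [Ex_explicit ε hZ (fun C => Rv pos θ C B M s sk), List.toFinset_card_of_nodup hnd]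
  refine le_trans ?_ (Ex_Rv (U := U) h0 h1 hFm hF sk M s)
  apply mul_le_mul_of_nonneg_left _ (by positivity)
  exact Ex_subset_le h0 h1 sdiff_subset (fun C1 C2 h => Rv_mono hθ h _ _ _ _)

/-- All skeletons of length `m` with elements in `U`. -/
def skl (U : Finset E) : ℕ → Finset (List (Option E × E))
  | 0 => {[]}
  | m + 1 => ((insertNone U ×ˢ U) ×ˢ skl U m).image (fun p => p.1 :: p.2)

lemma sum_skl_succ (U : Finset E) (m : ℕ) (f : List (Option E × E) → ℝ) :
    ∑ sk ∈ skl U (m + 1), f sk = ∑ e ∈ U, ∑ sk ∈ skl U m, f ((none, e) :: sk) +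
      ∑ b ∈ U, ∑ e ∈ U, ∑ sk ∈ skl U m, f ((some b, e) :: sk) := by
  rw [skl, sum_image]
  · rw [sum_product, sum_product, sum_insertNone]
  · intro p _ q _ h
    simp only [List.cons.injEq] at h
    exact Prod.ext h.1 h.2

lemma mem_skl (U : Finset E) (sk : List (Option E × E)) (h : ∀ e ∈ Zl sk, e ∈ U) :
    sk ∈ skl U sk.length := by
  induction sk with
  | nil => simp [skl]
  | cons it sk ih =>
    obtain ⟨ob, e⟩ := it
    simp only [List.length_cons, skl, mem_image, mem_product]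
    refine ⟨((ob, e), sk), ?_, rfl⟩
    cases ob with
    | none =>
      simp only [Zl, List.mem_cons] at h
      refine ⟨⟨by simp, h e (Or.inl rfl)⟩, ih (fun f hf => h f (Or.inr hf))⟩
    | some b =>
      simp only [Zl, List.mem_cons] at h
      refine ⟨⟨by simpa using h b (Or.inl rfl), h e (Or.inr (Or.inl rfl))⟩,
        ih (fun f hf => h f (Or.inr (Or.inr hf)))⟩

lemma length_le_Zl (sk : List (Option E × E)) : sk.length ≤ (Zl sk).length := by
  induction sk with
  | nil => simp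
  | cons it sk ih =>
    obtain ⟨ob, e⟩ := it
    cases ob with
    | none => simp only [Zl, List.length_cons]; omega
    | some b => simp only [Zl, List.length_cons]; omega

/-- Sum over skeletons from one-step bounds. -/
lemma sum_Wt (h0 : 0 ≤ ε) (hFm : ∀ a b, 0 ≤ Fm a b) (hU : ∀ e ∈ U, lt2 (pos e) B)
    {Pot : ℕ × ℕ → ℕ × ℕ → ℝ} {ρ1 ρ2 : ℝ} (hρ1 : 0 ≤ ρ1) (hρ2 : 0 ≤ ρ2)
    (hend : ∀ M s, le2 s M → le2 M B → Fm M B ≤ Pot M s)
    (hB : ∀ M s, le2 s M → le2 M B → ∑ e ∈ U, (if lt2 M (pos e) then 0 else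
        ε * Real.exp (θ * (1 - dl s (pos e))) * Pot (jn M (pos e)) (pos e)) ≤ ρ1 * Pot M s)
    (hA : ∀ M s, le2 s M → le2 M B → ∑ b ∈ U, ∑ e ∈ U,
        (if lt2 M (pos b) ∧ ¬ lt2 (pos b) (pos e) then
        ε ^ 2 * Real.exp (θ * (2 - dl (pos b) (pos e))) * Fm M (pos b) *
          Pot (jn (pos b) (pos e)) (pos e) else 0) ≤ ρ2 * Pot M s) (m : ℕ) :
    ∀ M s, le2 s M → le2 M B →
      ∑ sk ∈ skl U m, Wt pos ε θ Fm B M s sk ≤ (ρ1 + ρ2) ^ m * Pot M s := by
  induction m with
  | zero =>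
    intro M s hs hM
    simp only [skl, sum_singleton, Wt, pow_zero, one_mul]
    exact hend M s hs hM
  | succ m ih =>
    intro M s hs hM
    rw [sum_skl_succ]
    have hle : ∀ M' : ℕ × ℕ, le2 M' B → ∀ e ∈ U, le2 (jn M' (pos e)) B := by
      intro M' hM' e he
      have := (hU e he).le2
      exact ⟨max_le hM'.1 this.1, max_le hM'.2 this.2⟩
    have p1 : ∑ e ∈ U, ∑ sk ∈ skl U m, Wt pos ε θ Fm B M s ((none, e) :: sk) ≤
        (ρ1 + ρ2) ^ m * (ρ1 * Pot M s) := by
      refine le_trans ?_ (mul_le_mul_of_nonneg_left (hB M s hs hM) (by positivity))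
      rw [mul_sum]
      apply sum_le_sum
      intro e he
      simp only [Wt]
      by_cases hc : lt2 M (pos e)
      · simp only [if_pos hc, sum_const_zero, mul_zero, le_refl]
      · simp only [if_neg hc]
        rw [← mul_sum]
        have h3 := ih (jn M (pos e)) (pos e) (le2_jn_right _ _) (hle M hM e he)
        have h4 : (0 : ℝ) ≤ ε * Real.exp (θ * (1 - dl s (pos e))) :=
          mul_nonneg h0 (Real.exp_pos _).le
        calc _ ≤ ε * Real.exp (θ * (1 - dl s (pos e))) *
              ((ρ1 + ρ2) ^ m * Pot (jn M (pos e)) (pos e)) := mul_le_mul_of_nonneg_left h3 h4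
          _ = _ := by ring
    have p2 : ∑ b ∈ U, ∑ e ∈ U, ∑ sk ∈ skl U m, Wt pos ε θ Fm B M s ((some b, e) :: sk) ≤
        (ρ1 + ρ2) ^ m * (ρ2 * Pot M s) := by
      refine le_trans ?_ (mul_le_mul_of_nonneg_left (hA M s hs hM) (by positivity))
      rw [mul_sum]
      apply sum_le_sum
      intro b hb
      rw [mul_sum]
      apply sum_le_sum
      intro e he
      simp only [Wt]
      by_cases hc : lt2 M (pos b) ∧ ¬ lt2 (pos b) (pos e)
      · simp only [if_pos hc]
        rw [← mul_sum]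
        have h3 := ih (jn (pos b) (pos e)) (pos e) (le2_jn_right _ _)
          (hle (pos b) (hU b hb).le2 e he)
        have h4 : (0 : ℝ) ≤ ε ^ 2 * Real.exp (θ * (2 - dl (pos b) (pos e))) * Fm M (pos b) :=
          mul_nonneg (mul_nonneg (by positivity) (Real.exp_pos _).le) (hFm _ _)
        calc _ ≤ ε ^ 2 * Real.exp (θ * (2 - dl (pos b) (pos e))) * Fm M (pos b) *
              ((ρ1 + ρ2) ^ m * Pot (jn (pos b) (pos e)) (pos e)) :=
              mul_le_mul_of_nonneg_left h3 h4
          _ = _ := by ring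
      · simp only [if_neg hc, sum_const_zero, mul_zero, le_refl]
    calc _ ≤ (ρ1 + ρ2) ^ m * (ρ1 * Pot M s) + (ρ1 + ρ2) ^ m * (ρ2 * Pot M s) := add_le_add p1 p2
      _ = (ρ1 + ρ2) ^ (m + 1) * Pot M s := by ring

/-- The exponential moment bound for sequences of distinct elements. -/
theorem Ex_sval_le (h0 : 0 ≤ ε) (h1 : ε ≤ 1) (hθ : 0 ≤ θ) (hFm : ∀ a b, 0 ≤ Fm a b)
    (hF : ∀ a b, Ex ε U (fun C => Real.exp (θ * L pos C a b)) ≤ Fm a b)
    (hU : ∀ e ∈ U, lt2 (pos e) B)
    {Pot : ℕ × ℕ → ℕ × ℕ → ℝ} {ρ1 ρ2 : ℝ} (hρ1 : 0 ≤ ρ1) (hρ2 : 0 ≤ ρ2)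
    (hend : ∀ M s, le2 s M → le2 M B → Fm M B ≤ Pot M s)
    (hB : ∀ M s, le2 s M → le2 M B → ∑ e ∈ U, (if lt2 M (pos e) then 0 else
        ε * Real.exp (θ * (1 - dl s (pos e))) * Pot (jn M (pos e)) (pos e)) ≤ ρ1 * Pot M s)
    (hA : ∀ M s, le2 s M → le2 M B → ∑ b ∈ U, ∑ e ∈ U,
        (if lt2 M (pos b) ∧ ¬ lt2 (pos b) (pos e) then
        ε ^ 2 * Real.exp (θ * (2 - dl (pos b) (pos e))) * Fm M (pos b) *
          Pot (jn (pos b) (pos e)) (pos e) else 0) ≤ ρ2 * Pot M s)
    (F : Finset E → ℝ) (hFl : ∀ C ⊆ U, ∃ l : List E, l.Nodup ∧ (∀ e ∈ l, e ∈ C) ∧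
      F C ≤ Real.exp (θ * sval pos (0, 0) l)) :
    Ex ε U F ≤ (∑ m ∈ range (U.card + 1), (ρ1 + ρ2) ^ m) * Pot (0, 0) (0, 0) := by
  classical
  have hpt : ∀ C ⊆ U, F C ≤ ∑ m ∈ range (U.card + 1), ∑ sk ∈ skl U m,
      (if (Zl sk).Nodup ∧ (Zl sk).toFinset ⊆ U then
        (if (Zl sk).toFinset ⊆ C then
          Rv pos θ (C \ (Zl sk).toFinset) B (0, 0) (0, 0) sk else 0) else 0) := by
    intro C hC
    obtain ⟨l, hl1, hl2, hl3⟩ := hFl C hC
    obtain ⟨sk, s1, s2, s3⟩ := exists_skeleton (pos := pos) hθ B l hl1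
      (fun e he => hU e (hC (hl2 e he))) (0, 0) (0, 0)
    have hZC : (Zl sk).toFinset ⊆ C := fun e he => hl2 e (s2 e (List.mem_toFinset.1 he))
    have hlen : sk.length ∈ range (U.card + 1) := by
      rw [mem_range]
      have h2 := length_le_Zl sk
      have h3 : (Zl sk).length = (Zl sk).toFinset.card := (List.toFinset_card_of_nodup s1).symm
      have h4 := card_le_card (hZC.trans hC)
      omega
    have hterm : ∀ sk : List (Option E × E), 0 ≤ (if (Zl sk).Nodup ∧ (Zl sk).toFinset ⊆ U then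
        (if (Zl sk).toFinset ⊆ C then
          Rv pos θ (C \ (Zl sk).toFinset) B (0, 0) (0, 0) sk else 0) else 0) := by
      intro sk
      split_ifs
      · exact Rv_nonneg _ _ _ _ _ _
      · exact le_rfl
      · exact le_rfl
    calc F C ≤ Real.exp (θ * sval pos (0, 0) l) := hl3
      _ ≤ Rv pos θ (l.toFinset \ (Zl sk).toFinset) B (0, 0) (0, 0) sk := s3
      _ ≤ Rv pos θ (C \ (Zl sk).toFinset) B (0, 0) (0, 0) sk := by
          apply Rv_mono hθ
          apply sdiff_subset_sdiff _ le_rfl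
          intro e he
          exact hl2 e (List.mem_toFinset.1 he)
      _ = (if (Zl sk).Nodup ∧ (Zl sk).toFinset ⊆ U then
        (if (Zl sk).toFinset ⊆ C then
          Rv pos θ (C \ (Zl sk).toFinset) B (0, 0) (0, 0) sk else 0) else 0) := by
          rw [if_pos ⟨s1, hZC.trans hC⟩, if_pos hZC]
      _ ≤ ∑ sk ∈ skl U sk.length, (if (Zl sk).Nodup ∧ (Zl sk).toFinset ⊆ U then
        (if (Zl sk).toFinset ⊆ C then
          Rv pos θ (C \ (Zl sk).toFinset) B (0, 0) (0, 0) sk else 0) else 0) :=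
          single_le_sum (f := fun sk => (if (Zl sk).Nodup ∧ (Zl sk).toFinset ⊆ U then
            (if (Zl sk).toFinset ⊆ C then
            Rv pos θ (C \ (Zl sk).toFinset) B (0, 0) (0, 0) sk else 0) else 0))
            (fun sk _ => hterm sk) (mem_skl U sk (fun e he =>
              hC (hZC (List.mem_toFinset.2 he))))
      _ ≤ _ := single_le_sum (f := fun m => ∑ sk ∈ skl U m,
            (if (Zl sk).Nodup ∧ (Zl sk).toFinset ⊆ U then
            (if (Zl sk).toFinset ⊆ C then
            Rv pos θ (C \ (Zl sk).toFinset) B (0, 0) (0, 0) sk else 0) else 0))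
            (fun m _ => sum_nonneg (fun sk _ => hterm sk)) hlen
  refine (Ex_mono h0 h1 hpt).trans ?_
  rw [Ex_sum, sum_mul]
  apply sum_le_sum
  intro m _
  rw [Ex_sum]
  refine le_trans ?_ (sum_Wt (pos := pos) h0 hFm hU hρ1 hρ2 hend hB hA m (0, 0) (0, 0)
    (le2_refl _) ⟨Nat.zero_le _, Nat.zero_le _⟩)
  apply sum_le_sum
  intro sk _
  by_cases hc : (Zl sk).Nodup ∧ (Zl sk).toFinset ⊆ U
  · simp only [if_pos hc]
    exact Ex_explicit_Rv h0 h1 hθ hFm hF sk hc.1 hc.2 _ _
  · simp only [if_neg hc]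
    rw [Ex_const]
    exact Wt_nonneg h0 hFm sk _ _

end Pool.Agent.Work.MP_465a95_pr
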