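import Mathlib
import Pool.Agent.Work.MP_465a95_pr.Defs
import Pool.Agent.Work.MP_465a95_pr.SkelExp

/-!
One-step bounds for the sum over skeletons.
-/

open Finset

namespace Pool.Agent.Work.MP_465a95_pr

lemma geo_inj {r : ℝ} (h0 : 0 ≤ r) (h1 : r < 1) (T : Finset ℕ) (g : ℕ → ℕ)
    (hg : Set.InjOn g T) : ∑ t ∈ T, r ^ g t ≤ (1 - r)⁻¹ := by
  rw [← sum_image (f := fun j => r ^ j) hg, ← tsum_geometric_of_lt_one h0 h1]
  exact (summable_geometric_of_lt_one h0 h1).sum_le_tsum _ (fun i _ => by positivity)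

/-- One-dimensional transition factor. -/
noncomputable def ph (θ μ : ℝ) (M s t : ℕ) : ℝ :=
  Real.exp (-(θ * ((s - t : ℕ) : ℝ)) + μ * ((M : ℝ) - max M t) +
    θ / 2 * (((max M t : ℕ) : ℝ) - t - (M - s)))

lemma ph_pos (θ μ : ℝ) (M s t : ℕ) : 0 < ph θ μ M s t := Real.exp_pos _

lemma exp_nsmul' (c : ℝ) (k : ℕ) : Real.exp (-(c * k)) = Real.exp (-c) ^ k := by
  rw [← Real.exp_nat_mul]; congr 1; ring

lemma sum_ph_le {θ μ : ℝ} (hθ : 0 < θ) {M s : ℕ} (hs : s ≤ M) (N : ℕ) :
    ∑ t ∈ (range N).filter (fun t => t ≤ M), ph θ μ M s t ≤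
      2 * (1 - Real.exp (-(θ / 2)))⁻¹ := by
  have hr0 : 0 ≤ Real.exp (-(θ / 2)) := (Real.exp_pos _).le
  have hr1 : Real.exp (-(θ / 2)) < 1 := by rw [Real.exp_lt_one_iff]; linarith
  rw [← sum_filter_add_sum_filter_not _ (fun t => t ≤ s), two_mul]
  apply add_le_add
  · calc ∑ t ∈ ((range N).filter (fun t => t ≤ M)).filter (fun t => t ≤ s), ph θ μ M s t
        = ∑ t ∈ ((range N).filter (fun t => t ≤ M)).filter (fun t => t ≤ s),
            Real.exp (-(θ / 2)) ^ (s - t) := by
          apply sum_congr rfl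
          intro t ht
          rw [mem_filter, mem_filter] at ht
          rw [← exp_nsmul']
          unfold ph
          have h1 : max M t = M := max_eq_left ht.1.2
          rw [h1]
          have h2 : ((s - t : ℕ) : ℝ) = s - t := Nat.cast_sub ht.2
          rw [h2]
          congr 1
          push_cast
          ring
      _ ≤ _ := by
          apply geo_inj hr0 hr1
          intro a ha b hb hab
          rw [mem_coe, mem_filter] at ha hb
          have h5 := ha.2
          have h6 := hb.2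
          beta_reduce at hab
          omega
  · calc ∑ t ∈ ((range N).filter (fun t => t ≤ M)).filter (fun t => ¬ t ≤ s), ph θ μ M s t
        = ∑ t ∈ ((range N).filter (fun t => t ≤ M)).filter (fun t => ¬ t ≤ s),
            Real.exp (-(θ / 2)) ^ (t - s) := by
          apply sum_congr rfl
          intro t ht
          rw [mem_filter, mem_filter] at ht
          rw [← exp_nsmul']
          unfold ph
          have h1 : max M t = M := max_eq_left ht.1.2
          have hst : s ≤ t := by omega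
          have h4 : s - t = 0 := by omega
          rw [h1, h4]
          have h2 : ((t - s : ℕ) : ℝ) = t - s := Nat.cast_sub hst
          rw [h2]
          congr 1
          push_cast
          ring
      _ ≤ _ := by
          apply geo_inj hr0 hr1
          intro a ha b hb hab
          rw [mem_coe, mem_filter] at ha hb
          have h5 := ha.2
          have h6 := hb.2
          beta_reduce at hab
          omega

lemma sum_ph_gt {θ μ : ℝ} (hθ : 0 < θ) (hμ : 0 < μ) {M s : ℕ} (hs : s ≤ M) (N : ℕ) :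
    ∑ t ∈ (range N).filter (fun t => ¬ t ≤ M), ph θ μ M s t ≤ (1 - Real.exp (-μ))⁻¹ := by
  have hr0 : 0 ≤ Real.exp (-μ) := (Real.exp_pos _).le
  have hr1 : Real.exp (-μ) < 1 := by rw [Real.exp_lt_one_iff]; linarith
  calc ∑ t ∈ (range N).filter (fun t => ¬ t ≤ M), ph θ μ M s t
      ≤ ∑ t ∈ (range N).filter (fun t => ¬ t ≤ M), Real.exp (-μ) ^ (t - M) := by
        apply sum_le_sum
        intro t ht
        rw [mem_filter] at ht
        rw [← exp_nsmul']
        unfold ph
        have hMt : M ≤ t := by omega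
        have h1 : max M t = t := max_eq_right hMt
        have h4 : s - t = 0 := by omega
        rw [h1, h4]
        have h2 : ((t - M : ℕ) : ℝ) = t - M := Nat.cast_sub hMt
        rw [h2]
        apply Real.exp_le_exp.2
        push_cast
        have h5 : (s : ℝ) ≤ M := by exact_mod_cast hs
        nlinarith
    _ ≤ _ := by
        apply geo_inj hr0 hr1
        intro a ha b hb hab
        rw [mem_coe, mem_filter] at ha hb
        have h5 := ha.2
        have h6 := hb.2
        beta_reduce at hab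
        omega

/-- The potential. -/
noncomputable def Pot (θ μ : ℝ) (B M s : ℕ × ℕ) : ℝ :=
  Real.exp (μ * (((B.1 : ℝ) - M.1) + ((B.2 : ℝ) - M.2)) +
    θ / 2 * (((M.1 : ℝ) - s.1) + ((M.2 : ℝ) - s.2)))

lemma step_factor (θ μ : ℝ) (B M s t : ℕ × ℕ) :
    Real.exp (θ * (1 - dl s t)) * Pot θ μ B (jn M t) t =
      Real.exp θ * Pot θ μ B M s * (ph θ μ M.1 s.1 t.1 * ph θ μ M.2 s.2 t.2) := by
  unfold Pot ph dl jn
  rw [← Real.exp_add, ← Real.exp_add, ← Real.exp_add, ← Real.exp_add]
  congr 1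
  push_cast
  ring

lemma sum_U_le {B : ℕ × ℕ} {U : Finset Edge} (hU : ∀ e ∈ U, lt2 (src e) B)
    (f : ℕ → ℕ → ℝ) (hf : ∀ x y, 0 ≤ f x y) :
    ∑ e ∈ U, f (src e).1 (src e).2 ≤ 2 * ∑ x ∈ range B.1, ∑ y ∈ range B.2, f x y := by
  have hsub : U ⊆ range B.1 ×ˢ range B.2 ×ˢ (univ : Finset Bool) := by
    intro e he
    have := hU e he
    simp only [mem_product, mem_range, mem_univ, and_true]
    exact ⟨this.1, this.2⟩
  calc ∑ e ∈ U, f (src e).1 (src e).2
      ≤ ∑ e ∈ range B.1 ×ˢ range B.2 ×ˢ (univ : Finset Bool), f (src e).1 (src e).2 :=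
        sum_le_sum_of_subset_of_nonneg hsub (fun e _ _ => hf _ _)
    _ = 2 * ∑ x ∈ range B.1, ∑ y ∈ range B.2, f x y := by
        rw [sum_product, mul_sum]
        apply sum_congr rfl
        intro x _
        rw [sum_product, mul_sum]
        apply sum_congr rfl
        intro y _
        simp only [src, sum_const, card_univ, Fintype.card_bool]
        simp

/-- First one-step bound. -/
lemma step_B {ε θ μ : ℝ} (h0 : 0 ≤ ε) (hθ : 0 < θ) (hμ : 0 < μ) {B : ℕ × ℕ} {U : Finset Edge}
    (hU : ∀ e ∈ U, lt2 (src e) B) (M s : ℕ × ℕ) (hs : le2 s M) :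
    ∑ e ∈ U, (if lt2 M (src e) then 0 else
        ε * Real.exp (θ * (1 - dl s (src e))) * Pot θ μ B (jn M (src e)) (src e)) ≤
      (4 * ε * Real.exp θ * (2 * (1 - Real.exp (-(θ / 2)))⁻¹) *
        (2 * (1 - Real.exp (-(θ / 2)))⁻¹ + (1 - Real.exp (-μ))⁻¹)) * Pot θ μ B M s := by
  set K1 : ℝ := 2 * (1 - Real.exp (-(θ / 2)))⁻¹ with hK1
  set K2 : ℝ := (1 - Real.exp (-μ))⁻¹ with hK2
  have hr1 : Real.exp (-(θ / 2)) < 1 := by rw [Real.exp_lt_one_iff]; linarith
  have hr2 : Real.exp (-μ) < 1 := by rw [Real.exp_lt_one_iff]; linarith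
  have hK1p : 0 < K1 := by
    have : 0 < 1 - Real.exp (-(θ / 2)) := by linarith
    positivity
  have hK2p : 0 < K2 := by
    have : 0 < 1 - Real.exp (-μ) := by linarith
    positivity
  have hPot : 0 < Pot θ μ B M s := Real.exp_pos _
  set a : ℕ → ℝ := fun x => ph θ μ M.1 s.1 x with ha
  set b : ℕ → ℝ := fun y => ph θ μ M.2 s.2 y with hb
  have ha0 : ∀ x, 0 < a x := fun x => ph_pos _ _ _ _ _
  have hb0 : ∀ x, 0 < b x := fun x => ph_pos _ _ _ _ _
  have hterm : ∀ e ∈ U, (if lt2 M (src e) then 0 else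
        ε * Real.exp (θ * (1 - dl s (src e))) * Pot θ μ B (jn M (src e)) (src e)) ≤
      (ε * Real.exp θ * Pot θ μ B M s) *
        (((if (src e).1 ≤ M.1 then 1 else 0) + (if (src e).2 ≤ M.2 then 1 else 0)) *
          (a (src e).1 * b (src e).2)) := by
    intro e _
    have hpos1 := ha0 (src e).1
    have hpos2 := hb0 (src e).2
    have hc : 0 ≤ ε * Real.exp θ * Pot θ μ B M s := by positivity
    by_cases hlt : lt2 M (src e)
    · rw [if_pos hlt]
      apply mul_nonneg hc
      apply mul_nonneg _ (by positivity)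
      split_ifs <;> norm_num
    · rw [if_neg hlt, mul_assoc ε, step_factor]
      have hone : (1 : ℝ) ≤ (if (src e).1 ≤ M.1 then 1 else 0) + (if (src e).2 ≤ M.2 then 1 else 0) := by
        unfold lt2 at hlt
        by_cases h1 : (src e).1 ≤ M.1
        · rw [if_pos h1]; split_ifs <;> norm_num
        · have h2 : (src e).2 ≤ M.2 := by omega
          rw [if_pos h2]; split_ifs; norm_num
      calc ε * (Real.exp θ * Pot θ μ B M s * (ph θ μ M.1 s.1 (src e).1 * ph θ μ M.2 s.2 (src e).2))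
          = (ε * Real.exp θ * Pot θ μ B M s) * (1 * (a (src e).1 * b (src e).2)) := by
            simp only [ha, hb]; ring
        _ ≤ _ := by gcongr
  refine (sum_le_sum hterm).trans ?_
  rw [← mul_sum]
  have hsum := sum_U_le hU (fun x y => ((if x ≤ M.1 then 1 else 0) + (if y ≤ M.2 then 1 else 0)) *
          (a x * b y)) (fun x y => by
            have h1 := ha0 x
            have h2 := hb0 y
            apply mul_nonneg _ (by positivity)
            split_ifs <;> norm_num)
  have hsplit : ∑ x ∈ range B.1, ∑ y ∈ range B.2,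
      (((if x ≤ M.1 then 1 else 0) + (if y ≤ M.2 then 1 else 0)) * (a x * b y)) =
      (∑ x ∈ (range B.1).filter (fun x => x ≤ M.1), a x) * (∑ y ∈ range B.2, b y) +
      (∑ x ∈ range B.1, a x) * (∑ y ∈ (range B.2).filter (fun y => y ≤ M.2), b y) := by
    rw [sum_filter, sum_filter, sum_mul_sum, sum_mul_sum, ← sum_add_distrib]
    apply sum_congr rfl
    intro x _
    rw [← sum_add_distrib]
    apply sum_congr rfl
    intro y _
    split_ifs <;> ring
  have A1 : ∑ x ∈ (range B.1).filter (fun x => x ≤ M.1), a x ≤ K1 := sum_ph_le hθ hs.1 _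
  have B1 : ∑ y ∈ (range B.2).filter (fun y => y ≤ M.2), b y ≤ K1 := sum_ph_le hθ hs.2 _
  have A2 : ∑ x ∈ range B.1, a x ≤ K1 + K2 := by
    rw [← sum_filter_add_sum_filter_not _ (fun x => x ≤ M.1)]
    exact add_le_add A1 (sum_ph_gt hθ hμ hs.1 _)
  have B2 : ∑ y ∈ range B.2, b y ≤ K1 + K2 := by
    rw [← sum_filter_add_sum_filter_not _ (fun y => y ≤ M.2)]
    exact add_le_add B1 (sum_ph_gt hθ hμ hs.2 _)
  have A0 : 0 ≤ ∑ x ∈ (range B.1).filter (fun x => x ≤ M.1), a x := sum_nonneg fun x _ => (ha0 x).le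
  have A0' : 0 ≤ ∑ x ∈ range B.1, a x := sum_nonneg fun x _ => (ha0 x).le
  have B0 : 0 ≤ ∑ y ∈ (range B.2).filter (fun y => y ≤ M.2), b y := sum_nonneg fun x _ => (hb0 x).le
  have B0' : 0 ≤ ∑ y ∈ range B.2, b y := sum_nonneg fun x _ => (hb0 x).le
  have hfin : ∑ e ∈ U, (((if (src e).1 ≤ M.1 then 1 else 0) + (if (src e).2 ≤ M.2 then 1 else 0)) *
          (a (src e).1 * b (src e).2)) ≤ 2 * (K1 * (K1 + K2) + (K1 + K2) * K1) := by
    refine hsum.trans ?_
    rw [hsplit]
    have h1 : (∑ x ∈ (range B.1).filter (fun x => x ≤ M.1), a x) * (∑ y ∈ range B.2, b y) ≤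
        K1 * (K1 + K2) := mul_le_mul A1 B2 B0' hK1p.le
    have h2 : (∑ x ∈ range B.1, a x) * (∑ y ∈ (range B.2).filter (fun y => y ≤ M.2), b y) ≤
        (K1 + K2) * K1 := mul_le_mul A2 B1 B0 (by positivity)
    linarith
  calc _ ≤ (ε * Real.exp θ * Pot θ μ B M s) * (2 * (K1 * (K1 + K2) + (K1 + K2) * K1)) := by
        apply mul_le_mul_of_nonneg_left hfin; positivity
    _ = _ := by ring

/-- Second one-step bound. -/
lemma step_A {ε θ μ μ0 ρ : ℝ} (h0 : 0 ≤ ε) (hθ : 0 < θ) (hμ : μ0 < μ)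
    (hρ : 0 ≤ ρ) {B : ℕ × ℕ} {U : Finset Edge} (hU : ∀ e ∈ U, lt2 (src e) B)
    (hB : ∀ M s, le2 s M → ∑ e ∈ U, (if lt2 M (src e) then 0 else
        ε * Real.exp (θ * (1 - dl s (src e))) * Pot θ μ B (jn M (src e)) (src e)) ≤
      ρ * Pot θ μ B M s) (M s : ℕ × ℕ) (hs : le2 s M) :
    ∑ b ∈ U, ∑ e ∈ U, (if lt2 M (src b) ∧ ¬ lt2 (src b) (src e) then
        ε ^ 2 * Real.exp (θ * (2 - dl (src b) (src e))) *
          Real.exp (μ0 * ((((src b).1 - M.1 : ℕ) : ℝ) + (((src b).2 - M.2 : ℕ) : ℝ))) *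
          Pot θ μ B (jn (src b) (src e)) (src e) else 0) ≤
      (2 * ε * Real.exp θ * (1 - Real.exp (-(μ - μ0)))⁻¹ ^ 2 * ρ) * Pot θ μ B M s := by
  set lam : ℝ := μ - μ0 with hlam
  have hlam0 : 0 < lam := by rw [hlam]; linarith
  have hr0 : 0 ≤ Real.exp (-lam) := (Real.exp_pos _).le
  have hr1 : Real.exp (-lam) < 1 := by rw [Real.exp_lt_one_iff]; linarith
  set K3 : ℝ := (1 - Real.exp (-lam))⁻¹ with hK3
  have hK3p : 0 < K3 := by
    have : 0 < 1 - Real.exp (-lam) := by linarith
    positivity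
  have hPot : 0 < Pot θ μ B M s := Real.exp_pos _
  -- bound for fixed b
  have hterm : ∀ b ∈ U, ∑ e ∈ U, (if lt2 M (src b) ∧ ¬ lt2 (src b) (src e) then
        ε ^ 2 * Real.exp (θ * (2 - dl (src b) (src e))) *
          Real.exp (μ0 * ((((src b).1 - M.1 : ℕ) : ℝ) + (((src b).2 - M.2 : ℕ) : ℝ))) *
          Pot θ μ B (jn (src b) (src e)) (src e) else 0) ≤
      (ε * Real.exp θ * ρ * Pot θ μ B M s) *
        ((if ¬ (src b).1 ≤ M.1 then Real.exp (-lam) ^ ((src b).1 - M.1) else 0) *
          (if ¬ (src b).2 ≤ M.2 then Real.exp (-lam) ^ ((src b).2 - M.2) else 0)) := by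
    intro b hb
    have hc : 0 ≤ ε * Real.exp θ * ρ * Pot θ μ B M s := by positivity
    by_cases hlt : lt2 M (src b)
    · have hx : ¬ (src b).1 ≤ M.1 := not_le.2 hlt.1
      have hy : ¬ (src b).2 ≤ M.2 := not_le.2 hlt.2
      rw [if_pos hx, if_pos hy]
      set F := Real.exp (μ0 * ((((src b).1 - M.1 : ℕ) : ℝ) + (((src b).2 - M.2 : ℕ) : ℝ))) with hF
      have e1 : ∀ e ∈ U, (if lt2 M (src b) ∧ ¬ lt2 (src b) (src e) then
        ε ^ 2 * Real.exp (θ * (2 - dl (src b) (src e))) * F *
          Pot θ μ B (jn (src b) (src e)) (src e) else 0) =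
          (ε * Real.exp θ * F) * (if lt2 (src b) (src e) then 0 else
            ε * Real.exp (θ * (1 - dl (src b) (src e))) *
            Pot θ μ B (jn (src b) (src e)) (src e)) := by
        intro e _
        by_cases h2 : lt2 (src b) (src e)
        · rw [if_pos h2, if_neg (fun h => h.2 h2), mul_zero]
        · rw [if_neg h2, if_pos ⟨hlt, h2⟩]
          have : Real.exp (θ * (2 - dl (src b) (src e))) =
              Real.exp θ * Real.exp (θ * (1 - dl (src b) (src e))) := by
            rw [← Real.exp_add]; congr 1; ring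
          rw [this]; ring
      rw [sum_congr rfl e1, ← mul_sum]
      have h3 := hB (src b) (src b) (le2_refl _)
      have h4 : 0 ≤ ε * Real.exp θ * F := by positivity
      refine (mul_le_mul_of_nonneg_left h3 h4).trans ?_
      have c1 : (((src b).1 - M.1 : ℕ) : ℝ) = (src b).1 - M.1 := Nat.cast_sub hlt.1.le
      have c2 : (((src b).2 - M.2 : ℕ) : ℝ) = (src b).2 - M.2 := Nat.cast_sub hlt.2.le
      have e2 : F * Pot θ μ B (src b) (src b) =
          Pot θ μ B M M * (Real.exp (-lam) ^ ((src b).1 - M.1) *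
            Real.exp (-lam) ^ ((src b).2 - M.2)) := by
        rw [← exp_nsmul', ← exp_nsmul', hF, c1, c2]
        unfold Pot
        rw [← Real.exp_add, ← Real.exp_add, ← Real.exp_add]
        congr 1
        rw [hlam]
        ring
      have e3 : Pot θ μ B M M ≤ Pot θ μ B M s := by
        unfold Pot
        apply Real.exp_le_exp.2
        have h5 : (s.1 : ℝ) ≤ M.1 := by exact_mod_cast hs.1
        have h6 : (s.2 : ℝ) ≤ M.2 := by exact_mod_cast hs.2
        nlinarith
      calc ε * Real.exp θ * F * (ρ * Pot θ μ B (src b) (src b))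
          = (ε * Real.exp θ * ρ) * (F * Pot θ μ B (src b) (src b)) := by ring
        _ = (ε * Real.exp θ * ρ) * (Pot θ μ B M M * (Real.exp (-lam) ^ ((src b).1 - M.1) *
            Real.exp (-lam) ^ ((src b).2 - M.2))) := by rw [e2]
        _ ≤ (ε * Real.exp θ * ρ) * (Pot θ μ B M s * (Real.exp (-lam) ^ ((src b).1 - M.1) *
            Real.exp (-lam) ^ ((src b).2 - M.2))) := by gcongr
        _ = _ := by ring
    · have e1 : ∀ e ∈ U, (if lt2 M (src b) ∧ ¬ lt2 (src b) (src e) then
        ε ^ 2 * Real.exp (θ * (2 - dl (src b) (src e))) *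
          Real.exp (μ0 * ((((src b).1 - M.1 : ℕ) : ℝ) + (((src b).2 - M.2 : ℕ) : ℝ))) *
          Pot θ μ B (jn (src b) (src e)) (src e) else 0) = 0 := by
        intro e _
        rw [if_neg (fun h => hlt h.1)]
      rw [sum_eq_zero e1]
      apply mul_nonneg hc
      apply mul_nonneg <;> split_ifs <;> positivity
  refine (sum_le_sum hterm).trans ?_
  rw [← mul_sum]
  have hsum := sum_U_le hU (fun x y =>
      (if ¬ x ≤ M.1 then Real.exp (-lam) ^ (x - M.1) else 0) *
          (if ¬ y ≤ M.2 then Real.exp (-lam) ^ (y - M.2) else 0)) (fun x y => by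
            apply mul_nonneg <;> split_ifs <;> positivity)
  have hone : ∀ (N m : ℕ), ∑ x ∈ range N, (if ¬ x ≤ m then Real.exp (-lam) ^ (x - m) else 0) ≤ K3 := by
    intro N m
    rw [← sum_filter]
    apply geo_inj hr0 hr1
    intro a ha b hb hab
    rw [mem_coe, mem_filter] at ha hb
    have h5 := ha.2
    have h6 := hb.2
    beta_reduce at hab
    omega
  have hone0 : ∀ (N m : ℕ), 0 ≤ ∑ x ∈ range N, (if ¬ x ≤ m then Real.exp (-lam) ^ (x - m) else 0) := by
    intro N m
    apply sum_nonneg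
    intro x _
    split_ifs <;> positivity
  have hfin : ∑ b ∈ U, ((if ¬ (src b).1 ≤ M.1 then Real.exp (-lam) ^ ((src b).1 - M.1) else 0) *
          (if ¬ (src b).2 ≤ M.2 then Real.exp (-lam) ^ ((src b).2 - M.2) else 0)) ≤
      2 * (K3 * K3) := by
    refine hsum.trans ?_
    rw [← sum_mul_sum]
    have := mul_le_mul (hone B.1 M.1) (hone B.2 M.2) (hone0 _ _) hK3p.le
    linarith
  calc _ ≤ (ε * Real.exp θ * ρ * Pot θ μ B M s) * (2 * (K3 * K3)) := by
        apply mul_le_mul_of_nonneg_left hfin; positivity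
    _ = _ := by ring

end Pool.Agent.Work.MP_465a95_pr
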