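import Mathlib
import Pool.Agent.Work.MP_465a95_pr.Defs
import Pool.Agent.Work.MP_465a95_pr.Skel

/-!
Planar duality: construction of a flow from the potential of dual walks.
-/

open Finset

namespace Pool.Agent.Work.MP_465a95_pr

/-- Face before crossing an edge in the forward direction. -/
def bef (e : Edge) : ℤ × ℤ := if e.2.2 then ((e.1 : ℤ) - 1, (e.2.1 : ℤ)) else ((e.1 : ℤ), (e.2.1 : ℤ))

/-- Face after crossing an edge in the forward direction. -/
def aft (e : Edge) : ℤ × ℤ := if e.2.2 then ((e.1 : ℤ), (e.2.1 : ℤ)) else ((e.1 : ℤ), (e.2.1 : ℤ) - 1)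

/-- Number of backward steps needed to go from `f` to `g`. -/
def cst (f g : ℤ × ℤ) : ℤ := max (f.1 - g.1) 0 + max (g.2 - f.2) 0

lemma cst_nonneg (f g : ℤ × ℤ) : 0 ≤ cst f g := by unfold cst; positivity

lemma cst_self (f : ℤ × ℤ) : cst f f = 0 := by simp [cst]

lemma cst_triangle (f g h : ℤ × ℤ) : cst f h ≤ cst f g + cst g h := by
  unfold cst
  omega

lemma neg_cst_le (f g : ℤ × ℤ) : -cst f g ≤ (g.1 - f.1) + (f.2 - g.2) := by
  unfold cst
  omega

lemma aft_bef (e : Edge) : ((aft e).1 - (bef e).1) + ((bef e).2 - (aft e).2) = 1 := by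
  unfold aft bef
  split_ifs <;> simp

lemma cst_bef_aft (e : Edge) : cst (bef e) (aft e) = 0 := by
  unfold cst aft bef
  split_ifs <;> simp

lemma cst_aft_bef (e : Edge) : cst (aft e) (bef e) = 1 := by
  unfold cst aft bef
  split_ifs <;> simp

/-- Value of a dual walk from `f` to `g` collecting the edges of `l`. -/
def fval (f : ℤ × ℤ) : List Edge → ℤ × ℤ → ℤ
  | [], g => -cst f g
  | e :: l, g => 1 - cst f (bef e) + fval (aft e) l g

lemma fval_le (l : List Edge) : ∀ f g, fval f l g ≤ (g.1 - f.1) + (f.2 - g.2) := by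
  induction l with
  | nil => intro f g; exact neg_cst_le f g
  | cons e l ih =>
    intro f g
    have h1 := ih (aft e) g
    have h2 := neg_cst_le f (bef e)
    have h3 := aft_bef e
    simp only [fval]
    omega

lemma fval_append (l1 : List Edge) (e : Edge) (l2 : List Edge) : ∀ f g,
    fval f (l1 ++ e :: l2) g = fval f l1 (bef e) + 1 + fval (aft e) l2 g := by
  induction l1 with
  | nil => intro f g; simp only [List.nil_append, fval]; ring
  | cons a l1 ih =>
    intro f g
    simp only [List.cons_append, fval, ih]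
    ring

lemma fval_target (l : List Edge) : ∀ f g g', fval f l g' - cst g' g ≤ fval f l g := by
  induction l with
  | nil =>
    intro f g g'
    simp only [fval]
    have := cst_triangle f g' g
    omega
  | cons e l ih =>
    intro f g g'
    have := ih (aft e) g g'
    simp only [fval]
    omega

lemma fval_nodup (N : ℕ) : ∀ (l : List Edge), l.length ≤ N → ∀ f g, ∃ l' : List Edge, l'.Nodup ∧
    (∀ e ∈ l', e ∈ l) ∧ fval f l g ≤ fval f l' g := by
  induction N with
  | zero =>
    intro l hl f g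
    have : l = [] := List.length_eq_zero_iff.1 (by omega)
    subst this
    exact ⟨[], List.nodup_nil, by simp, le_rfl⟩
  | succ N ih =>
    intro l hl f g
    cases l with
    | nil => exact ⟨[], List.nodup_nil, by simp, le_rfl⟩
    | cons e l2 =>
      by_cases he : e ∈ l2
      · obtain ⟨a, b, rfl⟩ := List.append_of_mem he
        obtain ⟨l', h1, h2, h3⟩ := ih (e :: b) (by
          simp only [List.length_cons, List.length_append] at hl ⊢; omega) f g
        refine ⟨l', h1, ?_, ?_⟩
        · intro x hx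
          have := h2 x hx
          simp only [List.mem_cons, List.mem_append] at this ⊢
          tauto
        · refine le_trans ?_ h3
          simp only [fval, fval_append]
          have h4 := fval_le a (aft e) (bef e)
          have h5 := aft_bef e
          omega
      · obtain ⟨l', h1, h2, h3⟩ := ih l2 (by simp only [List.length_cons] at hl; omega) (aft e) g
        refine ⟨e :: l', ?_, ?_, ?_⟩
        · rw [List.nodup_cons]
          exact ⟨fun h => he (h2 e h), h1⟩
        · intro x hx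
          rcases List.mem_cons.1 hx with rfl | hx
          · simp
          · exact List.mem_cons_of_mem _ (h2 x hx)
        · simp only [fval]
          omega

/-- The starting face. -/
def f0 (n : ℕ) : ℤ × ℤ := (-1, (n : ℤ) - 2)

/-- The final face. -/
def f1 (n : ℕ) : ℤ × ℤ := ((n : ℤ) - 2, -1)

/-- The potential. -/
noncomputable def H (n : ℕ) (C : Finset Edge) (g : ℤ × ℤ) : ℤ :=
  sSup {v | ∃ l : List Edge, (∀ e ∈ l, e ∈ C) ∧ v = fval (f0 n) l g}

lemma H_bdd (n : ℕ) (C : Finset Edge) (g : ℤ × ℤ) :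
    BddAbove {v | ∃ l : List Edge, (∀ e ∈ l, e ∈ C) ∧ v = fval (f0 n) l g} := by
  refine ⟨(g.1 - (f0 n).1) + ((f0 n).2 - g.2), ?_⟩
  rintro v ⟨l, _, rfl⟩
  exact fval_le _ _ _

lemma exists_H (n : ℕ) (C : Finset Edge) (g : ℤ × ℤ) :
    ∃ l : List Edge, (∀ e ∈ l, e ∈ C) ∧ H n C g = fval (f0 n) l g := by
  have hne : {v | ∃ l : List Edge, (∀ e ∈ l, e ∈ C) ∧ v = fval (f0 n) l g}.Nonempty :=
    ⟨fval (f0 n) [] g, [], by simp, rfl⟩
  exact Int.csSup_mem hne (H_bdd n C g)

lemma le_H (n : ℕ) (C : Finset Edge) (g : ℤ × ℤ) {l : List Edge} (hl : ∀ e ∈ l, e ∈ C) :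
    fval (f0 n) l g ≤ H n C g := le_csSup (H_bdd n C g) ⟨l, hl, rfl⟩

lemma H_start (n : ℕ) (C : Finset Edge) : H n C (f0 n) = 0 := by
  apply le_antisymm
  · obtain ⟨l, _, h⟩ := exists_H n C (f0 n)
    rw [h]
    have := fval_le l (f0 n) (f0 n)
    omega
  · have := le_H n C (f0 n) (l := []) (by simp)
    simp only [fval, cst_self] at this
    omega

lemma H_cst (n : ℕ) (C : Finset Edge) (g g' : ℤ × ℤ) : H n C g' - cst g' g ≤ H n C g := by
  obtain ⟨l, hl, h⟩ := exists_H n C g'
  rw [h]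
  exact (fval_target l _ _ _).trans (le_H n C g hl)

lemma H_le_succ (n : ℕ) (C : Finset Edge) (e : Edge) : H n C (aft e) ≤ H n C (bef e) + 1 := by
  have := H_cst n C (bef e) (aft e)
  rw [cst_aft_bef] at this
  omega

lemma H_mono (n : ℕ) (C : Finset Edge) (e : Edge) : H n C (bef e) ≤ H n C (aft e) := by
  have := H_cst n C (aft e) (bef e)
  rw [cst_bef_aft] at this
  omega

lemma H_closed (n : ℕ) (C : Finset Edge) {e : Edge} (he : e ∈ C) :
    H n C (aft e) = H n C (bef e) + 1 := by
  apply le_antisymm (H_le_succ n C e)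
  obtain ⟨l, hl, h⟩ := exists_H n C (bef e)
  rw [h]
  have h1 := le_H n C (aft e) (l := l ++ [e]) (by
    intro x hx
    rcases List.mem_append.1 hx with hx | hx
    · exact hl x hx
    · rw [List.mem_singleton] at hx; rw [hx]; exact he)
  rw [fval_append] at h1
  simp only [fval, cst_self] at h1
  omega

/-- Edges carrying flow. -/
def Fl (n : ℕ) (C : Finset Edge) (e : Edge) : Prop := H n C (aft e) = H n C (bef e)

lemma Fl_not_mem {n : ℕ} {C : Finset Edge} {e : Edge} (h : Fl n C e) : e ∉ C := by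
  intro he
  have := H_closed n C he
  unfold Fl at h
  omega

/-- The four increments around a vertex. -/
lemma around (n : ℕ) (C : Finset Edge) (x y : ℕ) :
    (H n C (aft (x, y + 1, false)) - H n C (bef (x, y + 1, false))) +
      (H n C (aft (x + 1, y, true)) - H n C (bef (x + 1, y, true))) =
    (H n C (aft (x + 1, y + 1, false)) - H n C (bef (x + 1, y + 1, false))) +
      (H n C (aft (x + 1, y + 1, true)) - H n C (bef (x + 1, y + 1, true))) := by
  simp only [aft, bef, if_true, Bool.false_eq_true, if_false]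
  push_cast
  have e1 : ((x : ℤ) + 1 - 1, (y : ℤ)) = ((x : ℤ), (y : ℤ)) := by simp
  have e2 : ((x : ℤ) + 1 - 1, (y : ℤ) + 1) = ((x : ℤ), (y : ℤ) + 1) := by simp
  have e3 : ((x : ℤ), (y : ℤ) + 1 - 1) = ((x : ℤ), (y : ℤ)) := by simp
  have e4 : ((x : ℤ) + 1, (y : ℤ) + 1 - 1) = ((x : ℤ) + 1, (y : ℤ)) := by simp
  rw [e1, e2, e3, e4]
  ring

lemma Fl_both_out {n : ℕ} {C : Finset Edge} {x y : ℕ} (h1 : Fl n C (x + 1, y + 1, false))
    (h2 : Fl n C (x + 1, y + 1, true)) : Fl n C (x, y + 1, false) ∧ Fl n C (x + 1, y, true) := by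
  have h := around n C x y
  have a1 := H_mono n C (x, y + 1, false)
  have a2 := H_mono n C (x + 1, y, true)
  unfold Fl at h1 h2 ⊢
  constructor <;> omega

lemma Fl_one_out {n : ℕ} {C : Finset Edge} {x y : ℕ}
    (h : Fl n C (x + 1, y + 1, false) ∨ Fl n C (x + 1, y + 1, true)) :
    Fl n C (x, y + 1, false) ∨ Fl n C (x + 1, y, true) := by
  have h0 := around n C x y
  have a1 := H_mono n C (x, y + 1, false)
  have a2 := H_mono n C (x + 1, y, true)
  have a3 := H_le_succ n C (x, y + 1, false)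
  have a4 := H_le_succ n C (x + 1, y, true)
  have a5 := H_le_succ n C (x + 1, y + 1, false)
  have a6 := H_le_succ n C (x + 1, y + 1, true)
  unfold Fl at h ⊢
  omega

open Classical in
/-- Previous edge of a flow edge. -/
noncomputable def prv (n : ℕ) (C : Finset Edge) (e : Edge) : Edge :=
  if Fl n C (e.1 - 1, e.2.1, false) ∧ Fl n C (e.1, e.2.1 - 1, true) then
    (if e.2.2 then (e.1, e.2.1 - 1, true) else (e.1 - 1, e.2.1, false))
  else if Fl n C (e.1 - 1, e.2.1, false) then (e.1 - 1, e.2.1, false)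
  else (e.1, e.2.1 - 1, true)

lemma prv_cases (n : ℕ) (C : Finset Edge) (e : Edge) :
    prv n C e = (e.1 - 1, e.2.1, false) ∨ prv n C e = (e.1, e.2.1 - 1, true) := by
  unfold prv
  split_ifs <;> simp

lemma tgt_prv {n : ℕ} {C : Finset Edge} {e : Edge} (h1 : 1 ≤ e.1) (h2 : 1 ≤ e.2.1) :
    tgt (prv n C e) = src e := by
  rcases prv_cases n C e with h | h <;> rw [h] <;> simp [tgt, src] <;> omega

lemma Fl_prv {n : ℕ} {C : Finset Edge} {e : Edge} (h1 : 1 ≤ e.1) (h2 : 1 ≤ e.2.1)
    (he : Fl n C e) : Fl n C (prv n C e) := by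
  classical
  obtain ⟨a, b, c⟩ := e
  simp only at h1 h2
  obtain ⟨x, rfl⟩ : ∃ x, a = x + 1 := ⟨a - 1, by omega⟩
  obtain ⟨y, rfl⟩ : ∃ y, b = y + 1 := ⟨b - 1, by omega⟩
  have hor : Fl n C (x, y + 1, false) ∨ Fl n C (x + 1, y, true) := by
    apply Fl_one_out
    cases c
    · exact Or.inl he
    · exact Or.inr he
  unfold prv
  simp only [Nat.add_sub_cancel]
  split_ifs with h3 h4 h5
  · exact h3.2
  · exact h3.1
  · exact h5
  · exact hor.resolve_left h5

lemma prv_inj {n : ℕ} {C : Finset Edge} {e e' : Edge} (h1 : 1 ≤ e.1) (h2 : 1 ≤ e.2.1)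
    (h1' : 1 ≤ e'.1) (h2' : 1 ≤ e'.2.1) (he : Fl n C e) (he' : Fl n C e')
    (h : prv n C e = prv n C e') : e = e' := by
  classical
  have hs : src e = src e' := by
    rw [← tgt_prv (n := n) (C := C) h1 h2, h, tgt_prv h1' h2']
  obtain ⟨a, b, c⟩ := e
  obtain ⟨a', b', c'⟩ := e'
  simp only [src, Prod.mk.injEq] at hs
  obtain ⟨rfl, rfl⟩ := hs
  by_contra hne
  have hcc : c ≠ c' := fun hh => hne (by rw [hh])
  simp only at h1 h2
  obtain ⟨x, rfl⟩ : ∃ x, a = x + 1 := ⟨a - 1, by omega⟩
  obtain ⟨y, rfl⟩ : ∃ y, b = y + 1 := ⟨b - 1, by omega⟩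
  have hboth : Fl n C (x + 1, y + 1, false) ∧ Fl n C (x + 1, y + 1, true) := by
    cases c <;> cases c' <;> simp_all
  have h3 := Fl_both_out hboth.1 hboth.2
  unfold prv at h
  simp only [Nat.add_sub_cancel] at h
  rw [if_pos h3, if_pos h3] at h
  cases c <;> cases c' <;> simp_all

end Pool.Agent.Work.MP_465a95_pr
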