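import Mathlib
import Pool.Agent.Work.MP_465a95_pr.Flow

/-!
Decomposition of the flow into edge-disjoint paths; lower bound for `V`.
-/

open Finset

namespace Pool.Agent.Work.MP_465a95_pr

lemma mem_edges {n : ℕ} {e : Edge} :
    e ∈ edges n ↔ (e.1 < n ∧ e.2.1 < n) ∧ ((tgt e).1 < n ∧ (tgt e).2 < n) := by
  unfold edges
  simp

open Classical in
/-- Backward path starting at `e`. -/
noncomputable def rp (n : ℕ) (C : Finset Edge) : ℕ → Edge → List Edge
  | 0, e => [e]
  | k + 1, e => if InS n (src e) then [e] else e :: rp n C k (prv n C e)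

/-- Flow edges starting outside of `T`. -/
def Good (n : ℕ) (C : Finset Edge) (e : Edge) : Prop :=
  e ∈ edges n ∧ Fl n C e ∧ e.1 ≤ n - 2 ∧ e.2.1 ≤ n - 2

lemma Good.pos {n : ℕ} {C : Finset Edge} {e : Edge} (h : Good n C e) (hS : ¬ InS n (src e)) :
    1 ≤ e.1 ∧ 1 ≤ e.2.1 := by
  unfold InS src at hS
  obtain ⟨_, _, h1, h2⟩ := h
  simp only at hS
  omega

lemma Good.prv {n : ℕ} {C : Finset Edge} {e : Edge} (h : Good n C e) (hS : ¬ InS n (src e)) :
    Good n C (prv n C e) := by
  obtain ⟨p1, p2⟩ := h.pos hS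
  obtain ⟨h1, h2, h3, h4⟩ := h
  rw [mem_edges] at h1
  have ht := tgt_prv (n := n) (C := C) p1 p2
  have hF := Fl_prv p1 p2 h2
  refine ⟨?_, hF, ?_, ?_⟩
  · rw [mem_edges, ht]
    refine ⟨?_, h1.1⟩
    rcases prv_cases n C e with h | h <;> rw [h] <;> simp only <;> omega
  · rcases prv_cases n C e with h | h <;> rw [h] <;> simp only <;> omega
  · rcases prv_cases n C e with h | h <;> rw [h] <;> simp only <;> omega

lemma rp_head (n : ℕ) (C : Finset Edge) (k : ℕ) (e : Edge) : (rp n C k e).head? = some e := by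
  classical
  cases k with
  | zero => rfl
  | succ k => unfold rp; split_ifs <;> rfl

lemma rp_ne_nil (n : ℕ) (C : Finset Edge) (k : ℕ) (e : Edge) : rp n C k e ≠ [] := by
  intro h
  have := rp_head n C k e
  rw [h] at this
  simp at this

lemma rp_good {n : ℕ} {C : Finset Edge} (k : ℕ) : ∀ e, Good n C e → ∀ x ∈ rp n C k e, Good n C x := by
  classical
  induction k with
  | zero =>
    intro e he x hx
    simp only [rp, List.mem_singleton] at hx
    rw [hx]; exact he
  | succ k ih =>
    intro e he x hx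
    unfold rp at hx
    split_ifs at hx with hS
    · simp only [List.mem_singleton] at hx
      rw [hx]; exact he
    · rcases List.mem_cons.1 hx with rfl | hx
      · exact he
      · exact ih _ (he.prv hS) x hx

lemma rp_chain {n : ℕ} {C : Finset Edge} (k : ℕ) : ∀ e, Good n C e →
    (rp n C k e).IsChain (fun a b => tgt b = src a) := by
  classical
  induction k with
  | zero => intro e _; simp [rp]
  | succ k ih =>
    intro e he
    unfold rp
    split_ifs with hS
    · simp
    · obtain ⟨p1, p2⟩ := he.pos hS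
      rw [List.isChain_cons]
      refine ⟨?_, ih _ (he.prv hS)⟩
      intro y hy
      rw [rp_head] at hy
      simp only [Option.mem_def, Option.some.injEq] at hy
      rw [← hy]
      exact tgt_prv p1 p2

lemma rp_last {n : ℕ} {C : Finset Edge} (k : ℕ) : ∀ e, Good n C e → e.1 + e.2.1 ≤ k →
    ∃ x, (rp n C k e).getLast? = some x ∧ InS n (src x) := by
  classical
  induction k with
  | zero =>
    intro e he hk
    refine ⟨e, rfl, ?_⟩
    unfold InS src
    simp only
    omega
  | succ k ih =>
    intro e he hk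
    unfold rp
    split_ifs with hS
    · exact ⟨e, rfl, hS⟩
    · obtain ⟨p1, p2⟩ := he.pos hS
      obtain ⟨x, hx1, hx2⟩ := ih _ (he.prv hS) (by
        rcases prv_cases n C e with h | h <;> rw [h] <;> simp only <;> omega)
      refine ⟨x, ?_, hx2⟩
      rw [List.getLast?_cons, hx1]
      rfl

lemma mem_rp {n : ℕ} {C : Finset Edge} (k : ℕ) : ∀ e, ∀ x ∈ rp n C k e, ∃ i,
    x = (prv n C)^[i] e ∧ ∀ i' < i, ¬ InS n (src ((prv n C)^[i'] e)) := by
  classical
  induction k with
  | zero =>
    intro e x hx
    simp only [rp, List.mem_singleton] at hx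
    exact ⟨0, hx, by simp⟩
  | succ k ih =>
    intro e x hx
    unfold rp at hx
    split_ifs at hx with hS
    · simp only [List.mem_singleton] at hx
      exact ⟨0, hx, by simp⟩
    · rcases List.mem_cons.1 hx with rfl | hx
      · exact ⟨0, rfl, by simp⟩
      · obtain ⟨i, h1, h2⟩ := ih _ x hx
        refine ⟨i + 1, ?_, ?_⟩
        · rw [Function.iterate_succ_apply]; exact h1
        · intro i' hi'
          cases i' with
          | zero => exact hS
          | succ i' =>
            rw [Function.iterate_succ_apply]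
            exact h2 i' (by omega)

lemma good_iter {n : ℕ} {C : Finset Edge} {e : Edge} (he : Good n C e) (i : ℕ) :
    (∀ i' < i, ¬ InS n (src ((prv n C)^[i'] e))) → Good n C ((prv n C)^[i] e) := by
  induction i with
  | zero => intro _; exact he
  | succ i ih =>
    intro h
    rw [Function.iterate_succ_apply']
    exact (ih (fun i' hi' => h i' (by omega))).prv (h i (by omega))

lemma iter_inj {n : ℕ} {C : Finset Edge} {e e' : Edge} (he : Good n C e) (he' : Good n C e')
    (i : ℕ) : ∀ j, i ≤ j → (∀ i' < i, ¬ InS n (src ((prv n C)^[i'] e))) →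
    (∀ j' < j, ¬ InS n (src ((prv n C)^[j'] e'))) →
    (prv n C)^[i] e = (prv n C)^[j] e' → e = (prv n C)^[j - i] e' := by
  induction i with
  | zero => intro j _ _ _ h; exact h
  | succ i ih =>
    intro j hij h1 h2 h
    obtain ⟨j', rfl⟩ : ∃ j', j = j' + 1 := ⟨j - 1, by omega⟩
    rw [Function.iterate_succ_apply', Function.iterate_succ_apply'] at h
    have g1 := good_iter he i (fun i' hi' => h1 i' (by omega))
    have g2 := good_iter he' j' (fun i' hi' => h2 i' (by omega))
    obtain ⟨p1, p2⟩ := g1.pos (h1 i (by omega))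
    obtain ⟨p3, p4⟩ := g2.pos (h2 j' (by omega))
    have h3 := prv_inj p1 p2 p3 p4 g1.2.1 g2.2.1 h
    have h4 := ih j' (by omega) (fun i' hi' => h1 i' (by omega)) (fun i' hi' => h2 i' (by omega)) h3
    rw [show j' + 1 - (i + 1) = j' - i by omega]
    exact h4

lemma rp_disjoint_aux {n : ℕ} (hn : 2 ≤ n) {C : Finset Edge} {e e' : Edge} (he : Good n C e)
    (he' : Good n C e') (hT : InT n (tgt e)) {i j : ℕ} (hij : i ≤ j)
    (h1 : ∀ i' < i, ¬ InS n (src ((prv n C)^[i'] e)))
    (h2 : ∀ j' < j, ¬ InS n (src ((prv n C)^[j'] e')))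
    (h : (prv n C)^[i] e = (prv n C)^[j] e') : e = e' := by
  have h3 := iter_inj he he' i j hij h1 h2 h
  rcases Nat.eq_zero_or_pos (j - i) with h0 | h0
  · rw [h0] at h3; exact h3
  · exfalso
    obtain ⟨d, hd⟩ : ∃ d, j - i = d + 1 := ⟨j - i - 1, by omega⟩
    rw [hd, Function.iterate_succ_apply'] at h3
    have g2 := good_iter he' d (fun i' hi' => h2 i' (by omega))
    obtain ⟨p1, p2⟩ := g2.pos (h2 d (by omega))
    have h4 := tgt_prv (n := n) (C := C) p1 p2
    rw [← h3] at h4
    obtain ⟨_, _, g3, g4⟩ := g2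
    rw [h4] at hT
    unfold InT src at hT
    simp only at hT
    omega

lemma rp_disjoint {n : ℕ} (hn : 2 ≤ n) {C : Finset Edge} {e e' : Edge} (he : Good n C e)
    (he' : Good n C e') (hT : InT n (tgt e)) (hT' : InT n (tgt e')) (k : ℕ) (hne : e ≠ e') :
    (rp n C k e).Disjoint (rp n C k e') := by
  intro x hx hx'
  obtain ⟨i, h1, h2⟩ := mem_rp k e x hx
  obtain ⟨j, h3, h4⟩ := mem_rp k e' x hx'
  apply hne
  rcases le_total i j with hij | hij
  · exact rp_disjoint_aux hn he he' hT hij h2 h4 (h1.symm.trans h3)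
  · exact (rp_disjoint_aux hn he' he hT' hij h4 h2 (h3.symm.trans h1)).symm

lemma isOpenPath_rp {n : ℕ} {C : Finset Edge} {e : Edge} (he : Good n C e)
    (hT : InT n (tgt e)) : IsOpenPath n C (rp n C (e.1 + e.2.1 + 2 * n) e).reverse := by
  refine ⟨?_, ?_, ?_, ?_⟩
  · intro x hx
    rw [List.mem_reverse] at hx
    have := rp_good _ e he x hx
    exact ⟨this.1, Fl_not_mem this.2.1⟩
  · rw [List.isChain_reverse]
    exact rp_chain _ e he
  · obtain ⟨x, h1, h2⟩ := rp_last (e.1 + e.2.1 + 2 * n) e he (by omega)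
    refine ⟨x, ?_, h2⟩
    rw [List.head?_reverse, h1]
  · refine ⟨e, ?_, hT⟩
    rw [List.getLast?_reverse, rp_head]

/-- The set of numbers of pairwise disjoint open paths is bounded. -/
lemma V_bdd (n : ℕ) (C : Finset Edge) : BddAbove {k : ℕ | ∃ P : Fin k → List Edge,
    (∀ i, IsOpenPath n C (P i)) ∧ ∀ i j, i ≠ j → (P i).Disjoint (P j)} := by
  refine ⟨(edges n).card, ?_⟩
  rintro k ⟨P, h1, h2⟩
  choose f hf using fun i => (h1 i).2.2.1
  have hmem : ∀ i, f i ∈ P i := fun i => List.mem_of_mem_head? (hf i).1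
  have hinj : Function.Injective f := by
    intro i j hij
    by_contra hne
    exact h2 i j hne (hmem i) (hij ▸ hmem j)
  have := card_le_card_of_injOn f (s := univ) (t := edges n)
    (fun i _ => ((h1 i).1 _ (hmem i)).1) hinj.injOn
  simpa using this

lemma le_V {n : ℕ} {C : Finset Edge} {k : ℕ} (P : Fin k → List Edge)
    (h1 : ∀ i, IsOpenPath n C (P i)) (h2 : ∀ i j, i ≠ j → (P i).Disjoint (P j)) : k ≤ V n C :=
  le_csSup (V_bdd n C) ⟨P, h1, h2⟩

lemma card_le_V {n : ℕ} (hn : 2 ≤ n) {C : Finset Edge} (T0 : Finset Edge)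
    (h : ∀ e ∈ T0, Good n C e ∧ InT n (tgt e)) : T0.card ≤ V n C := by
  have hk : ∀ e ∈ T0, e.1 + e.2.1 ≤ 2 * n := by
    intro e he
    have := (mem_edges.1 (h e he).1.1).1
    omega
  apply le_V (fun i => (rp n C (2 * n) (T0.equivFin.symm i : Edge)).reverse)
  · intro i
    set e : Edge := (T0.equivFin.symm i : Edge) with he
    have hmem : e ∈ T0 := (T0.equivFin.symm i).2
    have hg := (h e hmem).1
    have hT := (h e hmem).2
    refine ⟨?_, ?_, ?_, ?_⟩
    · intro x hx
      rw [List.mem_reverse] at hx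
      have := rp_good _ e hg x hx
      exact ⟨this.1, Fl_not_mem this.2.1⟩
    · rw [List.isChain_reverse]
      exact rp_chain _ e hg
    · obtain ⟨x, h1, h2⟩ := rp_last (2 * n) e hg (hk e hmem)
      refine ⟨x, ?_, h2⟩
      rw [List.head?_reverse, h1]
    · refine ⟨e, ?_, hT⟩
      rw [List.getLast?_reverse, rp_head]
  · intro i j hij
    set e : Edge := (T0.equivFin.symm i : Edge) with he
    set e' : Edge := (T0.equivFin.symm j : Edge) with he'
    have hmem : e ∈ T0 := (T0.equivFin.symm i).2
    have hmem' : e' ∈ T0 := (T0.equivFin.symm j).2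
    have hne : e ≠ e' := by
      intro hh
      apply hij
      have : T0.equivFin.symm i = T0.equivFin.symm j := Subtype.ext hh
      exact T0.equivFin.symm.injective this
    have hd := rp_disjoint hn (h e hmem).1 (h e' hmem').1 (h e hmem).2 (h e' hmem').2 (2 * n) hne
    intro x hx hx'
    rw [List.mem_reverse] at hx hx'
    exact hd hx hx'

/-- Lower bound for `V` in terms of the potential. -/
lemma V_ge (N : ℕ) (C : Finset Edge) :
    2 * ((N : ℤ) + 1) - H (N + 2) C (f1 (N + 2)) ≤ V (N + 2) C := by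
  classical
  set n := N + 2 with hn
  set TU : Finset Edge := ((range (N + 1)).filter (fun x => Fl n C (x, N, true))).image
    (fun x => (x, N, true)) with hTU
  set TR : Finset Edge := ((range (N + 1)).filter (fun y => Fl n C (N, y, false))).image
    (fun y => (N, y, false)) with hTR
  have hgood : ∀ e ∈ TU ∪ TR, Good n C e ∧ InT n (tgt e) := by
    intro e he
    rcases mem_union.1 he with he | he
    · rw [hTU, mem_image] at he
      obtain ⟨x, hx, rfl⟩ := he
      rw [mem_filter, mem_range] at hx
      refine ⟨⟨?_, hx.2, ?_, ?_⟩, ?_⟩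
      · rw [mem_edges]; simp only [tgt, if_true]; omega
      · simp only; omega
      · simp only; omega
      · unfold InT; simp only [tgt, if_true]; omega
    · rw [hTR, mem_image] at he
      obtain ⟨y, hy, rfl⟩ := he
      rw [mem_filter, mem_range] at hy
      refine ⟨⟨?_, hy.2, ?_, ?_⟩, ?_⟩
      · rw [mem_edges]; simp only [tgt, Bool.false_eq_true, if_false]; omega
      · simp only; omega
      · simp only; omega
      · unfold InT; simp only [tgt, Bool.false_eq_true, if_false]; omega
  have hV := card_le_V (by omega) (TU ∪ TR) hgood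
  have hdisj : Disjoint TU TR := by
    rw [disjoint_left]
    intro e h1 h2
    rw [hTU, mem_image] at h1
    rw [hTR, mem_image] at h2
    obtain ⟨x, _, rfl⟩ := h1
    obtain ⟨y, _, h3⟩ := h2
    simp at h3
  have hcU : TU.card = ((range (N + 1)).filter (fun x => Fl n C (x, N, true))).card := by
    rw [hTU]
    apply card_image_of_injective
    intro a b hab
    simpa using hab
  have hcR : TR.card = ((range (N + 1)).filter (fun y => Fl n C (N, y, false))).card := by
    rw [hTR]
    apply card_image_of_injective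
    intro a b hab
    simpa using hab
  have hone : ∀ e : Edge, (if Fl n C e then (1 : ℤ) else 0) =
      1 - (H n C (aft e) - H n C (bef e)) := by
    intro e
    have h1 := H_mono n C e
    have h2 := H_le_succ n C e
    unfold Fl
    split_ifs with h <;> omega
  have hsU : ((((range (N + 1)).filter (fun x => Fl n C (x, N, true))).card : ℕ) : ℤ) =
      (N + 1) - (H n C ((N : ℤ), (N : ℤ)) - H n C (-1, (N : ℤ))) := by
    rw [card_filter]
    push_cast
    have e1 : ∀ x ∈ range (N + 1), (if Fl n C (x, N, true) then (1 : ℤ) else 0) =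
        1 - ((fun i : ℕ => H n C ((i : ℤ) - 1, (N : ℤ))) (x + 1) -
          (fun i : ℕ => H n C ((i : ℤ) - 1, (N : ℤ))) x) := by
      intro x _
      rw [hone]
      simp only [aft, bef, if_true]
      push_cast
      rw [show (x : ℤ) + 1 - 1 = x by ring]
    rw [sum_congr rfl e1, sum_sub_distrib]
    have h2 := sum_range_sub (fun i : ℕ => H n C ((i : ℤ) - 1, (N : ℤ))) (N + 1)
    rw [h2]
    push_cast
    simp
  have hsR : ((((range (N + 1)).filter (fun y => Fl n C (N, y, false))).card : ℕ) : ℤ) =
      (N + 1) - (H n C ((N : ℤ), -1) - H n C ((N : ℤ), (N : ℤ))) := by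
    rw [card_filter]
    push_cast
    have e1 : ∀ y ∈ range (N + 1), (if Fl n C (N, y, false) then (1 : ℤ) else 0) =
        1 + ((fun i : ℕ => H n C ((N : ℤ), (i : ℤ) - 1)) (y + 1) -
          (fun i : ℕ => H n C ((N : ℤ), (i : ℤ) - 1)) y) := by
      intro y _
      rw [hone]
      simp only [aft, bef, Bool.false_eq_true, if_false]
      push_cast
      rw [show (y : ℤ) + 1 - 1 = y by ring]
      ring
    rw [sum_congr rfl e1, sum_add_distrib]
    have h2 := sum_range_sub (fun i : ℕ => H n C ((N : ℤ), (i : ℤ) - 1)) (N + 1)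
    rw [h2]
    push_cast
    simp
    ring
  have hstart : H n C (-1, (N : ℤ)) = 0 := by
    have := H_start n C
    unfold f0 at this
    rw [hn] at this ⊢
    push_cast at this
    rw [show (N : ℤ) + 2 - 2 = N by ring] at this
    exact this
  have hend : H n C (f1 n) = H n C ((N : ℤ), -1) := by
    unfold f1
    rw [hn]
    push_cast
    rw [show (N : ℤ) + 2 - 2 = N by ring]
  rw [card_union_of_disjoint hdisj, hcU, hcR] at hV
  have hV' : ((((range (N + 1)).filter (fun x => Fl n C (x, N, true))).card : ℕ) : ℤ) +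
    ((((range (N + 1)).filter (fun y => Fl n C (N, y, false))).card : ℕ) : ℤ) ≤ V n C := by
    exact_mod_cast hV
  rw [hsU, hsR, hstart] at hV'
  rw [hend]
  linarith

end Pool.Agent.Work.MP_465a95_pr
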