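import Mathlib
import Pool.Agent.Work.MP_465a95_pr.Paths
import Pool.Agent.Work.MP_465a95_pr.Chain

/-!
Change of coordinates; the potential in terms of sequences; cuts.
-/

open Finset

namespace Pool.Agent.Work.MP_465a95_pr

/-- Reflected coordinates, in which dual walks go up and right. -/
def phi (n : ℕ) (e : Edge) : Edge := (e.1 + 1, n - e.2.1, e.2.2)

lemma phi_injOn (n : ℕ) : Set.InjOn (phi n) (edges n) := by
  intro e he f hf h
  rw [mem_coe, mem_edges] at he hf
  obtain ⟨a, b, c⟩ := e
  obtain ⟨a', b', c'⟩ := f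
  simp only [phi, Prod.mk.injEq] at h
  simp only at he hf
  obtain ⟨h1, h2, h3⟩ := h
  have h4 : a = a' := by omega
  have h5 : b = b' := by omega
  rw [h4, h5, h3]

lemma src_phi_lt {n : ℕ} {e : Edge} (he : e ∈ (edges n).image (phi n)) :
    lt2 (src e) (n + 1, n + 1) := by
  rw [mem_image] at he
  obtain ⟨f, hf, rfl⟩ := he
  rw [mem_edges] at hf
  constructor <;> simp only [src, phi] <;> omega

lemma dl_le_cst {n : ℕ} {e0 e : Edge} (h0 : e0 ∈ edges n) (he : e ∈ edges n) :
    (dl (src (phi n e0)) (src (phi n e)) : ℤ) ≤ cst (aft e0) (bef e) := by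
  rw [mem_edges] at h0 he
  obtain ⟨a, b, c⟩ := e0
  obtain ⟨a', b', c'⟩ := e
  simp only at h0 he
  cases c <;> cases c' <;>
    simp only [dl, src, phi, cst, aft, bef, if_true, Bool.false_eq_true, if_false] <;> omega

lemma fval_le_sval {n : ℕ} (l : List Edge) (g : ℤ × ℤ) : (∀ e ∈ l, e ∈ edges n) →
    ∀ (f : ℤ × ℤ) (s : ℕ × ℕ),
      (∀ e ∈ edges n, (dl s (src (phi n e)) : ℤ) ≤ cst f (bef e)) →
      fval f l g ≤ sval src s (l.map (phi n)) := by
  induction l with
  | nil =>
    intro _ f s _
    simp only [fval, List.map_nil, sval]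
    have := cst_nonneg f g
    omega
  | cons e l ih =>
    intro hl f s hs
    have he : e ∈ edges n := hl e (by simp)
    have h1 := ih (fun x hx => hl x (by simp [hx])) (aft e) (src (phi n e))
      (fun x hx => dl_le_cst he hx)
    have h2 := hs e he
    simp only [fval, List.map_cons, sval]
    omega

lemma H_le_sval (n : ℕ) {C : Finset Edge} (hC : C ⊆ edges n) : ∃ l : List Edge, l.Nodup ∧
    (∀ e ∈ l, e ∈ C.image (phi n)) ∧ H n C (f1 n) ≤ sval src (0, 0) l := by
  obtain ⟨l, hl, h⟩ := exists_H n C (f1 n)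
  obtain ⟨l', h1, h2, h3⟩ := fval_nodup l.length l le_rfl (f0 n) (f1 n)
  have hl' : ∀ e ∈ l', e ∈ C := fun e he => hl e (h2 e he)
  refine ⟨l'.map (phi n), ?_, ?_, ?_⟩
  · apply List.Nodup.map_on _ h1
    intro x hx y hy hxy
    exact phi_injOn n (mem_coe.2 (hC (hl' x hx))) (mem_coe.2 (hC (hl' y hy))) hxy
  · intro e he
    rw [List.mem_map] at he
    obtain ⟨f, hf, rfl⟩ := he
    exact mem_image_of_mem _ (hl' f hf)
  · rw [h]
    refine h3.trans ?_
    apply fval_le_sval l' (f1 n) (fun e he => hC (hl' e he))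
    intro e _
    have := cst_nonneg (f0 n) (bef e)
    simp only [dl, Nat.zero_sub]
    simpa using this

/-! ### Cuts -/

/-- A path from `A` to the complement of `A` crosses an edge from `A` to the complement. -/
lemma exists_cross (A : ℕ × ℕ → Prop) (l : List Edge) : l.IsChain (fun e f => tgt e = src f) →
    (∃ e, l.head? = some e ∧ A (src e)) → (∃ e, l.getLast? = some e ∧ ¬ A (tgt e)) →
    ∃ e ∈ l, A (src e) ∧ ¬ A (tgt e) := by
  classical
  induction l with
  | nil => intro _ h _; simp at h
  | cons a l ih =>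
    intro hc hh hl
    obtain ⟨e, he, hA⟩ := hh
    simp only [List.head?_cons, Option.some.injEq] at he
    subst he
    by_cases ht : A (tgt a)
    · cases l with
      | nil =>
        obtain ⟨e, he, hA'⟩ := hl
        simp only [List.getLast?_singleton, Option.some.injEq] at he
        subst he
        exact absurd ht hA'
      | cons b l =>
        rw [List.isChain_cons_cons] at hc
        obtain ⟨e, he, h1, h2⟩ := ih hc.2 ⟨b, rfl, hc.1 ▸ ht⟩ (by
          obtain ⟨e, he, hA'⟩ := hl
          rw [List.getLast?_cons_cons] at he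
          exact ⟨e, he, hA'⟩)
        exact ⟨e, List.mem_cons_of_mem _ he, h1, h2⟩
    · exact ⟨a, by simp, hA, ht⟩

/-- Upper bound for `V` from an antichain of closed edges. -/
lemma V_le_antichain (N : ℕ) (C K : Finset Edge) (hKC : K ⊆ C)
    (hK : ∀ e ∈ K, (1 ≤ e.1 ∧ e.1 ≤ N) ∧ (1 ≤ e.2.1 ∧ e.2.1 ≤ N))
    (hanti : ∀ e ∈ K, ∀ f ∈ K, ¬ ((tgt e).1 ≤ (src f).1 ∧ (tgt e).2 ≤ (src f).2)) :
    (V (N + 2) C : ℤ) ≤ 2 * ((N : ℤ) + 1) - K.card := by
  classical
  set n := N + 2 with hn
  set A : ℕ × ℕ → Prop := fun v => InS n v ∨ ∃ e ∈ K, v.1 ≤ (src e).1 ∧ v.2 ≤ (src e).2 with hA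
  have hdown : ∀ v v' : ℕ × ℕ, A v → v'.1 ≤ v.1 → v'.2 ≤ v.2 → A v' := by
    intro v v' hv h1 h2
    rcases hv with hv | ⟨e, he, h3, h4⟩
    · left
      unfold InS at hv ⊢
      omega
    · right
      exact ⟨e, he, h1.trans h3, h2.trans h4⟩
  have hAle : ∀ v, A v → v.1 ≤ N ∧ v.2 ≤ N := by
    intro v hv
    rcases hv with hv | ⟨e, he, h3, h4⟩
    · unfold InS at hv; omega
    · have := hK e he
      simp only [src] at h3 h4
      omega
  have hT : ∀ v, InT n v → ¬ A v := by
    intro v hv hv2
    have := hAle v hv2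
    unfold InT at hv
    omega
  set X : Finset Edge := (edges n).filter (fun e => A (src e) ∧ ¬ A (tgt e)) with hX
  -- the crossing edges
  have hXle : X.card ≤ 2 * (N + 1) := by
    have hsplit : X = X.filter (fun e => e.2.2 = true) ∪ X.filter (fun e => ¬ e.2.2 = true) :=
      (filter_union_filter_not_eq _ X).symm
    have h1 : (X.filter (fun e => e.2.2 = true)).card ≤ N + 1 := by
      have := card_le_card_of_injOn (fun e : Edge => e.1)
        (s := X.filter (fun e => e.2.2 = true)) (t := range (N + 1)) ?_ ?_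
      · simpa using this
      · intro e he
        rw [mem_coe, mem_filter, hX, mem_filter] at he
        have := hAle _ he.1.2.1
        simp only [src] at this
        rw [mem_coe, mem_range]
        change e.1 < N + 1
        omega
      · intro e he f hf hef
        rw [mem_coe, mem_filter, hX, mem_filter] at he hf
        obtain ⟨a, b, c⟩ := e
        obtain ⟨a', b', c'⟩ := f
        simp only at hef he hf
        obtain ⟨⟨_, he1, he2⟩, rfl⟩ := he
        obtain ⟨⟨_, hf1, hf2⟩, rfl⟩ := hf
        subst hef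
        simp only [src, tgt, if_true] at he1 he2 hf1 hf2
        have : b = b' := by
          rcases lt_trichotomy b b' with h | h | h
          · exact absurd (hdown (a, b') (a, b + 1) hf1 (le_refl a) h) he2
          · exact h
          · exact absurd (hdown (a, b) (a, b' + 1) he1 (le_refl a) h) hf2
        rw [this]
    have h2 : (X.filter (fun e => ¬ e.2.2 = true)).card ≤ N + 1 := by
      have := card_le_card_of_injOn (fun e : Edge => e.2.1)
        (s := X.filter (fun e => ¬ e.2.2 = true)) (t := range (N + 1)) ?_ ?_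
      · simpa using this
      · intro e he
        rw [mem_coe, mem_filter, hX, mem_filter] at he
        have := hAle _ he.1.2.1
        simp only [src] at this
        rw [mem_coe, mem_range]
        change e.2.1 < N + 1
        omega
      · intro e he f hf hef
        rw [mem_coe, mem_filter, hX, mem_filter] at he hf
        obtain ⟨a, b, c⟩ := e
        obtain ⟨a', b', c'⟩ := f
        simp only [Bool.not_eq_true] at hef he hf
        obtain ⟨⟨_, he1, he2⟩, rfl⟩ := he
        obtain ⟨⟨_, hf1, hf2⟩, rfl⟩ := hf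
        subst hef
        simp only [src, tgt, Bool.false_eq_true, if_false] at he1 he2 hf1 hf2
        have : a = a' := by
          rcases lt_trichotomy a a' with h | h | h
          · exact absurd (hdown (a', b) (a + 1, b) hf1 h (le_refl b)) he2
          · exact h
          · exact absurd (hdown (a, b) (a' + 1, b) he1 h (le_refl b)) hf2
        rw [this]
    rw [hsplit]
    refine (card_union_le _ _).trans ?_
    omega
  have hKX : K ⊆ X := by
    intro e he
    rw [hX, mem_filter]
    have h1 := hK e he
    refine ⟨?_, ?_, ?_⟩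
    · rw [mem_edges]
      unfold tgt
      split_ifs <;> simp only <;> omega
    · right
      exact ⟨e, he, le_rfl, le_rfl⟩
    · rintro (h2 | ⟨f, hf, h2⟩)
      · have h3 : 1 ≤ (tgt e).1 ∧ 1 ≤ (tgt e).2 := by
          unfold tgt
          split_ifs <;> simp only <;> omega
        unfold InS at h2
        omega
      · exact hanti e he f hf h2
  have hVX : V n C ≤ (X \ K).card := by
    apply csSup_le
    · exact ⟨0, fun i => i.elim0, fun i => i.elim0, fun i => i.elim0⟩
    · rintro k ⟨P, h1, h2⟩
      have hcross : ∀ i, ∃ e ∈ P i, A (src e) ∧ ¬ A (tgt e) := by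
        intro i
        obtain ⟨_, c2, ⟨e, c3, c4⟩, ⟨f, c5, c6⟩⟩ := h1 i
        exact exists_cross A (P i) c2 ⟨e, c3, Or.inl c4⟩ ⟨f, c5, hT _ c6⟩
      choose f hf using hcross
      have hinj : Function.Injective f := by
        intro i j hij
        by_contra hne
        exact h2 i j hne (hf i).1 (hij ▸ (hf j).1)
      have := card_le_card_of_injOn f (s := univ) (t := X \ K) (fun i _ => by
        rw [mem_coe, mem_sdiff, hX, mem_filter]
        have h3 := (h1 i).1 _ (hf i).1
        exact ⟨⟨h3.1, (hf i).2⟩, fun h => h3.2 (hKC h)⟩) hinj.injOn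
      simpa using this
  have hcard : (X \ K).card + K.card = X.card := card_sdiff_add_card_eq_card hKX
  have h3 : V n C + K.card ≤ 2 * (N + 1) := by omega
  have h4 : ((V n C + K.card : ℕ) : ℤ) ≤ ((2 * (N + 1) : ℕ) : ℤ) := by exact_mod_cast h3
  push_cast at h4
  linarith

/-- Upper bound for `V` in terms of the longest chain. -/
lemma V_le_L (N : ℕ) {C : Finset Edge} (hC : C ⊆ edges (N + 2)) :
    (V (N + 2) C : ℤ) ≤ 2 * ((N : ℤ) + 1) -
      L src (C.image (phi (N + 2))) (1, 1) (1 + 1 + N, 1 + 1 + N) := by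
  classical
  obtain ⟨K', hK', k1, k2, k3⟩ := exists_L (pos := src) (C.image (phi (N + 2))) (1, 1)
    (1 + 1 + N, 1 + 1 + N)
  set K : Finset Edge := C.filter (fun e => phi (N + 2) e ∈ K') with hK
  have hKimg : K.image (phi (N + 2)) = K' := by
    ext x
    rw [mem_image]
    constructor
    · rintro ⟨e, he, rfl⟩
      exact (mem_filter.1 he).2
    · intro hx
      obtain ⟨e, he, rfl⟩ := mem_image.1 (hK' hx)
      exact ⟨e, mem_filter.2 ⟨he, hx⟩, rfl⟩
  have hcard : K.card = K'.card := by
    rw [← hKimg]
    symm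
    apply card_image_of_injOn
    exact (phi_injOn (N + 2)).mono (fun e he => hC (mem_filter.1 he).1)
  have hKC : K ⊆ C := filter_subset _ _
  have := V_le_antichain N C K hKC ?_ ?_
  · rw [hcard, k3] at this
    exact this
  · intro e he
    have h1 := k1 _ (mem_filter.1 he).2
    have h2 := mem_edges.1 (hC (hKC he))
    unfold lt2 phi src at h1
    simp only at h1
    omega
  · intro e he f hf h
    by_cases hef : e = f
    · subst hef
      unfold tgt src at h
      split_ifs at h <;> simp only at h <;> omega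
    · have h2 := mem_edges.1 (hC (hKC he))
      have h2' := mem_edges.1 (hC (hKC hf))
      have hne : phi (N + 2) e ≠ phi (N + 2) f := fun hh =>
        hef (phi_injOn (N + 2) (mem_coe.2 (hC (hKC he))) (mem_coe.2 (hC (hKC hf))) hh)
      have hlt := k2 _ (mem_filter.1 he).2 _ (mem_filter.1 hf).2 hne
      obtain ⟨a, b, c⟩ := e
      obtain ⟨a', b', c'⟩ := f
      unfold lt2 phi src at hlt
      unfold tgt src at h
      simp only at hlt h h2 h2'
      cases c <;> simp only [if_true, Bool.false_eq_true, if_false] at h <;> omega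

end Pool.Agent.Work.MP_465a95_pr
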