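import Mathlib
import Pool.Agent.Work.MP_465a95_pr.OneStep
import Pool.Agent.Work.MP_465a95_pr.Moment
import Pool.Agent.Work.MP_465a95_pr.Walk

/-!
Lower bound for the expected flow.
-/

open Finset

namespace Pool.Agent.Work.MP_465a95_pr

/-- First one-step constant. -/
noncomputable def rho1 (ε θ μ : ℝ) : ℝ :=
  4 * ε * Real.exp θ * (2 * (1 - Real.exp (-(θ / 2)))⁻¹) *
    (2 * (1 - Real.exp (-(θ / 2)))⁻¹ + (1 - Real.exp (-μ))⁻¹)

/-- Second one-step constant. -/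
noncomputable def rho2 (ε θ μ lam : ℝ) : ℝ :=
  2 * ε * Real.exp θ * (1 - Real.exp (-lam))⁻¹ ^ 2 * rho1 ε θ μ

lemma rho1_nonneg {ε θ μ : ℝ} (h0 : 0 ≤ ε) (hθ : 0 < θ) (hμ : 0 < μ) : 0 ≤ rho1 ε θ μ := by
  unfold rho1
  have h1 : 0 < 1 - Real.exp (-(θ / 2)) := by
    have : Real.exp (-(θ / 2)) < 1 := by rw [Real.exp_lt_one_iff]; linarith
    linarith
  have h2 : 0 < 1 - Real.exp (-μ) := by
    have : Real.exp (-μ) < 1 := by rw [Real.exp_lt_one_iff]; linarith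
    linarith
  positivity

lemma rho2_nonneg {ε θ μ lam : ℝ} (h0 : 0 ≤ ε) (hθ : 0 < θ) (hμ : 0 < μ) :
    0 ≤ rho2 ε θ μ lam := by
  unfold rho2
  have := rho1_nonneg h0 hθ hμ
  positivity

/-- Exponential moment of the potential. -/
lemma exp_H {ε θ α lam : ℝ} (h0 : 0 ≤ ε) (h1 : ε ≤ 1) (hα0 : 0 ≤ α) (hα1 : α ≤ 1)
    (h : α * α = (1 - α) * (1 - α) * (2 * ε - ε ^ 2)) (hθ : 0 < θ) (hlam : 0 < lam)
    {μ : ℝ} (hμ : μ = (Real.exp (2 * θ) - 1) / 2 * α + lam)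
    (hρ : rho1 ε θ μ + rho2 ε θ μ lam ≤ 1 / 2) (N : ℕ) :
    Ex ε (edges (N + 2)) (fun C => Real.exp (θ * H (N + 2) C (f1 (N + 2)))) ≤
      2 * Real.exp (2 * μ * (N + 3)) := by
  classical
  set n := N + 2 with hn
  set x : ℝ := (Real.exp (2 * θ) - 1) / 2 with hx
  have hx0 : 0 ≤ x := by
    have := Real.one_le_exp (show 0 ≤ 2 * θ by linarith)
    rw [hx]; linarith
  set μ0 : ℝ := x * α with hμ0
  have hμ00 : 0 ≤ μ0 := by positivity
  have hμlam : μ - μ0 = lam := by rw [hμ]; ring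
  have hμpos : 0 < μ := by rw [hμ]; linarith
  set U : Finset Edge := (edges n).image (phi n) with hU
  set B : ℕ × ℕ := (n + 1, n + 1) with hB
  set Fm : ℕ × ℕ → ℕ × ℕ → ℝ := fun a b =>
    Real.exp (μ0 * (((b.1 - a.1 : ℕ) : ℝ) + ((b.2 - a.2 : ℕ) : ℝ))) with hFm
  set pre : Finset Edge → Finset Edge := fun C' => (edges n).filter (fun e => phi n e ∈ C') with hpre
  have hpre1 : ∀ C ⊆ edges n, pre (C.image (phi n)) = C := by
    intro C hC
    ext e
    simp only [hpre, mem_filter, mem_image]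
    constructor
    · rintro ⟨he, f, hf, hfe⟩
      have : f = e := phi_injOn n (mem_coe.2 (hC hf)) (mem_coe.2 he) hfe
      rwa [← this]
    · intro he
      exact ⟨hC he, e, he, rfl⟩
  set F : Finset Edge → ℝ := fun C' => Real.exp (θ * H n (pre C') (f1 n)) with hF
  have e1 : Ex ε (edges n) (fun C => Real.exp (θ * H n C (f1 n))) = Ex ε U F := by
    rw [hU, Ex_image ε (phi n) (phi_injOn n)]
    apply Ex_congr
    intro C hC
    simp only [hF]
    rw [hpre1 C hC]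
  rw [e1]
  have hUB : ∀ e ∈ U, lt2 (src e) B := fun e he => src_phi_lt he
  have hend : ∀ M s, le2 s M → le2 M B → Fm M B ≤ Pot θ μ B M s := by
    intro M s hs hM
    simp only [hFm, Pot]
    apply Real.exp_le_exp.2
    have c1 : ((B.1 - M.1 : ℕ) : ℝ) = B.1 - M.1 := Nat.cast_sub hM.1
    have c2 : ((B.2 - M.2 : ℕ) : ℝ) = B.2 - M.2 := Nat.cast_sub hM.2
    have c3 : (0 : ℝ) ≤ ((B.1 - M.1 : ℕ) : ℝ) := Nat.cast_nonneg _
    have c4 : (0 : ℝ) ≤ ((B.2 - M.2 : ℕ) : ℝ) := Nat.cast_nonneg _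
    have c5 : (s.1 : ℝ) ≤ M.1 := by exact_mod_cast hs.1
    have c6 : (s.2 : ℝ) ≤ M.2 := by exact_mod_cast hs.2
    rw [c1] at c3 ⊢
    rw [c2] at c4 ⊢
    have c7 : μ0 ≤ μ := by linarith
    have c8 : μ0 * (((B.1 : ℝ) - M.1) + ((B.2 : ℝ) - M.2)) ≤
        μ * (((B.1 : ℝ) - M.1) + ((B.2 : ℝ) - M.2)) := by
      apply mul_le_mul_of_nonneg_right c7; linarith
    have c9 : 0 ≤ θ / 2 * (((M.1 : ℝ) - s.1) + ((M.2 : ℝ) - s.2)) := by
      apply mul_nonneg (by linarith); linarith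
    linarith
  have hB1 := fun M s (hs : le2 s M) => step_B h0 hθ hμpos hUB M s hs
  have hρ1 := rho1_nonneg h0 hθ hμpos
  have hρ2 := rho2_nonneg (lam := lam) h0 hθ hμpos
  have hA1 := fun M s (hs : le2 s M) => step_A (μ0 := μ0) h0 hθ (by linarith) hρ1 hUB hB1 M s hs
  rw [hμlam] at hA1
  have hFmb : ∀ a b, Ex ε U (fun C => Real.exp (θ * L src C a b)) ≤ Fm a b := by
    intro a b
    refine (exp_moment h0 h1 hα0 hα1 hα0 hα1 h hθ.le U a b).trans (le_of_eq ?_)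
    simp only [hFm]
    congr 1
    rw [← hx, hμ0]
    ring
  have key := Ex_sval_le (pos := src) (Fm := Fm) (B := B) (U := U) (ε := ε) (θ := θ)
    (Pot := Pot θ μ B) (ρ1 := rho1 ε θ μ) (ρ2 := rho2 ε θ μ lam) h0 h1 hθ.le
    (fun a b => (Real.exp_pos _).le) hFmb hUB hρ1 hρ2 hend
    (fun M s hs _ => hB1 M s hs) (fun M s hs _ => hA1 M s hs) F (by
      intro C' hC'
      have hsub : pre C' ⊆ edges n := filter_subset _ _
      obtain ⟨l, l1, l2, l3⟩ := H_le_sval n hsub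
      refine ⟨l, l1, ?_, ?_⟩
      · intro e he
        obtain ⟨f, hf, rfl⟩ := mem_image.1 (l2 e he)
        exact (mem_filter.1 hf).2
      · simp only [hF]
        apply Real.exp_le_exp.2
        apply mul_le_mul_of_nonneg_left _ hθ.le
        exact_mod_cast l3)
  refine key.trans ?_
  have hgeo : ∑ m ∈ range (U.card + 1), (rho1 ε θ μ + rho2 ε θ μ lam) ^ m ≤ 2 := by
    have hr0 : 0 ≤ rho1 ε θ μ + rho2 ε θ μ lam := by linarith
    have hr1 : rho1 ε θ μ + rho2 ε θ μ lam < 1 := by linarith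
    have h2 := geo_inj hr0 hr1 (range (U.card + 1)) id (Set.injOn_id _)
    simp only [id] at h2
    refine h2.trans ?_
    rw [inv_le_comm₀ (by linarith) (by norm_num)]
    linarith
  have hP : Pot θ μ B (0, 0) (0, 0) = Real.exp (2 * μ * (N + 3)) := by
    simp only [Pot, hB, hn]
    congr 1
    push_cast
    ring
  rw [hP]
  gcongr

/-- Lower bound for the mean of `V`. -/
lemma mean_lower {ε θ α lam : ℝ} (h0 : 0 ≤ ε) (h1 : ε ≤ 1) (hα0 : 0 ≤ α) (hα1 : α ≤ 1)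
    (h : α * α = (1 - α) * (1 - α) * (2 * ε - ε ^ 2)) (hθ : 0 < θ) (hlam : 0 < lam)
    {μ : ℝ} (hμ : μ = (Real.exp (2 * θ) - 1) / 2 * α + lam)
    (hρ : rho1 ε θ μ + rho2 ε θ μ lam ≤ 1 / 2) (N : ℕ) :
    2 * ((N : ℝ) + 1) - (2 * μ * (N + 3) + 2) / θ ≤
      Ex ε (edges (N + 2)) (fun C => (V (N + 2) C : ℝ)) := by
  set c : ℝ := 2 * μ * (N + 3) with hc
  have hpt : ∀ C ⊆ edges (N + 2), (2 * ((N : ℝ) + 1) - c / θ) + (-(1 / θ * Real.exp (-c))) *
      Real.exp (θ * H (N + 2) C (f1 (N + 2))) ≤ (V (N + 2) C : ℝ) := by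
    intro C _
    have h2 := V_ge N C
    have h3 : (2 * ((N : ℝ) + 1)) - (H (N + 2) C (f1 (N + 2)) : ℝ) ≤ V (N + 2) C := by
      exact_mod_cast h2
    refine le_trans ?_ h3
    set y : ℝ := (H (N + 2) C (f1 (N + 2)) : ℝ)
    have h4 : θ * y - c ≤ Real.exp (θ * y - c) := by
      linarith [Real.add_one_le_exp (θ * y - c)]
    have h5 : Real.exp (θ * y - c) = Real.exp (-c) * Real.exp (θ * y) := by
      rw [← Real.exp_add]; congr 1; ring
    rw [h5] at h4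
    have h6 : y ≤ c / θ + 1 / θ * (Real.exp (-c) * Real.exp (θ * y)) := by
      rw [← sub_le_iff_le_add']
      have : y - c / θ = 1 / θ * (θ * y - c) := by field_simp
      rw [this]
      gcongr
    linarith
  have hE := Ex_mono h0 h1 hpt
  rw [Ex_add, Ex_const, Ex_mul_left] at hE
  have hH := exp_H h0 h1 hα0 hα1 h hθ hlam hμ hρ N
  have h2 : (1 / θ * Real.exp (-c)) * Ex ε (edges (N + 2))
      (fun C => Real.exp (θ * H (N + 2) C (f1 (N + 2)))) ≤ 2 / θ := by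
    calc (1 / θ * Real.exp (-c)) * Ex ε (edges (N + 2))
          (fun C => Real.exp (θ * H (N + 2) C (f1 (N + 2))))
        ≤ (1 / θ * Real.exp (-c)) * (2 * Real.exp c) := by gcongr
      _ = 2 / θ * (Real.exp (-c) * Real.exp c) := by ring
      _ = 2 / θ := by rw [← Real.exp_add]; simp
  have h3 : (c + 2) / θ = c / θ + 2 / θ := by ring
  rw [h3]
  linarith

end Pool.Agent.Work.MP_465a95_pr
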