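import Mathlib
import Pool.Agent.Work.MP_465a95_pr.Lower
import Pool.Agent.Work.MP_465a95_pr.Upper

/-!
Asymptotic form of the bounds.
-/

open Finset Filter Topology

namespace Pool.Agent.Work.MP_465a95_pr

/-- The stationary density. -/
noncomputable def al (ε : ℝ) : ℝ := √(2 * ε - ε ^ 2) / (1 + √(2 * ε - ε ^ 2))

lemma al_nonneg (ε : ℝ) : 0 ≤ al ε := by unfold al; positivity

lemma al_le_one (ε : ℝ) : al ε ≤ 1 := by
  unfold al
  rw [div_le_one (by positivity)]
  linarith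

lemma al_rel {ε : ℝ} (h0 : 0 ≤ ε) (h1 : ε ≤ 1) :
    al ε * al ε = (1 - al ε) * (1 - al ε) * (2 * ε - ε ^ 2) := by
  have hq : 0 ≤ 2 * ε - ε ^ 2 := by nlinarith
  set x := √(2 * ε - ε ^ 2) with hx
  have hx2 : x * x = 2 * ε - ε ^ 2 := Real.mul_self_sqrt hq
  have hx0 : 0 ≤ x := Real.sqrt_nonneg _
  have : al ε = x / (1 + x) := rfl
  rw [this, ← hx2]
  have h2 : 1 + x ≠ 0 := by positivity
  field_simp
  ring

/-- Asymptotic lower bound for the expected longest chain. -/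
theorem lower_bound {ε : ℝ} (h0 : 0 < ε) (h1 : ε < 1) {t : ℝ} (ht : t < 2 * al ε) :
    ∀ᶠ N : ℕ in atTop, t * N ≤ Ex ε (box 2 2 N N)
      (fun C => (L src C (1, 1) (1 + 1 + N, 1 + 1 + N) : ℝ)) := by
  have hq : 0 < 2 * ε - ε ^ 2 := by nlinarith
  have hq1 : 2 * ε - ε ^ 2 < 1 := by nlinarith [sq_nonneg (1 - ε), mul_pos (sub_pos.2 h1) (sub_pos.2 h1)]
  set x := √(2 * ε - ε ^ 2) with hx
  have hx2 : x * x = 2 * ε - ε ^ 2 := Real.mul_self_sqrt hq.le
  have hx0 : 0 < x := Real.sqrt_pos.2 hq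
  have hx1 : x < 1 := by
    by_contra hne
    push Not at hne
    nlinarith
  have hal : al ε = x / (1 + x) := rfl
  set α := al ε with hαdef
  have hα0 : 0 < α := by rw [hal]; positivity
  have hα1 : α ≤ 1 := al_le_one ε
  have hrel := al_rel h0.le h1.le
  rw [← hαdef] at hrel
  -- choose δ
  obtain ⟨δ, hδ0, hδ1, hδ⟩ : ∃ δ : ℝ, 0 < δ ∧ δ < 1 ∧ t < 2 * α - 2 * α * δ := by
    refine ⟨min (1 / 2) ((2 * α - t) / (4 * α)), ?_, ?_, ?_⟩
    · apply lt_min (by norm_num)
      apply div_pos (by linarith) (by linarith)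
    · exact (min_le_left _ _).trans_lt (by norm_num)
    · have h2 : min (1 / 2) ((2 * α - t) / (4 * α)) ≤ (2 * α - t) / (4 * α) := min_le_right _ _
      have h3 : 2 * α * min (1 / 2) ((2 * α - t) / (4 * α)) ≤ 2 * α * ((2 * α - t) / (4 * α)) := by
        gcongr
      have h4 : 2 * α * ((2 * α - t) / (4 * α)) = (2 * α - t) / 2 := by field_simp; ring
      linarith
  -- perturbed densities
  set c : ℝ := 1 + δ / 2 with hc
  have hc1 : 1 < c := by rw [hc]; linarith
  set α' : ℝ := x * c / (1 + x * c) with hα'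
  set β' : ℝ := x / (c + x) with hβ'
  have hα'1 : α' ≤ 1 := by
    rw [hα', div_le_one (by positivity)]; linarith
  have hβ'0 : 0 ≤ β' := by rw [hβ']; positivity
  have hβ'1 : β' ≤ 1 := by
    rw [hβ', div_le_one (by positivity)]; linarith
  have hrel' : α' * β' = (1 - α') * (1 - β') * (2 * ε - ε ^ 2) := by
    rw [← hx2, hα', hβ']
    have p1 : 1 + x * c ≠ 0 := by positivity
    have p2 : c + x ≠ 0 := by positivity
    field_simp
    ring
  have hdiff : α' - α = x * (c - 1) / ((1 + x * c) * (1 + x)) := by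
    rw [hα', hal]
    field_simp
    ring
  have hdiff0 : 0 < α' - α := by
    rw [hdiff]
    have : 0 < c - 1 := by linarith
    positivity
  have hsum : α' + β' - 2 * α = (α' - α) * ((c - 1) * (1 - x) / (c + x)) := by
    rw [hdiff, hα', hβ', hal]
    have p1 : 1 + x * c ≠ 0 := by positivity
    have p2 : c + x ≠ 0 := by positivity
    have p3 : 1 + x ≠ 0 := by positivity
    field_simp
    ring
  have hsum2 : α' + β' ≤ 2 * α + (α' - α) * (δ / 2) := by
    have h2 : (c - 1) * (1 - x) / (c + x) ≤ δ / 2 := by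
      rw [div_le_iff₀ (by positivity)]
      have h3 : c - 1 = δ / 2 := by rw [hc]; ring
      rw [h3]
      have h4 : 1 - x ≤ c + x := by linarith
      nlinarith
    have h3 : (α' - α) * ((c - 1) * (1 - x) / (c + x)) ≤ (α' - α) * (δ / 2) := by gcongr
    linarith
  set γ : ℝ := δ / 2 * (α' - α) with hγ
  have hγ0 : 0 < γ := by positivity
  set κ : ℝ := γ / 2 with hκ
  have hκ0 : 0 < κ := by positivity
  -- choose θ
  obtain ⟨θ, hθ0, hθ⟩ : ∃ θ : ℝ, 0 < θ ∧
      -(2 * α - κ) + (Real.exp (2 * θ) - 1) / θ / 2 * (2 * α - γ) < 0 := by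
    have hlim : Tendsto (fun θ : ℝ => -(2 * α - κ) + (Real.exp (2 * θ) - 1) / θ / 2 * (2 * α - γ))
        (𝓝[>] 0) (𝓝 (-(2 * α - κ) + 2 / 2 * (2 * α - γ))) := by
      have hd : HasDerivAt (fun θ : ℝ => Real.exp (2 * θ)) 2 0 := by
        have := ((hasDerivAt_id' (0 : ℝ)).const_mul 2).exp
        exact this.congr_deriv (by simp)
      have h2 := hd.tendsto_slope.mono_left (nhdsWithin_mono 0 (fun x (hx : (0 : ℝ) < x) =>
        (ne_of_gt hx : x ≠ 0)) : 𝓝[>] (0 : ℝ) ≤ 𝓝[≠] 0)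
      have h3 : Tendsto (fun θ : ℝ => (Real.exp (2 * θ) - 1) / θ) (𝓝[>] 0) (𝓝 2) := by
        refine h2.congr (fun θ => ?_)
        rw [slope_def_field]; simp
      exact ((h3.div_const 2).mul_const _).const_add _
    have hneg : -(2 * α - κ) + 2 / 2 * (2 * α - γ) < 0 := by
      rw [hκ]; linarith
    have hev := (hlim.eventually (gt_mem_nhds hneg)).and self_mem_nhdsWithin
    obtain ⟨θ, h3, h4⟩ := hev.exists
    exact ⟨θ, h4, h3⟩
  set X : ℝ := (Real.exp (2 * θ) - 1) / 2 with hX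
  have hX0 : 0 < X := by
    have := Real.one_lt_exp_iff.2 (show 0 < 2 * θ by linarith)
    rw [hX]; linarith
  obtain ⟨c0, hc0, hc0'⟩ : ∃ c0 : ℝ, 0 < c0 ∧ -(θ * (2 * α - κ)) + X * (2 * α - γ) ≤ -c0 := by
    refine ⟨-(θ * (-(2 * α - κ) + (Real.exp (2 * θ) - 1) / θ / 2 * (2 * α - γ))), ?_, ?_⟩
    · have := mul_neg_of_pos_of_neg hθ0 hθ
      linarith
    · rw [neg_neg, hX]
      apply le_of_eq
      field_simp
  -- the error term tends to zero
  have herr : Tendsto (fun N : ℕ => 4 * Real.exp (2 * X) * ((N : ℝ) ^ 2 * Real.exp (-c0 * N))) atTop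
      (𝓝 0) := by
    have h2 : Tendsto (fun y : ℝ => y ^ 2 * Real.exp (-c0 * y)) atTop (𝓝 0) := by
      have h3 := Real.tendsto_pow_mul_exp_neg_atTop_nhds_zero 2
      have h4 : Tendsto (fun y : ℝ => c0 * y) atTop atTop := tendsto_id.const_mul_atTop hc0
      have h5 := (h3.comp h4).const_mul ((c0 ^ 2)⁻¹)
      rw [mul_zero] at h5
      refine h5.congr (fun y => ?_)
      simp only [Function.comp]
      field_simp
    have h6 := (h2.comp tendsto_natCast_atTop_atTop).const_mul (4 * Real.exp (2 * X))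
    rw [mul_zero] at h6
    exact h6
  have hlin : Tendsto (fun N : ℕ => (2 * α - 2 * α * δ - t) * (N : ℝ)) atTop atTop :=
    tendsto_natCast_atTop_atTop.const_mul_atTop (by linarith)
  filter_upwards [herr.eventually (gt_mem_nhds (show (0 : ℝ) < 1 by norm_num)),
    hlin.eventually (eventually_ge_atTop (2 * α + 2 / κ ^ 2 + 1)), eventually_gt_atTop 0]
    with N hN1 hN2 hN3
  have hNr : (0 : ℝ) < N := by exact_mod_cast hN3
  set K : ℕ := ⌈δ * N⌉₊ with hK
  have hK1 : δ * N ≤ K := Nat.le_ceil _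
  have hK2 : (K : ℝ) ≤ δ * N + 1 := (Nat.ceil_lt_add_one (by positivity)).le
  have key := lower_key h0.le h1.le hα0.le hα1 hrel hα'1 hβ'0 hβ'1 hrel' (by linarith) hθ0 hκ0 N K hN3
  rw [← hX] at key
  have hexp : -(θ * ((2 * α - κ) * N)) + X * ((α' + β') * (N + 1) - (α' - α) * K) ≤
      2 * X + -c0 * N := by
    have e1 : (α' - α) * (δ * N) ≤ (α' - α) * K := by gcongr
    have e2 : (α' + β') * (N + 1) - (α' - α) * K ≤ 2 + (2 * α - γ) * N := by
      have e3 : (α' + β') * N ≤ (2 * α + (α' - α) * (δ / 2)) * N := by gcongr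
      have e4 : α' + β' ≤ 2 := by linarith
      rw [hγ]
      nlinarith
    have e5 : X * ((α' + β') * (N + 1) - (α' - α) * K) ≤ X * (2 + (2 * α - γ) * N) := by gcongr
    have e6 : (-(θ * (2 * α - κ)) + X * (2 * α - γ)) * N ≤ -c0 * N := by gcongr
    nlinarith
  have hexp2 : 4 * (N : ℝ) ^ 2 * Real.exp (-(θ * ((2 * α - κ) * N)) +
      X * ((α' + β') * (N + 1) - (α' - α) * K)) ≤ 1 := by
    calc 4 * (N : ℝ) ^ 2 * Real.exp (-(θ * ((2 * α - κ) * N)) +
          X * ((α' + β') * (N + 1) - (α' - α) * K))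
        ≤ 4 * (N : ℝ) ^ 2 * Real.exp (2 * X + -c0 * N) := by gcongr
      _ = 4 * Real.exp (2 * X) * ((N : ℝ) ^ 2 * Real.exp (-c0 * N)) := by
          rw [Real.exp_add]; ring
      _ ≤ 1 := hN1.le
  have hKα : α * K ≤ α * (δ * N + 1) := by gcongr
  nlinarith

/-- Upper bound for the mean of `V`. -/
lemma mean_upper {ε : ℝ} (h0 : 0 ≤ ε) (h1 : ε ≤ 1) (N : ℕ) :
    Ex ε (edges (N + 2)) (fun C => (V (N + 2) C : ℝ)) ≤ 2 * ((N : ℝ) + 1) -
      Ex ε (box 2 2 N N) (fun C => (L src C (1, 1) (1 + 1 + N, 1 + 1 + N) : ℝ)) := by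
  classical
  set f : Finset Edge → ℝ := fun C => (L src C (1, 1) (1 + 1 + N, 1 + 1 + N) : ℝ) with hf
  have hpt : ∀ C ⊆ edges (N + 2), (V (N + 2) C : ℝ) ≤ 2 * ((N : ℝ) + 1) +
      (-1) * f (C.image (phi (N + 2))) := by
    intro C hC
    have h2 := V_le_L N hC
    have h3 : (V (N + 2) C : ℝ) ≤ 2 * ((N : ℝ) + 1) -
      (L src (C.image (phi (N + 2))) (1, 1) (1 + 1 + N, 1 + 1 + N) : ℝ) := by exact_mod_cast h2
    simp only [hf]
    linarith
  have hE := Ex_mono h0 h1 hpt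
  rw [Ex_add, Ex_const, Ex_mul_left, ← Ex_image ε (phi (N + 2)) (phi_injOn (N + 2))] at hE
  have hsub : box 2 2 N N ⊆ (edges (N + 2)).image (phi (N + 2)) := by
    intro e he
    rw [mem_box] at he
    obtain ⟨a, b, c⟩ := e
    simp only at he
    rw [mem_image]
    refine ⟨(a - 1, N + 2 - b, c), ?_, ?_⟩
    · rw [mem_edges]
      cases c <;> simp only [tgt, if_true, Bool.false_eq_true, if_false] <;> omega
    · simp only [phi, Prod.mk.injEq, and_true]
      omega
  have hmono := Ex_subset_le h0 h1 hsub (F := f) (by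
    intro C1 C2 hC
    simp only [hf]
    have : L src C1 (1, 1) (1 + 1 + N, 1 + 1 + N) ≤ L src C2 (1, 1) (1 + 1 + N, 1 + 1 + N) :=
      L_mono hC (le2_refl _) (le2_refl _)
    exact_mod_cast this)
  linarith

end Pool.Agent.Work.MP_465a95_pr
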