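import Mathlib
import Pool.Agent.Work.MP_465a95_pr.Asym

/-!
Assembly: `1 - v(p) ∼ √(2 (1 - p))` as `p ↑ 1`.
-/

open Finset Filter Topology

namespace Pool.Agent.Work.MP_465a95_pr

lemma expect_eq (n : ℕ) (p : ℝ) (F : Finset Edge → ℝ) :
    expect n p F = Ex (1 - p) (edges n) F := by
  unfold expect Ex
  rw [sub_sub_cancel]

lemma one_sub_exp_inv_le {u : ℝ} (hu : 0 < u) : (1 - Real.exp (-u))⁻¹ ≤ 1 + 1 / u := by
  have h1 : Real.exp (-u) < 1 := by rw [Real.exp_lt_one_iff]; linarith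
  have h2 : Real.exp (-u) ≤ 1 / (1 + u) := by
    rw [Real.exp_neg, ← one_div]
    apply one_div_le_one_div_of_le (by linarith)
    linarith [Real.add_one_le_exp u]
  have h3 : u / (1 + u) ≤ 1 - Real.exp (-u) := by
    have : 1 - 1 / (1 + u) = u / (1 + u) := by field_simp; ring
    linarith
  have h4 : 0 < u / (1 + u) := by positivity
  calc (1 - Real.exp (-u))⁻¹ ≤ (u / (1 + u))⁻¹ := by
        apply inv_anti₀ h4 h3
    _ = 1 + 1 / u := by field_simp; ring

lemma al_le_sqrt {ε : ℝ} : al ε ≤ √(2 * ε) := by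
  unfold al
  have h1 : √(2 * ε - ε ^ 2) ≤ √(2 * ε) := Real.sqrt_le_sqrt (by nlinarith)
  have h2 : 0 ≤ √(2 * ε - ε ^ 2) := Real.sqrt_nonneg _
  calc √(2 * ε - ε ^ 2) / (1 + √(2 * ε - ε ^ 2)) ≤ √(2 * ε - ε ^ 2) / 1 := by
        apply div_le_div_of_nonneg_left h2 (by norm_num) (by linarith)
    _ ≤ _ := by rw [div_one]; exact h1

lemma le_al {ε : ℝ} (h0 : 0 ≤ ε) (h1 : ε ≤ 1) : √(2 * ε) * (1 - ε / 2) / (1 + √(2 * ε)) ≤ al ε := by
  have e1 : 2 * ε - ε ^ 2 = 2 * ε * (1 - ε / 2) := by ring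
  have e2 : √(2 * ε * (1 - ε / 2)) = √(2 * ε) * √(1 - ε / 2) :=
    Real.sqrt_mul (by linarith) _
  have h2 : √(2 * ε) * (1 - ε / 2) ≤ √(2 * ε - ε ^ 2) := by
    rw [e1, e2]
    apply mul_le_mul_of_nonneg_left _ (Real.sqrt_nonneg _)
    apply Real.le_sqrt_of_sq_le
    nlinarith
  have h3 : √(2 * ε - ε ^ 2) ≤ √(2 * ε) := Real.sqrt_le_sqrt (by nlinarith)
  unfold al
  have h4 : 0 ≤ √(2 * ε - ε ^ 2) := Real.sqrt_nonneg _
  have h5 : 0 ≤ √(2 * ε) := Real.sqrt_nonneg _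
  calc √(2 * ε) * (1 - ε / 2) / (1 + √(2 * ε)) ≤ √(2 * ε - ε ^ 2) / (1 + √(2 * ε)) := by gcongr
    _ ≤ _ := by
        apply div_le_div_of_nonneg_left h4 (by positivity)
        linarith

/-- The limit `ε ↓ 0` along `ε = 1 - p`. -/
lemma tendsto_one_sub : Tendsto (fun p : ℝ => 1 - p) (𝓝[<] 1) (𝓝[>] 0) := by
  rw [tendsto_nhdsWithin_iff]
  constructor
  · have : Continuous fun p : ℝ => 1 - p := by fun_prop
    have h := (this.tendsto 1).mono_left (nhdsWithin_le_nhds (s := Set.Iio (1 : ℝ)))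
    simpa using h
  · filter_upwards [self_mem_nhdsWithin] with p hp
    have : p < 1 := hp
    simp only [Set.mem_Ioi]
    linarith

/-- Lower estimate of `1 - E V / (2n)`. -/
lemma main_lower {η : ℝ} (hη : 0 < η) : ∀ᶠ ε in 𝓝[>] (0 : ℝ), ∀ᶠ n : ℕ in atTop,
    (1 - η) * √(2 * ε) ≤ 1 - Ex ε (edges n) (fun C => (V n C : ℝ)) / (2 * n) := by
  have hcont : Continuous fun ε : ℝ => (1 - ε / 2) - (1 - η) * (1 + √(2 * ε)) := by fun_prop
  have hlim := (hcont.tendsto 0).mono_left (nhdsWithin_le_nhds (s := Set.Ioi (0 : ℝ)))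
  simp only [zero_div, sub_zero, mul_zero, Real.sqrt_zero, add_zero, mul_one] at hlim
  have hpos : (0 : ℝ) < 1 - (1 - η) := by linarith
  filter_upwards [hlim.eventually (lt_mem_nhds hpos), Ioo_mem_nhdsGT (show (0 : ℝ) < 1 by norm_num)]
    with ε hε1 hε2
  obtain ⟨h0, h1⟩ := hε2
  set s := √(2 * ε) with hs
  have hs0 : 0 < s := Real.sqrt_pos.2 (by linarith)
  have hal : (1 - η) * s < al ε := by
    refine lt_of_lt_of_le ?_ (le_al h0.le h1.le)
    rw [← hs, lt_div_iff₀ (by positivity)]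
    nlinarith
  obtain ⟨t, ht1, ht2⟩ := exists_between (show 2 * ((1 - η) * s) < 2 * al ε by linarith)
  have hLB := lower_bound h0 h1 ht2
  have hlin : Tendsto (fun N : ℕ => (t - 2 * ((1 - η) * s)) * (N : ℝ)) atTop atTop :=
    tendsto_natCast_atTop_atTop.const_mul_atTop (by linarith)
  have hev : ∀ᶠ N : ℕ in atTop, (1 - η) * s ≤
      1 - Ex ε (edges (N + 2)) (fun C => (V (N + 2) C : ℝ)) / (2 * ((N + 2 : ℕ) : ℝ)) := by
    filter_upwards [hLB, hlin.eventually (eventually_ge_atTop (4 * ((1 - η) * s)))] with N hN1 hN2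
    have h2 := mean_upper h0.le h1.le N
    have hden : (0 : ℝ) < 2 * ((N + 2 : ℕ) : ℝ) := by positivity
    rw [le_sub_iff_add_le, ← le_sub_iff_add_le', div_le_iff₀ hden]
    push_cast
    nlinarith
  have := (tendsto_sub_atTop_nat 2).eventually hev
  filter_upwards [this, eventually_ge_atTop 2] with n hn1 hn2
  rwa [Nat.sub_add_cancel hn2] at hn1

/-- Upper estimate of `1 - E V / (2n)`. -/
lemma main_upper {η : ℝ} (hη : 0 < η) : ∀ᶠ ε in 𝓝[>] (0 : ℝ), ∀ᶠ n : ℕ in atTop,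
    1 - Ex ε (edges n) (fun C => (V n C : ℝ)) / (2 * n) ≤ (1 + η) * √(2 * ε) := by
  -- choose θ
  obtain ⟨θ, hθ0, hθ⟩ : ∃ θ : ℝ, 0 < θ ∧ (Real.exp (2 * θ) - 1) / θ < 2 * (1 + η / 4) := by
    have hd : HasDerivAt (fun θ : ℝ => Real.exp (2 * θ)) 2 0 := by
      have := ((hasDerivAt_id' (0 : ℝ)).const_mul 2).exp
      exact this.congr_deriv (by simp)
    have h2 := hd.tendsto_slope.mono_left (nhdsWithin_mono 0 (fun x (hx : (0 : ℝ) < x) =>
      (ne_of_gt hx : x ≠ 0)) : 𝓝[>] (0 : ℝ) ≤ 𝓝[≠] 0)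
    have h3 : Tendsto (fun θ : ℝ => (Real.exp (2 * θ) - 1) / θ) (𝓝[>] 0) (𝓝 2) := by
      refine h2.congr (fun θ => ?_)
      rw [slope_def_field]; simp
    have hev := (h3.eventually (gt_mem_nhds (show (2 : ℝ) < 2 * (1 + η / 4) by linarith))).and
      self_mem_nhdsWithin
    obtain ⟨θ, h4, h5⟩ := hev.exists
    exact ⟨θ, h5, h4⟩
  set κ : ℝ := θ * (η / 4) with hκ
  have hκ0 : 0 < κ := by positivity
  set K1 : ℝ := 2 * (1 - Real.exp (-(θ / 2)))⁻¹ with hK1
  have hK1pos : 0 < K1 := by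
    have : Real.exp (-(θ / 2)) < 1 := by rw [Real.exp_lt_one_iff]; linarith
    have : 0 < 1 - Real.exp (-(θ / 2)) := by linarith
    positivity
  -- bound function
  set R1 : ℝ → ℝ := fun s => 4 * Real.exp θ * K1 * (K1 * (s ^ 2 / 2) + (s ^ 2 / 2 + s / (2 * κ)))
    with hR1
  set R2 : ℝ → ℝ := fun s => 2 * Real.exp θ * ((s + 1 / κ) ^ 2 / 2) * R1 s with hR2
  have hcont : Continuous fun ε : ℝ => R1 (√(2 * ε)) + R2 (√(2 * ε)) := by
    have c1 : Continuous R1 := by simp only [hR1]; fun_prop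
    have c2 : Continuous R2 := by simp only [hR2]; fun_prop
    have c3 : Continuous fun ε : ℝ => √(2 * ε) := by fun_prop
    exact (c1.comp c3).add (c2.comp c3)
  have hlim := (hcont.tendsto 0).mono_left (nhdsWithin_le_nhds (s := Set.Ioi (0 : ℝ)))
  have hzero : R1 (√(2 * 0)) + R2 (√(2 * 0)) = 0 := by
    simp [hR1, hR2]
  rw [hzero] at hlim
  filter_upwards [hlim.eventually (gt_mem_nhds (show (0 : ℝ) < 1 / 2 by norm_num)),
    Ioo_mem_nhdsGT (show (0 : ℝ) < 1 by norm_num)] with ε hε1 hε2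
  obtain ⟨h0, h1⟩ := hε2
  set s := √(2 * ε) with hs
  have hs0 : 0 < s := Real.sqrt_pos.2 (by linarith)
  have hs2 : s ^ 2 = 2 * ε := Real.sq_sqrt (by linarith)
  have hε : ε = s ^ 2 / 2 := by rw [hs2]; ring
  set α := al ε with hα
  have hα0 : 0 ≤ α := al_nonneg ε
  have hα1 : α ≤ 1 := al_le_one ε
  have hαs : α ≤ s := al_le_sqrt
  have hrel := al_rel h0.le h1.le
  rw [← hα] at hrel
  set lam : ℝ := κ * s with hlam
  have hlam0 : 0 < lam := by positivity
  set x : ℝ := (Real.exp (2 * θ) - 1) / 2 with hx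
  have hx0 : 0 ≤ x := by
    have := Real.one_le_exp (show 0 ≤ 2 * θ by linarith)
    rw [hx]; linarith
  set μ : ℝ := x * α + lam with hμ
  have hμ0 : 0 < μ := by
    have : 0 ≤ x * α := by positivity
    linarith
  have hμlam : lam ≤ μ := by
    have : 0 ≤ x * α := by positivity
    linarith
  have hx2 : x ≤ θ * (1 + η / 4) := by
    rw [div_lt_iff₀ hθ0] at hθ
    rw [hx]; linarith
  have hμθ : μ ≤ θ * ((1 + η / 2) * s) := by
    have h2 : x * α ≤ θ * (1 + η / 4) * s := by gcongr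
    rw [hμ, hlam, hκ]
    nlinarith
  -- the error constants
  have hK3 : (1 - Real.exp (-lam))⁻¹ ≤ 1 + 1 / lam := one_sub_exp_inv_le hlam0
  have hK2 : (1 - Real.exp (-μ))⁻¹ ≤ 1 + 1 / lam := by
    refine (one_sub_exp_inv_le hμ0).trans ?_
    have : 1 / μ ≤ 1 / lam := one_div_le_one_div_of_le hlam0 hμlam
    linarith
  have hK3pos : 0 ≤ (1 - Real.exp (-lam))⁻¹ := by
    have : Real.exp (-lam) < 1 := by rw [Real.exp_lt_one_iff]; linarith
    have : 0 < 1 - Real.exp (-lam) := by linarith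
    positivity
  have hρ1 : rho1 ε θ μ ≤ R1 s := by
    unfold rho1
    rw [← hK1]
    calc 4 * ε * Real.exp θ * K1 * (K1 + (1 - Real.exp (-μ))⁻¹)
        ≤ 4 * ε * Real.exp θ * K1 * (K1 + (1 + 1 / lam)) := by gcongr
      _ = R1 s := by
          simp only [hR1]
          rw [hε, hlam]
          field_simp
  have hρ1' : 0 ≤ rho1 ε θ μ := rho1_nonneg h0.le hθ0 hμ0
  have hρ2 : rho2 ε θ μ lam ≤ R2 s := by
    unfold rho2
    calc 2 * ε * Real.exp θ * (1 - Real.exp (-lam))⁻¹ ^ 2 * rho1 ε θ μ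
        ≤ 2 * ε * Real.exp θ * (1 + 1 / lam) ^ 2 * R1 s := by gcongr
      _ = R2 s := by
          simp only [hR2]
          rw [hε, hlam]
          field_simp
  have hρ : rho1 ε θ μ + rho2 ε θ μ lam ≤ 1 / 2 := by linarith
  have hML := fun N => mean_lower h0.le h1.le hα0 hα1 hrel hθ0 hlam0 hμ hρ N
  have hlin : Tendsto (fun N : ℕ => (η * s) * (N : ℝ)) atTop atTop :=
    tendsto_natCast_atTop_atTop.const_mul_atTop (by positivity)
  have hev : ∀ᶠ N : ℕ in atTop,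
      1 - Ex ε (edges (N + 2)) (fun C => (V (N + 2) C : ℝ)) / (2 * ((N + 2 : ℕ) : ℝ)) ≤
        (1 + η) * s := by
    filter_upwards [hlin.eventually (eventually_ge_atTop (2 + 6 * ((1 + η / 2) * s) + 2 / θ))]
      with N hN
    have h2 := hML N
    have hden : (0 : ℝ) < 2 * ((N + 2 : ℕ) : ℝ) := by positivity
    rw [sub_le_comm, le_div_iff₀ hden]
    push_cast
    have h3 : (2 * μ * (N + 3) + 2) / θ ≤ 2 * ((1 + η / 2) * s) * (N + 3) + 2 / θ := by
      rw [add_div]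
      have : 2 * μ * (N + 3) / θ ≤ 2 * ((1 + η / 2) * s) * (N + 3) := by
        rw [div_le_iff₀ hθ0]
        have h5 : (0 : ℝ) ≤ 2 * (N + 3) := by positivity
        nlinarith [mul_le_mul_of_nonneg_left hμθ h5]
      linarith
    nlinarith
  have := (tendsto_sub_atTop_nat 2).eventually hev
  filter_upwards [this, eventually_ge_atTop 2] with n hn1 hn2
  rwa [Nat.sub_add_cancel hn2] at hn1

/-- Asymptotics of the mean. -/
theorem main_mean {η : ℝ} (hη : 0 < η) : ∀ᶠ p in 𝓝[<] (1 : ℝ), ∀ᶠ n : ℕ in atTop,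
    |(1 - expect n p (fun C => (V n C : ℝ)) / (2 * n)) / √(2 * (1 - p)) - 1| ≤ η := by
  have h1 := tendsto_one_sub.eventually (main_lower hη)
  have h2 := tendsto_one_sub.eventually (main_upper hη)
  filter_upwards [h1, h2, self_mem_nhdsWithin] with p hp1 hp2 hp3
  have hp : p < 1 := hp3
  have hs0 : 0 < √(2 * (1 - p)) := Real.sqrt_pos.2 (by linarith)
  filter_upwards [hp1, hp2] with n hn1 hn2
  rw [expect_eq, abs_le]
  constructor
  · rw [neg_le_sub_iff_le_add, ← sub_le_iff_le_add, le_div_iff₀ hs0]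
    exact hn1
  · rw [sub_le_iff_le_add, div_le_iff₀ hs0, add_comm η 1]
    exact hn2

lemma tendsto_mean {v : ℝ → ℝ} (hv : IsFlowConstant v) {p : ℝ} (hp0 : 0 < p) (hp1 : p < 1) :
    Tendsto (fun n : ℕ => expect n p (fun C => (V n C : ℝ)) / (2 * n)) atTop (𝓝 (v p)) := by
  have h := hv p hp0 hp1
  rw [tendsto_iff_norm_sub_tendsto_zero]
  refine squeeze_zero (fun n => norm_nonneg _) (fun n => ?_) h
  rw [Real.norm_eq_abs, expect_eq, expect_eq]
  have hε0 : 0 ≤ 1 - p := by linarith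
  have hε1 : 1 - p ≤ 1 := by linarith
  have e1 : Ex (1 - p) (edges n) (fun C => (V n C : ℝ)) / (2 * n) - v p =
      Ex (1 - p) (edges n) (fun C => (V n C : ℝ) / (2 * n) - v p) := by
    have e2 : (fun C : Finset Edge => (V n C : ℝ) / (2 * n) - v p) =
        fun C => (V n C : ℝ) * (2 * (n : ℝ))⁻¹ + -(v p) := by
      funext C; ring
    rw [e2, Ex_add, Ex_mul_right, Ex_const]
    ring
  rw [e1, abs_le]
  constructor
  · rw [neg_le_iff_add_nonneg, ← Ex_add]
    apply Ex_nonneg hε0 hε1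
    intro C _
    linarith [neg_abs_le ((V n C : ℝ) / (2 * n) - v p)]
  · exact Ex_mono hε0 hε1 (fun C _ => le_abs_self _)

/-- Asymptotics of the flow constant. -/
theorem main_flow {v : ℝ → ℝ} (hv : IsFlowConstant v) :
    Tendsto (fun p : ℝ => (1 - v p) / √(2 * (1 - p))) (𝓝[<] 1) (𝓝 1) := by
  rw [Metric.tendsto_nhds]
  intro η hη
  have h1 := main_mean (show 0 < η / 2 by linarith)
  filter_upwards [h1, Ioo_mem_nhdsLT (show (0 : ℝ) < 1 by norm_num)] with p hp hp01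
  have h2 := tendsto_mean hv hp01.1 hp01.2
  have h3 : Tendsto (fun n : ℕ => |(1 - expect n p (fun C => (V n C : ℝ)) / (2 * n)) /
      √(2 * (1 - p)) - 1|) atTop (𝓝 |(1 - v p) / √(2 * (1 - p)) - 1|) :=
    (((h2.const_sub 1).div_const _).sub_const 1).abs
  have h4 := le_of_tendsto h3 hp
  rw [Real.dist_eq]
  linarith

end Pool.Agent.Work.MP_465a95_pr
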