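import Mathlib
import Pool.Agent.Work.MP_465a95_pr.Walk

/-!
Subadditivity of the maximal flow.
-/

open Finset

namespace Pool.Agent.Work.MP_465a95_pr

/-- Translation of an edge. -/
def sh (a b : ℕ) (e : Edge) : Edge := (e.1 + a, e.2.1 + b, e.2.2)

lemma sh_injective (a b : ℕ) : Function.Injective (sh a b) := by
  intro e f h
  obtain ⟨x, y, c⟩ := e
  obtain ⟨x', y', c'⟩ := f
  simp only [sh, Prod.mk.injEq] at h
  obtain ⟨h1, h2, h3⟩ := h
  have h4 : x = x' := by omega
  have h5 : y = y' := by omega
  rw [h4, h5, h3]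

/-- The closed edges seen from a box of side `k` at `(a, b)`. -/
def pull (k a b : ℕ) (C : Finset Edge) : Finset Edge := (edges k).filter (fun e => sh a b e ∈ C)

/-- The part of a path in a small box, started inside the box. -/
lemma run {N k a b : ℕ} (hk : 2 ≤ k) (ha : a + k ≤ N) (hb : b + k ≤ N) (l : List Edge) :
    l.IsChain (fun e f => tgt e = src f) → (∃ e, l.getLast? = some e ∧ InT N (tgt e)) →
    ∀ v : ℕ × ℕ, (∃ e, l.head? = some e ∧ src e = v) → a ≤ v.1 → v.1 ≤ a + k - 2 → b ≤ v.2 →
    v.2 ≤ b + k - 2 → ∃ l' : List Edge, (∀ e ∈ l', e ∈ edges k ∧ sh a b e ∈ l) ∧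
      l'.IsChain (fun e f => tgt e = src f) ∧
      (∃ e, l'.head? = some e ∧ src e = (v.1 - a, v.2 - b)) ∧
      (∃ e, l'.getLast? = some e ∧ InT k (tgt e)) := by
  induction l with
  | nil => intro _ _ v h; simp at h
  | cons f l ih =>
    intro hc hl v hv h1 h2 h3 h4
    obtain ⟨e, he, hev⟩ := hv
    simp only [List.head?_cons, Option.some.injEq] at he
    subst he
    obtain ⟨x, y, c⟩ := f
    simp only [src] at hev
    subst hev
    simp only at h1 h2 h3 h4 ⊢
    -- the relative edge
    set f' : Edge := (x - a, y - b, c) with hf'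
    have hsh : sh a b f' = (x, y, c) := by
      simp only [sh, hf', Prod.mk.injEq, and_true]
      omega
    have hf'e : f' ∈ edges k := by
      rw [mem_edges]
      simp only [hf']
      cases c <;> simp only [tgt, if_true, Bool.false_eq_true, if_false] <;> omega
    by_cases hT : InT k (tgt f')
    · refine ⟨[f'], ?_, by simp, ⟨f', rfl, rfl⟩, ⟨f', rfl, hT⟩⟩
      intro e he
      rw [List.mem_singleton] at he
      subst he
      exact ⟨hf'e, by rw [hsh]; simp⟩
    · -- the path continues inside
      have hin : (tgt (x, y, c)).1 ≤ a + k - 2 ∧ (tgt (x, y, c)).2 ≤ b + k - 2 := by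
        unfold InT at hT
        simp only [hf'] at hT
        cases c <;> simp only [tgt, if_true, Bool.false_eq_true, if_false] at hT ⊢ <;> omega
      have hge : a ≤ (tgt (x, y, c)).1 ∧ b ≤ (tgt (x, y, c)).2 := by
        cases c <;> simp only [tgt, if_true, Bool.false_eq_true, if_false] <;> omega
      cases l with
      | nil =>
        exfalso
        obtain ⟨e, he, hT'⟩ := hl
        simp only [List.getLast?_singleton, Option.some.injEq] at he
        subst he
        unfold InT at hT'
        omega
      | cons g l =>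
        rw [List.isChain_cons_cons] at hc
        have hl' : ∃ e, (g :: l).getLast? = some e ∧ InT N (tgt e) := by
          obtain ⟨e, he, hT'⟩ := hl
          rw [List.getLast?_cons_cons] at he
          exact ⟨e, he, hT'⟩
        obtain ⟨l', q1, q2, ⟨e1, q3, q3'⟩, ⟨e2, q4, q4'⟩⟩ := ih hc.2 hl' (tgt (x, y, c))
          ⟨g, rfl, hc.1.symm⟩ hge.1 hin.1 hge.2 hin.2
        refine ⟨f' :: l', ?_, ?_, ⟨f', rfl, rfl⟩, ⟨e2, ?_, q4'⟩⟩
        · intro e he
          rcases List.mem_cons.1 he with rfl | he
          · exact ⟨hf'e, by rw [hsh]; simp⟩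
          · exact ⟨(q1 e he).1, List.mem_cons_of_mem _ (q1 e he).2⟩
        · rw [List.isChain_cons]
          refine ⟨?_, q2⟩
          intro z hz
          rw [q3] at hz
          simp only [Option.mem_def, Option.some.injEq] at hz
          subst hz
          rw [q3']
          simp only [hf']
          cases c <;> simp only [tgt, if_true, Bool.false_eq_true, if_false, Prod.mk.injEq,
            and_true, true_and] <;> omega
        · rw [List.getLast?_cons, q4]
          rfl

/-- Open paths seen from a small box. -/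
lemma isOpenPath_of_run {N k a b : ℕ} {C : Finset Edge} (hk : 2 ≤ k) (ha : a + k ≤ N)
    (hb : b + k ≤ N) {l : List Edge} (hl0 : ∀ e ∈ l, e ∉ C)
    (hc : l.IsChain (fun e f => tgt e = src f)) (hl : ∃ e, l.getLast? = some e ∧ InT N (tgt e))
    {v : ℕ × ℕ} (hv : ∃ e, l.head? = some e ∧ src e = v) (h1 : a ≤ v.1) (h2 : v.1 ≤ a + k - 2)
    (h3 : b ≤ v.2) (h4 : v.2 ≤ b + k - 2) (hS : InS k (v.1 - a, v.2 - b)) :
    ∃ l' : List Edge, IsOpenPath k (pull k a b C) l' ∧ ∀ e ∈ l', sh a b e ∈ l := by
  obtain ⟨l', q1, q2, ⟨e1, q3, q3'⟩, q4⟩ := run hk ha hb l hc hl v hv h1 h2 h3 h4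
  refine ⟨l', ⟨?_, q2, ⟨e1, q3, q3' ▸ hS⟩, q4⟩, fun e he => (q1 e he).2⟩
  intro e he
  refine ⟨(q1 e he).1, ?_⟩
  intro hmem
  exact hl0 _ (q1 e he).2 (mem_filter.1 hmem).2

/-- The three cases for a path in a big box. -/
def Alt (n M : ℕ) (C : Finset Edge) (l : List Edge) : Prop :=
  (∃ l' : List Edge, IsOpenPath n (pull n 0 M C) l' ∧ ∀ e ∈ l', sh 0 M e ∈ l) ∨
  (∃ l' : List Edge, IsOpenPath M (pull M n 0 C) l' ∧ ∀ e ∈ l', sh n 0 e ∈ l) ∨
  ((n - 1, M - 1, true) ∈ l ∨ (n - 1, M - 1, false) ∈ l)

lemma Alt.cons {n M : ℕ} {C : Finset Edge} {l : List Edge} (f : Edge) (h : Alt n M C l) :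
    Alt n M C (f :: l) := by
  rcases h with ⟨l', h1, h2⟩ | ⟨l', h1, h2⟩ | h | h
  · exact Or.inl ⟨l', h1, fun e he => List.mem_cons_of_mem _ (h2 e he)⟩
  · exact Or.inr (Or.inl ⟨l', h1, fun e he => List.mem_cons_of_mem _ (h2 e he)⟩)
  · exact Or.inr (Or.inr (Or.inl (List.mem_cons_of_mem _ h)))
  · exact Or.inr (Or.inr (Or.inr (List.mem_cons_of_mem _ h)))

lemma alt_D {n M : ℕ} (hn : 2 ≤ n) (hM : 2 ≤ M) (C : Finset Edge) (l : List Edge) :
    (∀ e ∈ l, e ∉ C) → l.IsChain (fun e f => tgt e = src f) →
    (∃ e, l.getLast? = some e ∧ InT (n + M) (tgt e)) →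
    (∃ e, l.head? = some e ∧ (src e).1 ≤ n - 1 ∧ (src e).2 ≤ M - 1) → Alt n M C l := by
  induction l with
  | nil => intro _ _ _ h; simp at h
  | cons f l ih =>
    intro h0 hc hl hv
    obtain ⟨e, he, hev⟩ := hv
    simp only [List.head?_cons, Option.some.injEq] at he
    subst he
    obtain ⟨x, y, c⟩ := f
    simp only [src] at hev
    by_cases hex : x = n - 1 ∧ y = M - 1
    · obtain ⟨rfl, rfl⟩ := hex
      right; right
      cases c <;> simp
    · have hnT : ¬ InT (n + M) (tgt (x, y, c)) := by
        unfold InT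
        cases c <;> simp only [tgt, if_true, Bool.false_eq_true, if_false] <;> omega
      cases l with
      | nil =>
        exfalso
        obtain ⟨e, he, hT'⟩ := hl
        simp only [List.getLast?_singleton, Option.some.injEq] at he
        subst he
        exact hnT hT'
      | cons g l =>
        have hc' := hc
        rw [List.isChain_cons_cons] at hc'
        have hl' : ∃ e, (g :: l).getLast? = some e ∧ InT (n + M) (tgt e) := by
          obtain ⟨e, he, hT'⟩ := hl
          rw [List.getLast?_cons_cons] at he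
          exact ⟨e, he, hT'⟩
        have h0' : ∀ e ∈ g :: l, e ∉ C := fun e he => h0 e (List.mem_cons_of_mem _ he)
        apply Alt.cons
        by_cases hD : (tgt (x, y, c)).1 ≤ n - 1 ∧ (tgt (x, y, c)).2 ≤ M - 1
        · apply ih h0' hc'.2 hl'
          exact ⟨g, rfl, by rw [← hc'.1]; exact hD⟩
        · cases c
          · -- moved right
            simp only [tgt, Bool.false_eq_true, if_false] at hD hc'
            have hx : x = n - 1 := by omega
            have hy : y ≤ M - 2 := by omega
            right; left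
            apply isOpenPath_of_run (N := n + M) (v := (x + 1, y)) hM (by omega) (by omega) h0' hc'.2
              hl' ⟨g, rfl, hc'.1.symm⟩
            · simp only; omega
            · simp only; omega
            · simp only; omega
            · simp only; omega
            · unfold InS; simp only; omega
          · simp only [tgt, if_true] at hD hc'
            have hx : x ≤ n - 2 := by omega
            have hy : y = M - 1 := by omega
            left
            apply isOpenPath_of_run (N := n + M) (v := (x, y + 1)) hn (by omega) (by omega) h0' hc'.2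
              hl' ⟨g, rfl, hc'.1.symm⟩
            · simp only; omega
            · simp only; omega
            · simp only; omega
            · simp only; omega
            · unfold InS; simp only; omega

lemma alt_path {n M : ℕ} (hn : 2 ≤ n) (hM : 2 ≤ M) {C : Finset Edge} {l : List Edge}
    (h : IsOpenPath (n + M) C l) : Alt n M C l := by
  obtain ⟨h1, h2, ⟨e, h3, h3'⟩, h4⟩ := h
  have h0 : ∀ e ∈ l, e ∉ C := fun e he => (h1 e he).2
  unfold InS at h3'
  rcases h3' with ⟨s1, s2⟩ | ⟨s1, s2, s3⟩
  · by_cases hy : (src e).2 ≤ M - 1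
    · exact alt_D hn hM C l h0 h2 h4 ⟨e, h3, by omega, hy⟩
    · left
      apply isOpenPath_of_run (N := n + M) (v := src e) hn (by omega) (by omega) h0 h2 h4 ⟨e, h3, rfl⟩
      · omega
      · omega
      · omega
      · omega
      · unfold InS; simp only; omega
  · by_cases hx : (src e).1 ≤ n - 1
    · exact alt_D hn hM C l h0 h2 h4 ⟨e, h3, hx, by omega⟩
    · right; left
      apply isOpenPath_of_run (N := n + M) (v := src e) hM (by omega) (by omega) h0 h2 h4 ⟨e, h3, rfl⟩
      · omega
      · omega
      · omega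
      · omega
      · unfold InS; simp only; omega

lemma finset_le_V {n k : ℕ} {C : Finset Edge} (I : Finset (Fin k)) (Q : Fin k → List Edge)
    (h1 : ∀ i ∈ I, IsOpenPath n C (Q i))
    (h2 : ∀ i ∈ I, ∀ j ∈ I, i ≠ j → (Q i).Disjoint (Q j)) : I.card ≤ V n C := by
  apply le_V (fun i => Q (I.equivFin.symm i : Fin k))
  · intro i
    exact h1 _ (I.equivFin.symm i).2
  · intro i j hij
    apply h2 _ (I.equivFin.symm i).2 _ (I.equivFin.symm j).2
    intro hh
    apply hij
    have : I.equivFin.symm i = I.equivFin.symm j := Subtype.ext hh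
    exact I.equivFin.symm.injective this

/-- Subadditivity of the maximal flow. -/
theorem V_sub {n M : ℕ} (hn : 2 ≤ n) (hM : 2 ≤ M) (C : Finset Edge) :
    V (n + M) C ≤ V n (pull n 0 M C) + V M (pull M n 0 C) + 2 := by
  classical
  apply csSup_le
  · exact ⟨0, fun i => i.elim0, fun i => i.elim0, fun i => i.elim0⟩
  · rintro k ⟨P, h1, h2⟩
    have halt := fun i => alt_path hn hM (h1 i)
    set IA : Finset (Fin k) := univ.filter (fun i => ∃ l' : List Edge,
      IsOpenPath n (pull n 0 M C) l' ∧ ∀ e ∈ l', sh 0 M e ∈ P i) with hIA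
    set IB : Finset (Fin k) := univ.filter (fun i => ∃ l' : List Edge,
      IsOpenPath M (pull M n 0 C) l' ∧ ∀ e ∈ l', sh n 0 e ∈ P i) with hIB
    set IC : Finset (Fin k) := univ.filter (fun i => (n - 1, M - 1, true) ∈ P i ∨
      (n - 1, M - 1, false) ∈ P i) with hIC
    have hcov : (univ : Finset (Fin k)) ⊆ (IA ∪ IB) ∪ IC := by
      intro i _
      rw [mem_union, mem_union]
      rcases halt i with h | h | h
      · exact Or.inl (Or.inl (mem_filter.2 ⟨mem_univ _, h⟩))
      · exact Or.inl (Or.inr (mem_filter.2 ⟨mem_univ _, h⟩))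
      · exact Or.inr (mem_filter.2 ⟨mem_univ _, h⟩)
    have hA : IA.card ≤ V n (pull n 0 M C) := by
      have hc : ∀ i, ∃ l' : List Edge, i ∈ IA →
          IsOpenPath n (pull n 0 M C) l' ∧ ∀ e ∈ l', sh 0 M e ∈ P i := by
        intro i
        by_cases hi : i ∈ IA
        · obtain ⟨l', hl'⟩ := (mem_filter.1 hi).2
          exact ⟨l', fun _ => hl'⟩
        · exact ⟨[], fun h => absurd h hi⟩
      choose Q hQ using hc
      apply finset_le_V IA Q (fun i hi => (hQ i hi).1)
      intro i hi j hj hij x hx hx'
      exact h2 i j hij ((hQ i hi).2 x hx) ((hQ j hj).2 x hx')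
    have hB : IB.card ≤ V M (pull M n 0 C) := by
      have hc : ∀ i, ∃ l' : List Edge, i ∈ IB →
          IsOpenPath M (pull M n 0 C) l' ∧ ∀ e ∈ l', sh n 0 e ∈ P i := by
        intro i
        by_cases hi : i ∈ IB
        · obtain ⟨l', hl'⟩ := (mem_filter.1 hi).2
          exact ⟨l', fun _ => hl'⟩
        · exact ⟨[], fun h => absurd h hi⟩
      choose Q hQ using hc
      apply finset_le_V IB Q (fun i hi => (hQ i hi).1)
      intro i hi j hj hij x hx hx'
      exact h2 i j hij ((hQ i hi).2 x hx) ((hQ j hj).2 x hx')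
    have hC : IC.card ≤ 2 := by
      have hc : ∀ i, ∃ c : Bool, i ∈ IC → (n - 1, M - 1, c) ∈ P i := by
        intro i
        by_cases hi : i ∈ IC
        · rcases (mem_filter.1 hi).2 with h | h
          · exact ⟨true, fun _ => h⟩
          · exact ⟨false, fun _ => h⟩
        · exact ⟨true, fun h => absurd h hi⟩
      choose c hc using hc
      have := card_le_card_of_injOn c (s := IC) (t := univ) (fun i _ => mem_coe.2 (mem_univ _)) (by
        intro i hi j hj hij
        by_contra hne
        have h3 := hc i hi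
        have h4 := hc j hj
        rw [hij] at h3
        exact h2 i j hne h3 h4)
      simpa using this
    have h5 := card_le_card hcov
    have h6 : ((IA ∪ IB) ∪ IC).card ≤ (IA.card + IB.card) + IC.card :=
      (card_union_le _ _).trans (Nat.add_le_add_right (card_union_le _ _) _)
    simp only [card_univ, Fintype.card_fin] at h5
    omega

end Pool.Agent.Work.MP_465a95_pr
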