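import Mathlib
import Pool.Agent.Work.MP_465a95_pr.Sub
import Pool.Agent.Work.MP_465a95_pr.Final

/-!
Existence of the flow constant.
-/

open Finset Filter Topology

namespace Pool.Agent.Work.MP_465a95_pr

lemma pull_congr {k a b : ℕ} {C C' : Finset Edge}
    (h : ∀ e ∈ edges k, (sh a b e ∈ C ↔ sh a b e ∈ C')) : pull k a b C = pull k a b C' := by
  unfold pull
  apply filter_congr
  exact h

lemma pull_filter (k a b : ℕ) (C : Finset Edge) :
    pull k a b (C.filter (fun e => e ∈ (edges k).image (sh a b))) = pull k a b C := by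
  apply pull_congr
  intro e he
  rw [mem_filter]
  constructor
  · exact fun h => h.1
  · exact fun h => ⟨h, mem_image_of_mem _ he⟩

lemma pull_image {k a b : ℕ} {C : Finset Edge} (hC : C ⊆ edges k) :
    pull k a b (C.image (sh a b)) = C := by
  unfold pull
  ext e
  rw [mem_filter, mem_image]
  constructor
  · rintro ⟨_, f, hf, hfe⟩
    rwa [← sh_injective a b hfe]
  · intro he
    exact ⟨hC he, e, he, rfl⟩

lemma image_sub {k a b N : ℕ} (ha : a + k ≤ N) (hb : b + k ≤ N) :
    (edges k).image (sh a b) ⊆ edges N := by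
  intro e he
  obtain ⟨f, hf, rfl⟩ := mem_image.1 he
  rw [mem_edges] at hf ⊢
  obtain ⟨x, y, c⟩ := f
  cases c <;> simp only [sh, tgt, if_true, Bool.false_eq_true, if_false] at hf ⊢ <;> omega

lemma Ex_pull (ε : ℝ) {k a b N : ℕ} (ha : a + k ≤ N) (hb : b + k ≤ N) (F : Finset Edge → ℝ) :
    Ex ε (edges N) (fun C => F (pull k a b C)) = Ex ε (edges k) F := by
  have h1 : (fun C => F (pull k a b C)) = fun C =>
      (fun D => F (pull k a b D)) (C.filter (fun e => e ∈ (edges k).image (sh a b))) := by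
    funext C
    simp only
    rw [pull_filter]
  rw [h1, Ex_filter ε (edges N) (fun e => e ∈ (edges k).image (sh a b))
    (fun D => F (pull k a b D))]
  have h2 : (edges N).filter (fun e => e ∈ (edges k).image (sh a b)) = (edges k).image (sh a b) := by
    ext e
    rw [mem_filter]
    exact ⟨fun h => h.2, fun h => ⟨image_sub ha hb h, h⟩⟩
  rw [h2, Ex_image ε (sh a b) (sh_injective a b).injOn]
  apply Ex_congr
  intro C hC
  rw [pull_image hC]

lemma Ex_pull_indep (ε : ℝ) (n M : ℕ) (F G : Finset Edge → ℝ) :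
    Ex ε (edges (n + M)) (fun C => F (pull n 0 M C) * G (pull M n 0 C)) =
      Ex ε (edges n) F * Ex ε (edges M) G := by
  have h1 : (fun C => F (pull n 0 M C) * G (pull M n 0 C)) = fun C =>
      (fun D => F (pull n 0 M D)) (C.filter (fun e => e ∈ (edges n).image (sh 0 M))) *
      (fun D => G (pull M n 0 D)) (C.filter (fun e => e ∈ (edges M).image (sh n 0))) := by
    funext C
    simp only
    rw [pull_filter, pull_filter]
  have h2 : (fun C => F (pull n 0 M C)) = fun C =>
      (fun D => F (pull n 0 M D)) (C.filter (fun e => e ∈ (edges n).image (sh 0 M))) := by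
    funext C
    simp only
    rw [pull_filter]
  have h3 : (fun C => G (pull M n 0 C)) = fun C =>
      (fun D => G (pull M n 0 D)) (C.filter (fun e => e ∈ (edges M).image (sh n 0))) := by
    funext C
    simp only
    rw [pull_filter]
  have hd : ∀ e, e ∈ (edges n).image (sh 0 M) → ¬ e ∈ (edges M).image (sh n 0) := by
    intro e he hf
    obtain ⟨f, hf1, rfl⟩ := mem_image.1 he
    obtain ⟨g, hg1, hg2⟩ := mem_image.1 hf
    rw [mem_edges] at hf1 hg1
    simp only [sh, Prod.mk.injEq] at hg2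
    omega
  rw [h1, Ex_indep ε (edges (n + M)) (fun e => e ∈ (edges n).image (sh 0 M))
    (fun e => e ∈ (edges M).image (sh n 0)) hd (fun D => F (pull n 0 M D))
    (fun D => G (pull M n 0 D)), ← h2, ← h3, Ex_pull ε (by omega) (by omega),
    Ex_pull ε (by omega) (by omega)]

lemma V_le_two (M : ℕ) (C : Finset Edge) (hM : 2 ≤ M) : (V M C : ℝ) ≤ 2 * M := by
  obtain ⟨N, rfl⟩ : ∃ N, M = N + 2 := ⟨M - 2, by omega⟩
  have h := V_le_antichain N C ∅ (empty_subset _) (by simp) (by simp)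
  have h2 : (V (N + 2) C : ℝ) ≤ 2 * ((N : ℝ) + 1) := by
    have : (V (N + 2) C : ℤ) ≤ 2 * ((N : ℤ) + 1) := by simpa using h
    exact_mod_cast this
  push_cast
  linarith

/-- Sum of the flows in the diagonal boxes. -/
noncomputable def Z (n M : ℕ) : ℕ → Finset Edge → ℝ
  | 0, _ => 0
  | K + 1, C => V n (pull n 0 (n * K + M) C) + Z n M K (pull (n * K + M) n 0 C)

lemma V_le_Z {n M : ℕ} (hn : 2 ≤ n) (hM : 2 ≤ M) (K : ℕ) : ∀ C,
    (V (n * K + M) C : ℝ) ≤ Z n M K C + 2 * M + 2 * K := by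
  induction K with
  | zero =>
    intro C
    have := V_le_two M C hM
    simpa [Z] using this
  | succ K ih =>
    intro C
    have h1 : n * (K + 1) + M = n + (n * K + M) := by ring
    have h2 := V_sub hn (show 2 ≤ n * K + M by omega) C
    rw [← h1] at h2
    have h3 := ih (pull (n * K + M) n 0 C)
    have h4 : (V (n * (K + 1) + M) C : ℝ) ≤
        V n (pull n 0 (n * K + M) C) + V (n * K + M) (pull (n * K + M) n 0 C) + 2 := by
      exact_mod_cast h2
    simp only [Z]
    push_cast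
    linarith

lemma Ex_Z (ε : ℝ) (n M : ℕ) (K : ℕ) :
    Ex ε (edges (n * K + M)) (Z n M K) = K * Ex ε (edges n) (fun C => (V n C : ℝ)) := by
  induction K with
  | zero =>
    have : Z n M 0 = fun _ => (0 : ℝ) := rfl
    rw [this, Ex_const]; simp
  | succ K ih =>
    have h1 : n * (K + 1) + M = n + (n * K + M) := by ring
    have h2 : Z n M (K + 1) = fun C => (fun D => (V n D : ℝ)) (pull n 0 (n * K + M) C) +
        Z n M K (pull (n * K + M) n 0 C) := rfl
    rw [h1, h2, Ex_add, Ex_pull ε (by omega) (by omega) (fun D => (V n D : ℝ)),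
      Ex_pull ε (by omega) (by omega) (Z n M K), ih]
    push_cast
    ring

lemma Ex_Z_sq (ε : ℝ) (n M : ℕ) {μ σ : ℝ} (hμ : μ = Ex ε (edges n) (fun C => (V n C : ℝ)))
    (hσ : σ = Ex ε (edges n) (fun C => ((V n C : ℝ) - μ) ^ 2)) (K : ℕ) :
    Ex ε (edges (n * K + M)) (fun C => (Z n M K C - K * μ) ^ 2) = K * σ := by
  induction K with
  | zero =>
    have : (fun C => (Z n M 0 C - ((0 : ℕ) : ℝ) * μ) ^ 2) = fun _ => (0 : ℝ) := by
      funext C; simp [Z]
    rw [this, Ex_const]; simp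
  | succ K ih =>
    have h1 : n * (K + 1) + M = n + (n * K + M) := by ring
    have h2 : (fun C => (Z n M (K + 1) C - ((K + 1 : ℕ) : ℝ) * μ) ^ 2) = fun C =>
        ((fun D => ((V n D : ℝ) - μ) ^ 2) (pull n 0 (n * K + M) C) +
        2 * ((fun D => ((V n D : ℝ) - μ)) (pull n 0 (n * K + M) C) *
          (fun D => Z n M K D - K * μ) (pull (n * K + M) n 0 C))) +
        (fun D => (Z n M K D - K * μ) ^ 2) (pull (n * K + M) n 0 C) := by
      funext C
      simp only [Z]
      push_cast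
      ring
    have h3 : Ex ε (edges n) (fun D => ((V n D : ℝ) - μ)) = 0 := by
      simp only [sub_eq_add_neg]
      rw [Ex_add, Ex_const, ← hμ]
      ring
    rw [h1, h2, Ex_add, Ex_add, Ex_mul_left, Ex_pull ε (by omega) (by omega) (fun D => ((V n D : ℝ) - μ) ^ 2),
      Ex_pull_indep ε n (n * K + M) (fun D => (V n D : ℝ) - μ) (fun D => Z n M K D - K * μ),
      Ex_pull ε (by omega) (by omega) (fun D => (Z n M K D - K * μ) ^ 2), ih, h3, ← hσ]
    push_cast
    ring

/-- Upper deviation of the normalised flow. -/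
lemma dev_upper {ε : ℝ} (h0 : 0 ≤ ε) (h1 : ε ≤ 1) {n N : ℕ} (hn : 2 ≤ n) (hN : 2 * n ≤ N)
    {v δ : ℝ} (hδ : 0 < δ)
    (hv : v ≤ Ex ε (edges n) (fun C => (V n C : ℝ)) / (2 * n) + 1 / n) :
    Ex ε (edges N) (fun C => max ((V N C : ℝ) / (2 * N) - v) 0) ≤
      δ / 4 + n / (δ * N) + (Ex ε (edges n) (fun C => (V n C : ℝ)) / (2 * n) + 1 / n - v) +
        2 * n / N := by
  set μ : ℝ := Ex ε (edges n) (fun C => (V n C : ℝ)) with hμ
  set σ : ℝ := Ex ε (edges n) (fun C => ((V n C : ℝ) - μ) ^ 2) with hσ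
  have hnr : (2 : ℝ) ≤ n := by exact_mod_cast hn
  have hNr : (2 : ℝ) * n ≤ N := by exact_mod_cast hN
  have hN0 : (0 : ℝ) < N := by linarith
  obtain ⟨K, M, hKM, hM1, hM2⟩ : ∃ K M : ℕ, N = n * K + M ∧ n ≤ M ∧ M < 2 * n := by
    refine ⟨N / n - 1, n + N % n, ?_, by omega, ?_⟩
    · have h2 : 1 ≤ N / n := by
        rw [Nat.one_le_div_iff (by omega)]; omega
      have h3 := Nat.div_add_mod N n
      have h4 : n * (N / n - 1) + n = n * (N / n) := by
        obtain ⟨q, hq⟩ : ∃ q, N / n = q + 1 := ⟨N / n - 1, by omega⟩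
        rw [hq, Nat.add_sub_cancel]; ring
      omega
    · have := Nat.mod_lt N (show 0 < n by omega)
      omega
  have hKn : (n : ℝ) * K ≤ N := by
    have : n * K ≤ N := by omega
    exact_mod_cast this
  have hμ0 : 0 ≤ μ := Ex_nonneg h0 h1 (fun C _ => Nat.cast_nonneg _)
  have hμ1 : μ ≤ 2 * n := by
    have := Ex_mono h0 h1 (U := edges n) (F := fun C => (V n C : ℝ)) (G := fun _ => 2 * (n : ℝ))
      (fun C _ => V_le_two n C hn)
    rwa [Ex_const] at this
  have hσ1 : σ ≤ 4 * n ^ 2 := by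
    have := Ex_mono h0 h1 (U := edges n) (F := fun C => ((V n C : ℝ) - μ) ^ 2)
      (G := fun _ => 4 * (n : ℝ) ^ 2) (fun C _ => by
        have h2 := V_le_two n C hn
        have h3 : (0 : ℝ) ≤ V n C := Nat.cast_nonneg _
        nlinarith)
    rwa [Ex_const] at this
  have hmean : K * μ / (2 * N) ≤ μ / (2 * n) := by
    rw [div_le_div_iff₀ (by positivity) (by positivity)]
    nlinarith
  have hpt : ∀ C ⊆ edges N, max ((V N C : ℝ) / (2 * N) - v) 0 ≤
      (1 / (4 * δ * N ^ 2)) * (Z n M K C - K * μ) ^ 2 +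
      (δ / 4 + (μ / (2 * n) + 1 / n - v) + 2 * n / N) := by
    intro C _
    have e0 : 0 ≤ (1 / (4 * δ * (N : ℝ) ^ 2)) * (Z n M K C - K * μ) ^ 2 := by positivity
    have e1 : 0 ≤ 2 * (n : ℝ) / N := by positivity
    apply max_le
    · have h2 := V_le_Z hn (show 2 ≤ M by omega) K C
      rw [← hKM] at h2
      have h3 : (M : ℝ) ≤ 2 * n := by exact_mod_cast hM2.le
      -- arithmetic-geometric inequality
      have h4 : (Z n M K C - K * μ) / (2 * N) ≤
          (1 / (4 * δ * (N : ℝ) ^ 2)) * (Z n M K C - K * μ) ^ 2 + δ / 4 := by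
        have h5 : (1 / (4 * δ * (N : ℝ) ^ 2)) * (Z n M K C - K * μ) ^ 2 + δ / 4 -
            (Z n M K C - K * μ) / (2 * N) =
            (1 / (4 * δ * (N : ℝ) ^ 2)) * ((Z n M K C - K * μ) - δ * N) ^ 2 := by
          field_simp
          ring
        have h6 : 0 ≤ (1 / (4 * δ * (N : ℝ) ^ 2)) * ((Z n M K C - K * μ) - δ * N) ^ 2 := by
          positivity
        linarith
      have h7 : (V N C : ℝ) / (2 * N) ≤ (Z n M K C + 4 * n + 2 * K) / (2 * N) := by
        apply div_le_div_of_nonneg_right _ (by positivity)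
        linarith
      have h8 : (Z n M K C + 4 * n + 2 * K) / (2 * N) =
          (Z n M K C - K * μ) / (2 * N) + K * μ / (2 * N) + 2 * n / N + K / N := by
        field_simp
        ring
      have h9 : (K : ℝ) / N ≤ 1 / n := by
        rw [div_le_div_iff₀ (by positivity) (by positivity)]
        linarith
      linarith
    · have : 0 ≤ μ / (2 * n) + 1 / n - v := by linarith
      positivity
  have hE := Ex_mono h0 h1 hpt
  rw [Ex_add, Ex_mul_left, Ex_const] at hE
  have hsq := Ex_Z_sq ε n M hμ hσ K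
  rw [← hKM] at hsq
  rw [hsq] at hE
  have h10 : 1 / (4 * δ * (N : ℝ) ^ 2) * (K * σ) ≤ n / (δ * N) := by
    rw [one_div_mul_eq_div, div_le_div_iff₀ (by positivity) (by positivity)]
    have h11 : (K : ℝ) * σ ≤ K * (4 * n ^ 2) := by gcongr
    have h12 : (K : ℝ) * (4 * n ^ 2) ≤ 4 * n * N := by nlinarith
    have h13 : (0 : ℝ) ≤ δ * N := by positivity
    calc (K : ℝ) * σ * (δ * N) ≤ 4 * n * N * (δ * N) := by
          apply mul_le_mul_of_nonneg_right (h11.trans h12) h13
      _ = n * (4 * δ * (N : ℝ) ^ 2) := by ring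
  linarith

/-- Existence of the flow constant for one value of the parameter. -/
lemma exists_limit {ε : ℝ} (h0 : 0 ≤ ε) (h1 : ε ≤ 1) : ∃ v : ℝ,
    Tendsto (fun N : ℕ => Ex ε (edges N) (fun C => |(V N C : ℝ) / (2 * N) - v|)) atTop (𝓝 0) := by
  set b : ℕ → ℝ := fun n => Ex ε (edges n) (fun C => (V n C : ℝ)) / (2 * n) + 1 / n with hb
  set S : Set ℝ := b '' {n | 2 ≤ n} with hS
  have hb0 : ∀ n, 0 ≤ b n := by
    intro n
    have : 0 ≤ Ex ε (edges n) (fun C => (V n C : ℝ)) := Ex_nonneg h0 h1 (fun C _ => Nat.cast_nonneg _)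
    simp only [hb]
    positivity
  have hSne : S.Nonempty := ⟨b 2, 2, le_refl 2, rfl⟩
  have hSbdd : BddBelow S := ⟨0, by rintro _ ⟨n, _, rfl⟩; exact hb0 n⟩
  set v : ℝ := sInf S with hv
  have hvle : ∀ n, 2 ≤ n → v ≤ b n := fun n hn => csInf_le hSbdd ⟨n, hn, rfl⟩
  have hv0 : 0 ≤ v := le_csInf hSne (by rintro _ ⟨n, _, rfl⟩; exact hb0 n)
  refine ⟨v, ?_⟩
  rw [Metric.tendsto_atTop]
  intro η hη
  obtain ⟨_, ⟨n, hn, rfl⟩, hnv⟩ := Real.lt_sInf_add_pos hSne (show 0 < η / 8 by linarith)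
  have hn2 : 2 ≤ n := hn
  have hlim : Tendsto (fun N : ℕ => (2 * n / (η / 2) + 4 * n + 1 : ℝ) / N) atTop (𝓝 0) :=
    tendsto_const_div_atTop_nhds_zero_nat _
  have hev := (hlim.eventually (gt_mem_nhds (show 0 < η / 4 by linarith))).and
    (eventually_ge_atTop (2 * n))
  obtain ⟨N0, hN0⟩ := eventually_atTop.1 hev
  refine ⟨N0, fun N hN => ?_⟩
  obtain ⟨e1, e2⟩ := hN0 N hN
  have hNpos : (0 : ℝ) < N := by
    have : 0 < N := by omega
    exact_mod_cast this
  have hdev := dev_upper h0 h1 hn2 e2 (show 0 < η / 2 by linarith) (hvle n hn2)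
  have hvN := hvle N (by omega)
  -- the absolute value in terms of the positive part
  have habs : Ex ε (edges N) (fun C => |(V N C : ℝ) / (2 * N) - v|) =
      2 * Ex ε (edges N) (fun C => max ((V N C : ℝ) / (2 * N) - v) 0) +
        (v - Ex ε (edges N) (fun C => (V N C : ℝ)) / (2 * N)) := by
    have h2 : (fun C : Finset Edge => |(V N C : ℝ) / (2 * N) - v|) = fun C =>
        (2 * max ((V N C : ℝ) / (2 * N) - v) 0 + (V N C : ℝ) * (-(2 * (N : ℝ))⁻¹)) + v := by
      funext C
      rcases le_total ((V N C : ℝ) / (2 * N) - v) 0 with h | h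
      · rw [abs_of_nonpos h, max_eq_right h]
        ring
      · rw [abs_of_nonneg h, max_eq_left h]
        ring
    rw [h2, Ex_add, Ex_add, Ex_mul_left, Ex_mul_right, Ex_const]
    ring
  have hnn : 0 ≤ Ex ε (edges N) (fun C => |(V N C : ℝ) / (2 * N) - v|) :=
    Ex_nonneg h0 h1 (fun C _ => abs_nonneg _)
  rw [Real.dist_eq, sub_zero, abs_of_nonneg hnn, habs]
  have e3 : (2 * n / (η / 2) + 4 * n + 1 : ℝ) / N =
      2 * (n / (η / 2 * N)) + 2 * (2 * n / N) + 1 / N := by
    field_simp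
    ring
  rw [e3] at e1
  simp only [hb] at hvN hdev hnv
  have hnv' : Ex ε (edges n) (fun C => (V n C : ℝ)) / (2 * n) + 1 / n - v < η / 8 := by
    linarith
  linarith

/-- Existence of the flow constant. -/
theorem exists_flowConstant : ∃ v : ℝ → ℝ, IsFlowConstant v := by
  have h : ∀ p : ℝ, ∃ v : ℝ, 0 < p → p < 1 →
      Tendsto (fun n : ℕ => expect n p (fun C => |(V n C : ℝ) / (2 * n) - v|)) atTop (𝓝 0) := by
    intro p
    by_cases hp : 0 < p ∧ p < 1
    · obtain ⟨v, hv⟩ := exists_limit (ε := 1 - p) (by linarith [hp.2]) (by linarith [hp.1])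
      refine ⟨v, fun _ _ => ?_⟩
      simp only [expect_eq]
      exact hv
    · exact ⟨0, fun h1 h2 => absurd ⟨h1, h2⟩ hp⟩
  choose v hv using h
  exact ⟨v, hv⟩

end Pool.Agent.Work.MP_465a95_pr
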